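import Pool.Agent.W5h21.LP.Pui

/-!
# Leopoldt's conjecture in parametrised families: analytic Puiseux expansions
-/

set_option autoImplicit false

namespace Pool.Agent.W5h21.LP

open Polynomial Filter Topology

attribute [-instance] HahnSeries.powerSeriesAlgebra

section alg

variable {K : Type} [Field K]

/-- the embedding of polynomials in power series -/
noncomputable abbrev io (K : Type) [Field K] : K[X] →+* PowerSeries K :=
  Polynomial.coeToPowerSeries.ringHom

theorem io_C (c : K) : io K (C c) = PowerSeries.C c := by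
  simp [io]

theorem io_X : io K X = PowerSeries.X := by
  simp [io]

theorem io_coeff (q : K[X]) (n : ℕ) : PowerSeries.coeff n (io K q) = q.coeff n := by
  simp [io]

theorem io_inj : Function.Injective (io K) := by
  intro a b h
  ext n
  rw [← io_coeff, h, io_coeff]

/-- The blown-up equation of a simple formal root `x = x_N + s ^ N y`. -/
theorem blow (g : K[X][X]) (t₀ : K) (M : ℕ) (x : PowerSeries K)
    (hx : bev (PowerSeries.C (R := K)) (PowerSeries.C t₀ + PowerSeries.X ^ M) x g = 0)
    (hx' : bev (PowerSeries.C (R := K)) (PowerSeries.C t₀ + PowerSeries.X ^ M) x (derivative g) ≠ 0) :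
    ∃ e : ℕ, ∀ N : ℕ, e < N → ∃ (y₀ ε : K) (Q : K[X][X]), ε ≠ 0 ∧
      (∀ Y : K, (Q.map (evalRingHom 0)).eval Y = ε * (Y - y₀)) ∧
      (g.map (eval₂RingHom (C : K →+* K[X]) (C t₀ + X ^ M))).comp
        (C (PowerSeries.trunc N x) + C (X ^ N) * X) = C (X ^ (N + e)) * Q := by
  set T : PowerSeries K := PowerSeries.C t₀ + PowerSeries.X ^ M with hT
  set gT : (PowerSeries K)[X] := g.map (eval₂RingHom (PowerSeries.C (R := K)) T) with hgT
  have hg0 : gT.eval x = 0 := by rw [hgT, ← bev_apply]; exact hx
  have hg1 : gT.derivative.eval x ≠ 0 := by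
    rw [hgT, derivative_map, ← bev_apply]
    exact hx'
  obtain ⟨e, w, hw, hwe⟩ : ∃ (e : ℕ) (w : PowerSeries K), PowerSeries.constantCoeff w ≠ 0 ∧
      gT.derivative.eval x = PowerSeries.X ^ e * w := by
    set d := gT.derivative.eval x with hd
    refine ⟨d.order.toNat, PowerSeries.divXPowOrder d, ?_, ?_⟩
    · exact PowerSeries.constantCoeff_divXPowOrder_eq_zero_iff.not.2 hg1
    · exact (PowerSeries.X_pow_order_mul_divXPowOrder (f := d)).symm
  refine ⟨e, fun N hN => ?_⟩
  -- the remainder
  obtain ⟨y, hy⟩ : ∃ y : PowerSeries K, x = io K (PowerSeries.trunc N x) + PowerSeries.X ^ N * y := by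
    have h1 : (PowerSeries.X ^ N : PowerSeries K) ∣ x - io K (PowerSeries.trunc N x) := by
      rw [PowerSeries.X_pow_dvd_iff]
      intro m hm
      rw [map_sub, io_coeff, PowerSeries.coeff_trunc, if_pos hm, sub_self]
    obtain ⟨y, hy⟩ := h1
    exact ⟨y, by rw [← hy]; ring⟩
  set xN := PowerSeries.trunc N x with hxN
  set P : K[X][X] := (g.map (eval₂RingHom (C : K →+* K[X]) (C t₀ + X ^ M))).comp
    (C xN + C (X ^ N) * X) with hP
  have hcomp : (io K).comp (eval₂RingHom (C : K →+* K[X]) (C t₀ + X ^ M)) =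
      eval₂RingHom (PowerSeries.C (R := K)) T := by
    apply Polynomial.ringHom_ext
    · intro a
      rw [RingHom.comp_apply, coe_eval₂RingHom, coe_eval₂RingHom, eval₂_C, eval₂_C, io_C]
    · rw [RingHom.comp_apply, coe_eval₂RingHom, coe_eval₂RingHom, eval₂_X, eval₂_X, map_add,
        io_C, map_pow, io_X]
  have hPio : P.map (io K) = gT.comp (C x + C (PowerSeries.X ^ N) * (X - C y)) := by
    rw [hP, Polynomial.map_comp, Polynomial.map_map, hcomp, ← hgT]
    congr 1
    rw [Polynomial.map_add, Polynomial.map_mul, map_C, map_C, map_X, map_pow, io_X]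
    have h1 : (C x : (PowerSeries K)[X]) = C (io K xN) + C (PowerSeries.X ^ N) * C y := by
      rw [← C_mul, ← C_add, ← hy]
    rw [h1]
    ring
  obtain ⟨k, hk⟩ := Polynomial.binomExpansion (gT.map (C : PowerSeries K →+* (PowerSeries K)[X]))
    (C x) (C (PowerSeries.X ^ N) * (X - C y))
  have hcompe : ∀ (F : (PowerSeries K)[X]) (Z : (PowerSeries K)[X]),
      F.comp Z = (F.map (C : PowerSeries K →+* (PowerSeries K)[X])).eval Z := by
    intro F Z
    rw [eval_map]
    rfl
  have hPio2 : P.map (io K) = C (PowerSeries.X ^ (N + e)) *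
      (C w * (X - C y) + C (PowerSeries.X ^ (N - e)) * (k * (X - C y) ^ 2)) := by
    rw [hPio, hcompe, hk, derivative_map]
    have h1 : (gT.map (C : PowerSeries K →+* (PowerSeries K)[X])).eval (C x) = 0 := by
      rw [eval_map, eval₂_at_apply, hg0, map_zero]
    have h2 : (gT.derivative.map (C : PowerSeries K →+* (PowerSeries K)[X])).eval (C x) =
        C (PowerSeries.X ^ e * w) := by
      rw [eval_map, eval₂_at_apply, hwe]
    rw [h1, h2, zero_add]
    have h3 : (C (PowerSeries.X ^ N) : (PowerSeries K)[X]) ^ 2 =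
        C (PowerSeries.X ^ (N + e)) * C (PowerSeries.X ^ (N - e)) := by
      rw [← C_pow, ← C_mul, ← pow_mul, ← pow_add]
      congr 2
      omega
    rw [mul_pow, h3]
    rw [pow_add (PowerSeries.X : PowerSeries K) N e, C_mul, C_mul]
    ring
  -- division
  have hdvd : (C (X ^ (N + e)) : K[X][X]) ∣ P := by
    rw [C_dvd_iff_dvd_coeff]
    intro i
    rw [Polynomial.X_pow_dvd_iff]
    intro m hm
    rw [← io_coeff, ← coeff_map, hPio2, coeff_C_mul]
    have h1 := (PowerSeries.X_pow_dvd_iff (n := N + e) (φ := PowerSeries.X ^ (N + e) *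
      (C w * (X - C y) + C (PowerSeries.X ^ (N - e)) * (k * (X - C y) ^ 2)).coeff i)).1
        (dvd_mul_right _ _) m hm
    exact h1
  obtain ⟨Q, hQ⟩ := hdvd
  have hQio : Q.map (io K) =
      C w * (X - C y) + C (PowerSeries.X ^ (N - e)) * (k * (X - C y) ^ 2) := by
    have h1 : (C (PowerSeries.X ^ (N + e)) : (PowerSeries K)[X]) ≠ 0 := by
      rw [Ne, C_eq_zero]
      exact pow_ne_zero _ PowerSeries.X_ne_zero
    apply mul_left_cancel₀ h1
    have h2 : io K (X ^ (N + e)) = PowerSeries.X ^ (N + e) := by rw [map_pow, io_X]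
    rw [← hPio2, hQ, Polynomial.map_mul, map_C, h2]
  have hev0 : (PowerSeries.constantCoeff (R := K)).comp (io K) = evalRingHom 0 := by
    apply Polynomial.ringHom_ext
    · intro a
      rw [RingHom.comp_apply, io_C]
      simp
    · rw [RingHom.comp_apply, io_X]
      simp
  have hc0 : PowerSeries.constantCoeff (PowerSeries.X ^ (N - e) : PowerSeries K) = 0 := by
    rw [map_pow, PowerSeries.constantCoeff_X, zero_pow (by omega)]
  refine ⟨PowerSeries.constantCoeff y, PowerSeries.constantCoeff w, Q, hw, fun Y => ?_, hQ⟩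
  rw [← hev0, ← Polynomial.map_map, hQio]
  simp only [Polynomial.map_add, Polynomial.map_mul, map_C, Polynomial.map_sub, map_X,
    Polynomial.map_pow, hc0, eval_mul, eval_sub, eval_X, eval_C, zero_mul, add_zero,
    map_zero]

end alg

section ana

variable {K : Type} [NontriviallyNormedField K] [CompleteSpace K]

omit [CompleteSpace K] in
/-- the values of a polynomial in two variables are analytic -/
theorem analytic_bev {E : Type} [NormedAddCommGroup E] [NormedSpace K E] (Q : K[X][X])
    (f h : E → K) (v : E) (hf : AnalyticAt K f v) (hh : AnalyticAt K h v) :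
    AnalyticAt K (fun v => (Q.map (evalRingHom (f v))).eval (h v)) v := by
  induction Q using Polynomial.induction_on' with
  | add p q hp hq =>
    simp only [Polynomial.map_add, eval_add]
    exact hp.add hq
  | monomial n a =>
    simp only [Polynomial.map_monomial, eval_monomial, coe_evalRingHom]
    refine AnalyticAt.mul ?_ (hh.pow n)
    have h1 := AnalyticAt.aeval_polynomial hf a
    simpa [coe_aeval_eq_eval] using h1

theorem ift' (H : K × K → K) (y₀ : K)
    (hH : AnalyticAt K H (0, y₀)) (h0 : H (0, y₀) = 0) (b : K) (hb : b ≠ 0)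
    (hd : HasDerivAt (fun y => H (0, y)) b y₀) :
    ∃ Y : K → K, AnalyticAt K Y 0 ∧ Y 0 = y₀ ∧ ∀ᶠ s in 𝓝 (0 : K), H (s, Y s) = 0 := by
  have h1 := hH.differentiableAt.hasFDerivAt
  set F := fderiv K H (0, y₀) with hF
  have h2 : HasDerivAt (fun y : K => ((0 : K), y)) ((0 : K), (1 : K)) y₀ :=
    (hasDerivAt_const y₀ (0 : K)).prodMk (hasDerivAt_id y₀)
  have h3 : HasDerivAt (fun y => H (0, y)) (F (0, 1)) y₀ :=
    HasFDerivAt.comp_hasDerivAt (l := H) (f := fun y : K => ((0 : K), y)) y₀ h1 h2
  have h4 : F (0, 1) = b := h3.unique hd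
  have h5 : F = (F (1, 0)) • ContinuousLinearMap.fst K K K + b • ContinuousLinearMap.snd K K K := by
    ext
    · simp
    · simp [h4]
  rw [h5] at h1
  exact ift H y₀ hH h0 _ b hb h1

/-- Analytic parametrisation of the roots near every value of the parameter. -/
theorem ana [CharZero K] [IsAlgClosed K] (g : K[X][X]) (hg : g.Monic) (hs : Sep g) (t₀ : K) :
    ∃ (M : ℕ) (x : Fin g.natDegree → K → K), 0 < M ∧ (∀ j, AnalyticAt K (x j) 0) ∧
      (∀ j, ∀ᶠ s in 𝓝 (0 : K), bev (RingHom.id K) (t₀ + s ^ M) (x j s) g = 0) ∧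
      (∀ i j, i ≠ j → ¬ (∀ᶠ s in 𝓝 (0 : K), x i s = x j s)) := by
  classical
  obtain ⟨M, hM, x, hx, hroot⟩ := exists_fin g hg hs t₀
  -- the roots are simple
  have hsimple : ∀ j, bev (PowerSeries.C (R := K)) (PowerSeries.C t₀ + PowerSeries.X ^ M) (x j)
      (derivative g) ≠ 0 := by
    obtain ⟨a, b, D, hD, hab⟩ := hs
    intro j h0
    have h1 := congrArg (bev (PowerSeries.C (R := K)) (PowerSeries.C t₀ + PowerSeries.X ^ M) (x j))
      hab
    rw [map_add, map_mul, map_mul, hroot, h0, mul_zero, mul_zero, add_zero, bev_C] at h1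
    apply hD
    have h2 : Function.Injective (eval₂RingHom (PowerSeries.C (R := K))
        (PowerSeries.C t₀ + PowerSeries.X ^ M)) := by
      have h3 : eval₂RingHom (PowerSeries.C (R := K)) (PowerSeries.C t₀ + PowerSeries.X ^ M) =
          (io K).comp (eval₂RingHom (C : K →+* K[X]) (C t₀ + X ^ M)) := by
        apply Polynomial.ringHom_ext
        · intro a
          rw [RingHom.comp_apply, coe_eval₂RingHom, coe_eval₂RingHom, eval₂_C, eval₂_C, io_C]
        · rw [RingHom.comp_apply, coe_eval₂RingHom, coe_eval₂RingHom, eval₂_X, eval₂_X, map_add,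
            io_C, map_pow, io_X]
      rw [h3, RingHom.coe_comp]
      apply io_inj.comp
      rw [injective_iff_map_eq_zero]
      intro q hq
      have hq' : q.comp (C t₀ + X ^ M) = 0 := hq
      rw [comp_eq_zero_iff] at hq'
      rcases hq' with h | ⟨_, h⟩
      · exact h
      · exfalso
        have h4 := congrArg (fun q : K[X] => q.coeff M) h
        simp only [coeff_add, coeff_C, coeff_X_pow, if_neg hM.ne'] at h4
        simp at h4
    exact h2 (by rw [map_zero]; exact h1.symm)
  choose e he using fun j => blow g t₀ M (x j) (hroot j) (hsimple j)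
  -- a large precision
  have hdiff : ∀ i j, i ≠ j → ∃ n, PowerSeries.coeff n (x i) ≠ PowerSeries.coeff n (x j) := by
    intro i j hij
    by_contra hcon
    push Not at hcon
    exact hij (hx (PowerSeries.ext hcon))
  choose! nd hnd using hdiff
  set N : ℕ := (∑ j, (e j + 1)) + ∑ i, ∑ j, (nd i j + 1) + 1 with hN
  have heN : ∀ j, e j < N := by
    intro j
    have h1 : e j + 1 ≤ ∑ j, (e j + 1) :=
      Finset.single_le_sum (f := fun j => e j + 1) (fun _ _ => Nat.zero_le _) (Finset.mem_univ j)
    omega
  have hndN : ∀ i j, nd i j < N := by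
    intro i j
    have h1 : nd i j + 1 ≤ ∑ j, (nd i j + 1) :=
      Finset.single_le_sum (f := fun j => nd i j + 1) (fun _ _ => Nat.zero_le _)
        (Finset.mem_univ j)
    have h2 : ∑ j, (nd i j + 1) ≤ ∑ i, ∑ j, (nd i j + 1) :=
      Finset.single_le_sum (f := fun i => ∑ j, (nd i j + 1)) (fun _ _ => Nat.zero_le _)
        (Finset.mem_univ i)
    omega
  choose y₀ ε Q hε hQ0 hQ using fun j => he j N (heN j)
  have hift : ∀ j, ∃ Y : K → K, AnalyticAt K Y 0 ∧ Y 0 = y₀ j ∧
      ∀ᶠ s in 𝓝 (0 : K), ((Q j).map (evalRingHom s)).eval (Y s) = 0 := by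
    intro j
    have hH : AnalyticAt K (fun v : K × K => ((Q j).map (evalRingHom v.1)).eval v.2) (0, y₀ j) :=
      analytic_bev (Q j) _ _ _ analyticAt_fst analyticAt_snd
    have hH0 : ((Q j).map (evalRingHom (0 : K))).eval (y₀ j) = 0 := by
      rw [hQ0, sub_self, mul_zero]
    have hHd : HasDerivAt (fun y => ((Q j).map (evalRingHom (0 : K))).eval y) (ε j) (y₀ j) := by
      have h1 : (fun y => ((Q j).map (evalRingHom (0 : K))).eval y) = fun y => ε j * (y - y₀ j) := by
        funext y
        exact hQ0 j y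
      rw [h1]
      have h2 := ((hasDerivAt_id (y₀ j)).sub_const (y₀ j)).const_mul (ε j)
      simpa using h2
    exact ift' (fun v : K × K => ((Q j).map (evalRingHom v.1)).eval v.2) (y₀ j) hH hH0 (ε j) (hε j)
      hHd
  choose Y hYan hY0 hYeq using hift
  have haP : ∀ (q : K[X]), AnalyticAt K (fun s => q.eval s) 0 := by
    intro q
    have h := AnalyticAt.aeval_polynomial (f := fun z : K => z) (analyticAt_id (𝕜 := K) (z := 0)) q
    simpa [coe_aeval_eq_eval] using h
  refine ⟨M, fun j s => (PowerSeries.trunc N (x j)).eval s + s ^ N * Y j s, hM, ?_, ?_, ?_⟩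
  · intro j
    exact (haP _).add ((analyticAt_id.pow N).mul (hYan j))
  · intro j
    filter_upwards [hYeq j] with s hs
    have h1 := congrArg (fun q : K[X][X] => (q.map (evalRingHom s)).eval (Y j s)) (hQ j)
    rw [Polynomial.map_mul, eval_mul, hs, mul_zero, Polynomial.map_comp, Polynomial.map_map,
      eval_comp] at h1
    rw [bev_apply]
    have h2 : (evalRingHom s).comp (eval₂RingHom (C : K →+* K[X]) (C t₀ + X ^ M)) =
        eval₂RingHom (RingHom.id K) (t₀ + s ^ M) := by
      apply Polynomial.ringHom_ext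
      · intro a
        simp
      · simp
    have h3 : ((C (PowerSeries.trunc N (x j)) + C (X ^ N) * X : K[X][X]).map
        (evalRingHom s)).eval (Y j s) = (PowerSeries.trunc N (x j)).eval s + s ^ N * Y j s := by
      rw [Polynomial.map_add, Polynomial.map_mul, map_C, map_C, map_X, eval_add, eval_mul, eval_C,
        eval_C, eval_X, coe_evalRingHom, eval_pow, eval_X]
    rw [h2, h3] at h1
    exact h1
  · intro i j hij hcon
    -- the difference of the truncations
    set q : K[X] := PowerSeries.trunc N (x i) - PowerSeries.trunc N (x j) with hq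
    have hq0 : q ≠ 0 := by
      intro h
      have h1 := congrArg (fun q : K[X] => q.coeff (nd i j)) h
      simp only [hq, coeff_sub, PowerSeries.coeff_trunc, if_pos (hndN i j), coeff_zero] at h1
      exact hnd i j hij (sub_eq_zero.1 h1)
    have hqN : ∀ n, N ≤ n → q.coeff n = 0 := by
      intro n hn
      rw [hq, coeff_sub, PowerSeries.coeff_trunc, PowerSeries.coeff_trunc, if_neg (by omega),
        if_neg (by omega), sub_zero]
    -- the order
    set m := q.natTrailingDegree with hm
    have hmN : m < N := by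
      by_contra hcon'
      push Not at hcon'
      have h1 := hqN m hcon'
      exact hq0 (trailingCoeff_eq_zero.1 h1)
    obtain ⟨q', hq'⟩ : ∃ q' : K[X], q = X ^ m * q' := by
      have h1 : (X ^ m : K[X]) ∣ q := by
        rw [Polynomial.X_pow_dvd_iff]
        intro d hd
        exact coeff_eq_zero_of_lt_natTrailingDegree hd
      exact h1
    have hq'0 : q'.eval 0 ≠ 0 := by
      rw [← coeff_zero_eq_eval_zero]
      have h1 : q.coeff m ≠ 0 := fun h => hq0 (trailingCoeff_eq_zero.1 h)
      rw [hq', coeff_X_pow_mul'] at h1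
      simpa using h1
    have hev : ∀ᶠ s in 𝓝[≠] (0 : K), q'.eval s = s ^ (N - m) * (Y j s - Y i s) := by
      filter_upwards [hcon.filter_mono nhdsWithin_le_nhds, self_mem_nhdsWithin] with s hs hs0
      have hs0' : s ≠ 0 := hs0
      have h1 : q.eval s = s ^ N * (Y j s - Y i s) := by
        rw [hq, eval_sub]
        linear_combination hs
      rw [hq', eval_mul, eval_pow, eval_X] at h1
      have h2 : s ^ N = s ^ m * s ^ (N - m) := by
        rw [← pow_add]
        congr 1
        omega
      rw [h2, mul_assoc] at h1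
      exact mul_left_cancel₀ (pow_ne_zero _ hs0') h1
    have hl1 : Tendsto (fun s => q'.eval s) (𝓝[≠] (0 : K)) (𝓝 (q'.eval 0)) :=
      ((haP q').continuousAt.tendsto).mono_left nhdsWithin_le_nhds
    have hl2 : Tendsto (fun s => s ^ (N - m) * (Y j s - Y i s)) (𝓝[≠] (0 : K)) (𝓝 0) := by
      have h1 : AnalyticAt K (fun s => s ^ (N - m) * (Y j s - Y i s)) 0 :=
        (analyticAt_id.pow _).mul ((hYan j).sub (hYan i))
      have h2 := h1.continuousAt.tendsto
      simp only [zero_pow (show N - m ≠ 0 by omega), zero_mul] at h2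
      exact h2.mono_left nhdsWithin_le_nhds
    have hl3 := hl1.congr' hev
    exact hq'0 (tendsto_nhds_unique hl3 hl2)

end ana

end Pool.Agent.W5h21.LP
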