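import Mathlib

/-!
# Leopoldt's conjecture in parametrised families: preliminaries

The evaluation of polynomials in two variables, nonzero minors of integral matrices with independent
rows, the analytic implicit function theorem in two variables over complete fields.
-/

set_option autoImplicit false

namespace Pool.Agent.W5h21.LP

open Polynomial Filter Topology

/-- The value of a polynomial in two variables (the outer variable is the second one). -/
noncomputable def bev {S E : Type} [CommRing S] [CommRing E] (φ : S →+* E) (t x : E) :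
    S[X][X] →+* E :=
  eval₂RingHom (eval₂RingHom φ t) x

theorem bev_apply {S E : Type} [CommRing S] [CommRing E] (φ : S →+* E) (t x : E) (g : S[X][X]) :
    bev φ t x g = (g.map (eval₂RingHom φ t)).eval x := by
  rw [bev, coe_eval₂RingHom, eval_map]

theorem bev_C {S E : Type} [CommRing S] [CommRing E] (φ : S →+* E) (t x : E) (a : S[X]) :
    bev φ t x (C a) = eval₂ φ t a := by
  rw [bev, coe_eval₂RingHom, eval₂_C, coe_eval₂RingHom]

theorem bev_X {S E : Type} [CommRing S] [CommRing E] (φ : S →+* E) (t x : E) :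
    bev φ t x X = x := by
  rw [bev, coe_eval₂RingHom, eval₂_X]

theorem bev_hom {S E F : Type} [CommRing S] [CommRing E] [CommRing F] (φ : S →+* E) (ψ : E →+* F)
    (t x : E) (g : S[X][X]) : ψ (bev φ t x g) = bev (ψ.comp φ) (ψ t) (ψ x) g := by
  have h : ψ.comp (bev φ t x) = bev (ψ.comp φ) (ψ t) (ψ x) := by
    apply Polynomial.ringHom_ext
    · intro a
      rw [RingHom.comp_apply, bev_C, bev_C, hom_eval₂]
    · rw [RingHom.comp_apply, bev_X, bev_X]
  exact congrArg (fun χ : S[X][X] →+* F => χ g) h

theorem bev_map {R S E : Type} [CommRing R] [CommRing S] [CommRing E] (χ : R →+* S) (φ : S →+* E)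
    (t x : E) (g : R[X][X]) :
    bev φ t x (g.map (mapRingHom χ)) = bev (φ.comp χ) t x g := by
  rw [bev_apply, bev_apply, Polynomial.map_map]
  congr 2
  apply Polynomial.ringHom_ext
  · intro a
    simp
  · simp

/-- a nonzero minor of a family of independent rows -/
theorem exists_minor {K : Type} [Field K] {I : Type} [Fintype I] {r : ℕ} (W : Fin r → I → K)
    (h : LinearIndependent K W) :
    ∃ g : Fin r → I, (Matrix.of (fun i j => W i (g j))).det ≠ 0 := by
  classical
  obtain ⟨M, hM⟩ : ∃ M : Matrix (Fin r) I K, M = Matrix.of W := ⟨_, rfl⟩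
  have hrow : M.row = W := by rw [hM]; rfl
  have hrank : M.rank = r := by
    have h1 : LinearIndependent K M.row := by rw [hrow]; exact h
    rw [h1.rank_matrix, Fintype.card_fin]
  rw [M.rank_eq_finrank_span_cols] at hrank
  obtain ⟨κ', a, ha, hspan, hli⟩ := exists_linearIndependent' K M.col
  have hfin : Finite κ' := hli.finite
  have : Fintype κ' := Fintype.ofFinite κ'
  have hcard : Fintype.card κ' = r := by
    rw [linearIndependent_iff_card_eq_finrank_span.1 hli, Set.finrank, hspan, hrank]
  obtain ⟨e⟩ : Nonempty (Fin r ≃ κ') := by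
    rw [← Fintype.card_eq, Fintype.card_fin, hcard]
  refine ⟨fun j => a (e j), ?_⟩
  have h2 : (Matrix.of (fun i j => W i (a (e j)))).col = (M.col ∘ a) ∘ e := by
    funext j i
    rw [hM]
    rfl
  have h3 : LinearIndependent K (Matrix.of (fun i j => W i (a (e j)))).col := by
    rw [h2]
    exact hli.comp _ e.injective
  have h4 := Matrix.linearIndependent_cols_iff_isUnit.1 h3
  exact ((Matrix.isUnit_iff_isUnit_det _).1 h4).ne_zero

/-- a nonzero minor of an integral matrix with independent rows -/
theorem int_minor {I : Type} [Fintype I] {r : ℕ} (W : Fin r → I → ℤ)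
    (h : ∀ c : Fin r → ℤ, (∀ j, ∑ i, c i * W i j = 0) → c = 0) :
    ∃ g : Fin r → I, (Matrix.of (fun i j => W i (g j))).det ≠ 0 := by
  have h1 : LinearIndependent ℤ (fun i j => ((W i j : ℤ) : ℚ)) := by
    rw [Fintype.linearIndependent_iff]
    intro c hc i
    have h2 : c = 0 := by
      apply h
      intro j
      have h3 := congrFun hc j
      rw [Finset.sum_apply, Pi.zero_apply] at h3
      have h4 : ∀ i, (c i • fun j => ((W i j : ℤ) : ℚ)) j = ((c i * W i j : ℤ) : ℚ) := by
        intro i
        rw [Pi.smul_apply, zsmul_eq_mul]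
        push_cast
        rfl
      simp only [h4] at h3
      exact_mod_cast h3
    rw [h2]
    rfl
  have h4 : LinearIndependent ℚ (fun i j => ((W i j : ℤ) : ℚ)) :=
    (LinearIndependent.iff_fractionRing ℤ ℚ).1 h1
  obtain ⟨g, hg⟩ := exists_minor _ h4
  refine ⟨g, fun h0 => hg ?_⟩
  have h5 : (Matrix.of (fun i j => ((W i (g j) : ℤ) : ℚ))) =
      (Matrix.of (fun i j => W i (g j))).map (Int.castRingHom ℚ) := by
    ext i j
    rfl
  have h6 := RingHom.map_det (Int.castRingHom ℚ) (Matrix.of (fun i j => W i (g j)))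
  rw [h0, map_zero] at h6
  rw [h5]
  exact h6.symm

/-- the analytic implicit function theorem in two variables -/
theorem ift {K : Type} [NontriviallyNormedField K] [CompleteSpace K] (H : K × K → K) (y₀ : K)
    (hH : AnalyticAt K H (0, y₀)) (h0 : H (0, y₀) = 0) (a b : K) (hb : b ≠ 0)
    (hd : HasFDerivAt H (a • ContinuousLinearMap.fst K K K + b • ContinuousLinearMap.snd K K K)
      (0, y₀)) :
    ∃ Y : K → K, AnalyticAt K Y 0 ∧ Y 0 = y₀ ∧ ∀ᶠ s in 𝓝 (0 : K), H (s, Y s) = 0 := by
  -- the derivative of `(s, y) ↦ (s, H (s, y))`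
  let A : (K × K) ≃L[K] (K × K) :=
    ContinuousLinearEquiv.equivOfInverse
      ((ContinuousLinearMap.fst K K K).prod
        (a • ContinuousLinearMap.fst K K K + b • ContinuousLinearMap.snd K K K))
      ((ContinuousLinearMap.fst K K K).prod
        ((-(a / b)) • ContinuousLinearMap.fst K K K + b⁻¹ • ContinuousLinearMap.snd K K K))
      (by
        rintro ⟨x, y⟩
        apply Prod.ext
        · simp
        · simp
          field_simp
          ring)
      (by
        rintro ⟨x, y⟩
        apply Prod.ext
        · simp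
        · simp
          field_simp
          ring)
  let Φ : K × K → K × K := fun v => (v.1, H v)
  have hΦa : AnalyticAt K Φ (0, y₀) := analyticAt_fst.prod hH
  have hΦd : HasFDerivAt Φ (A : (K × K) →L[K] (K × K)) (0, y₀) :=
    (hasFDerivAt_fst).prodMk hd
  have hΦs : HasStrictFDerivAt Φ (A : (K × K) →L[K] (K × K)) (0, y₀) := by
    have h1 := hΦa.hasStrictFDerivAt
    rwa [hΦd.fderiv] at h1
  have hΦ0 : Φ (0, y₀) = (0, 0) := by simp [Φ, h0]
  have hinv : AnalyticAt K (hΦs.toOpenPartialHomeomorph Φ).symm (0, 0) := by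
    have h1 := (hΦs.toOpenPartialHomeomorph Φ).analyticAt_symm' (a := (0, y₀)) (i := A)
      hΦs.mem_toOpenPartialHomeomorph_source (by simpa using hΦa) (by simpa using hΦd.fderiv)
    have h2 : (hΦs.toOpenPartialHomeomorph Φ) (0, y₀) = (0, 0) := hΦ0
    rwa [h2] at h1
  have hval : (hΦs.toOpenPartialHomeomorph Φ).symm (0, 0) = (0, y₀) := by
    have h1 := (hΦs.toOpenPartialHomeomorph Φ).left_inv hΦs.mem_toOpenPartialHomeomorph_source
    have h2 : (hΦs.toOpenPartialHomeomorph Φ) (0, y₀) = (0, 0) := hΦ0
    rwa [h2] at h1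
  have hright : ∀ᶠ v in 𝓝 ((0 : K), (0 : K)), Φ ((hΦs.toOpenPartialHomeomorph Φ).symm v) = v := by
    have h1 := (hΦs.toOpenPartialHomeomorph Φ).eventually_right_inverse (x := ((0 : K), (0 : K)))
      (by
        have h3 := hΦs.image_mem_toOpenPartialHomeomorph_target
        rwa [hΦ0] at h3)
    exact h1
  have hline : AnalyticAt K (fun s : K => (s, (0 : K))) 0 := by fun_prop
  refine ⟨fun s => ((hΦs.toOpenPartialHomeomorph Φ).symm (s, 0)).2, ?_, ?_, ?_⟩
  · have h1 : AnalyticAt K (fun s : K => (hΦs.toOpenPartialHomeomorph Φ).symm (s, 0)) 0 :=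
      AnalyticAt.comp (g := (hΦs.toOpenPartialHomeomorph Φ).symm) (f := fun s : K => (s, (0 : K)))
        (x := 0) hinv hline
    exact analyticAt_snd.comp h1
  · simp only [hval]
  · have h1 : Tendsto (fun s : K => (s, (0 : K))) (𝓝 0) (𝓝 ((0 : K), (0 : K))) :=
      hline.continuousAt
    filter_upwards [h1.eventually hright] with s hs
    have h2 := congrArg Prod.fst hs
    have h3 := congrArg Prod.snd hs
    simp only [Φ] at h2 h3
    have h4 : (s, ((hΦs.toOpenPartialHomeomorph Φ).symm (s, 0)).2) =
        (hΦs.toOpenPartialHomeomorph Φ).symm (s, 0) := Prod.ext h2.symm rfl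
    rw [h4]
    exact h3

end Pool.Agent.W5h21.LP
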