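import Pool.Agent.W5h21.LP.Line

/-!
# Leopoldt's conjecture in parametrised families: the good points form an open set
-/

set_option autoImplicit false

namespace Pool.Agent.W5h21.LP

open Polynomial Filter Topology Pool.Agent.W289.SL Pool.Agent.W254.LF

section

variable {p : ℕ} [hp : Fact p.Prime] {R : Type} [CommRing R] {s : ℕ} (φ : R →+* ℂ_[p])

theorem cont_ev (q : (MvPolynomial (Fin s) R)[X]) :
    Continuous fun w : (Fin s → ℂ_[p]) × ℂ_[p] => eval₂ (MvPolynomial.eval₂Hom φ w.1) w.2 q := by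
  simp only [eval₂_eq_sum_range]
  refine continuous_finsetSum _ fun i _ => ?_
  refine Continuous.mul ?_ (continuous_snd.pow i)
  have h1 : ∀ t : Fin s → ℂ_[p], MvPolynomial.eval₂Hom φ t (q.coeff i) =
      MvPolynomial.eval t (MvPolynomial.map φ (q.coeff i)) := by
    intro t
    rw [MvPolynomial.eval_map]
    rfl
  simp only [h1]
  exact (MvPolynomial.continuous_eval _).comp continuous_fst

theorem norm_prod_ge (m : Multiset ℂ_[p]) (δ : ℝ) (hδ : 0 ≤ δ) (h : ∀ z ∈ m, δ ≤ ‖z‖) :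
    δ ^ m.card ≤ ‖m.prod‖ := by
  induction m using Multiset.induction_on with
  | empty => simp
  | cons a m ih =>
    rw [Multiset.card_cons, Multiset.prod_cons, norm_mul, pow_succ']
    have h1 := h a (Multiset.mem_cons_self a m)
    have h2 := ih fun z hz => h z (Multiset.mem_cons_of_mem hz)
    gcongr

/-- the roots depend continuously on the parameters -/
theorem root_near (f : (MvPolynomial (Fin s) R)[X]) (hf : f.Monic) (t₀ : Fin s → ℂ_[p])
    (y₀ : ℂ_[p]) (hy₀ : eval₂ (MvPolynomial.eval₂Hom φ t₀) y₀ f = 0) (δ : ℝ) (hδ : 0 < δ) :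
    ∀ᶠ t in 𝓝 t₀, ∃ y, eval₂ (MvPolynomial.eval₂Hom φ t) y f = 0 ∧ ‖y - y₀‖ < δ := by
  have hc : Continuous fun t : Fin s → ℂ_[p] => eval₂ (MvPolynomial.eval₂Hom φ t) y₀ f := by
    have h3 : Continuous fun t : Fin s → ℂ_[p] => (t, y₀) := by fun_prop
    have h4 := (cont_ev φ f).comp h3
    simpa only [Function.comp_def] using h4
  have h1 : ∀ᶠ t in 𝓝 t₀, ‖eval₂ (MvPolynomial.eval₂Hom φ t) y₀ f‖ < δ ^ f.natDegree := by
    have h2 : Tendsto (fun t : Fin s → ℂ_[p] => eval₂ (MvPolynomial.eval₂Hom φ t) y₀ f) (𝓝 t₀)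
        (𝓝 0) := by
      rw [← hy₀]
      exact hc.tendsto t₀
    exact h2.norm.eventually (gt_mem_nhds (by rw [norm_zero]; exact pow_pos hδ _))
  filter_upwards [h1] with t ht
  by_contra hcon
  push Not at hcon
  have hm : (f.map (MvPolynomial.eval₂Hom φ t)).Monic := hf.map _
  have h2 := (IsAlgClosed.splits (f.map (MvPolynomial.eval₂Hom φ t))).eval_eq_prod_roots_of_monic
    hm y₀
  rw [eval_map] at h2
  rw [h2] at ht
  have h3 := norm_prod_ge (p := p)
    ((f.map (MvPolynomial.eval₂Hom φ t)).roots.map fun a => y₀ - a) δ hδ.le (by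
      intro z hz
      obtain ⟨y, hy, rfl⟩ := Multiset.mem_map.1 hz
      rw [norm_sub_rev]
      apply hcon
      rw [← eval_map]
      exact (mem_roots'.1 hy).2)
  rw [Multiset.card_map, ← (IsAlgClosed.splits _).natDegree_eq_card_roots,
    hf.natDegree_map] at h3
  exact absurd ht (not_lt.2 h3)

theorem cont_log (Lg : ℂ_[p] → ℂ_[p]) (hLg : IsIwasawaLog p Lg) {T : Type} [TopologicalSpace T]
    (e : T → ℂ_[p]) (w₀ : T) (he : ContinuousAt e w₀) (h0 : e w₀ ≠ 0) :
    ContinuousAt (fun w => Lg (e w)) w₀ := by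
  have h1 : ContinuousAt Lg (e w₀) := (Pool.Agent.W398.LF.t_LOG p Lg hLg _ h0).1.continuousAt
  exact h1.comp he

omit hp in
theorem cont_det {T E : Type} [TopologicalSpace T] [CommRing E] [TopologicalSpace E]
    [IsTopologicalRing E] {r : ℕ} (w₀ : T) (F : T → Fin r → Fin r → E)
    (h : ∀ i j, ContinuousAt (fun w => F w i j) w₀) :
    ContinuousAt (fun w => (Matrix.of (F w)).det) w₀ := by
  have h1 : ContinuousAt (fun w => Matrix.of (F w)) w₀ := by
    apply continuousAt_pi.2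
    intro i
    apply continuousAt_pi.2
    intro j
    exact h i j
  have h2 : Continuous fun M : Matrix (Fin r) (Fin r) E => M.det := continuous_id.matrix_det
  exact ContinuousAt.comp (g := fun M : Matrix (Fin r) (Fin r) E => M.det)
    (f := fun w => Matrix.of (F w)) h2.continuousAt h1

theorem isOpen_good (Lg : ℂ_[p] → ℂ_[p]) (hLg : IsIwasawaLog p Lg)
    (f : (MvPolynomial (Fin s) R)[X]) (hf : f.Monic) {r : ℕ}
    (U V : Fin r → (MvPolynomial (Fin s) R)[X]) (hUV : ∀ i, f ∣ U i * V i - 1) :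
    IsOpen {t | Good Lg φ f U t} := by
  classical
  rw [isOpen_iff_eventually]
  intro t₀ ht₀
  -- the roots
  set S₀ := (f.map (MvPolynomial.eval₂Hom φ t₀)).roots.toFinset with hS₀
  have hmem : ∀ y, y ∈ S₀ ↔ eval₂ (MvPolynomial.eval₂Hom φ t₀) y f = 0 := by
    intro y
    rw [hS₀, Multiset.mem_toFinset, mem_roots (hf.map _).ne_zero, IsRoot.def, eval_map]
  have hli : LinearIndependent ℂ_[p] (fun (i : Fin r) (y : S₀) =>
      Lg (eval₂ (MvPolynomial.eval₂Hom φ t₀) (y : ℂ_[p]) (U i))) := by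
    rw [Fintype.linearIndependent_iff]
    intro c hc i
    have h1 : c = 0 := by
      apply ht₀
      intro y hy
      have h2 := congrFun hc ⟨y, (hmem y).2 hy⟩
      rw [Finset.sum_apply] at h2
      exact h2
    rw [h1]
    rfl
  obtain ⟨g, hg⟩ := exists_minor _ hli
  let y₀ : Fin r → ℂ_[p] := fun j => (g j : ℂ_[p])
  have hy₀ : ∀ j, eval₂ (MvPolynomial.eval₂Hom φ t₀) (y₀ j) f = 0 := fun j =>
    (hmem _).1 (g j).2
  have hne : ∀ i j, eval₂ (MvPolynomial.eval₂Hom φ t₀) (y₀ j) (U i) ≠ 0 := by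
    intro i j h0
    obtain ⟨w, hw⟩ := hUV i
    have h2 := congrArg (eval₂ (MvPolynomial.eval₂Hom φ t₀) (y₀ j)) hw
    rw [eval₂_sub, eval₂_mul, eval₂_mul, eval₂_one, h0, hy₀, zero_mul, zero_mul, zero_sub] at h2
    exact one_ne_zero (neg_eq_zero.1 h2)
  let D : (Fin s → ℂ_[p]) × (Fin r → ℂ_[p]) → ℂ_[p] := fun w =>
    (Matrix.of fun i j : Fin r => Lg (eval₂ (MvPolynomial.eval₂Hom φ w.1) (w.2 j) (U i))).det
  have hDc : ContinuousAt D (t₀, y₀) := by
    apply cont_det (T := (Fin s → ℂ_[p]) × (Fin r → ℂ_[p])) (E := ℂ_[p]) (t₀, y₀)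
      (fun w i j => Lg (eval₂ (MvPolynomial.eval₂Hom φ w.1) (w.2 j) (U i)))
    intro i j
    apply cont_log Lg hLg (fun w : (Fin s → ℂ_[p]) × (Fin r → ℂ_[p]) =>
      eval₂ (MvPolynomial.eval₂Hom φ w.1) (w.2 j) (U i)) (t₀, y₀) _ (hne i j)
    have h3 : Continuous fun w : (Fin s → ℂ_[p]) × (Fin r → ℂ_[p]) => (w.1, w.2 j) := by
      fun_prop
    exact ((cont_ev φ (U i)).comp h3).continuousAt
  have hD0 : D (t₀, y₀) ≠ 0 := hg
  have hev := hDc.eventually_ne hD0
  rw [Metric.eventually_nhds_iff] at hev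
  obtain ⟨δ, hδ, hDδ⟩ := hev
  have hroots : ∀ᶠ t in 𝓝 t₀, ∀ j : Fin r, ∃ y,
      eval₂ (MvPolynomial.eval₂Hom φ t) y f = 0 ∧ ‖y - y₀ j‖ < δ := by
    rw [eventually_all]
    intro j
    exact root_near φ f hf t₀ (y₀ j) (hy₀ j) δ hδ
  filter_upwards [hroots, Metric.ball_mem_nhds t₀ hδ] with t ht1 ht2
  choose y hy1 hy2 using ht1
  have h1 : D (t, y) ≠ 0 := by
    apply hDδ
    rw [Prod.dist_eq, max_lt_iff]
    refine ⟨Metric.mem_ball.1 ht2, ?_⟩
    rw [dist_pi_lt_iff hδ]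
    intro j
    rw [dist_eq_norm]
    exact hy2 j
  intro c hc
  apply Matrix.eq_zero_of_vecMul_eq_zero h1
  funext j
  rw [Matrix.vecMul, dotProduct]
  exact hc (y j) (hy1 j)

end

end Pool.Agent.W5h21.LP
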