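import Mathlib

/-!
# Lower bounds for the `p`-adic rank of the units: definition
-/

set_option autoImplicit false

namespace Pool.Agent.W5h21.LP

open NumberField Filter Topology

/-- The `ℤ_p`-rank of the closure of the group of units congruent to `1` modulo all primes above `p`
is at least `r`: there are `r` units, congruent to `1` modulo all primes above `p`, without a
nontrivial relation over `ℤ_p`. -/
def PadicRankGE (K : Type) [Field K] [NumberField K] (p : ℕ) [Fact p.Prime] (r : ℕ) : Prop :=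
  ∃ ε : Fin r → (𝓞 K)ˣ,
    (∀ i, ((ε i : 𝓞 K) - 1) ∈ (Ideal.span {((p : ℕ) : 𝓞 K)}).radical) ∧
    ∀ (a : Fin r → PadicInt p) (m : ℕ → Fin r → ℤ),
      (∀ i, Tendsto (fun k => ((m k i : ℤ) : PadicInt p)) atTop (𝓝 (a i))) →
      (∀ N : ℕ, ∀ᶠ k in atTop,
        ((p : ℕ) : 𝓞 K) ^ N ∣ (((∏ i, ε i ^ m k i : (𝓞 K)ˣ) : 𝓞 K) - 1)) →
      a = 0

end Pool.Agent.W5h21.LP
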