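import Mathlib

/-!
# Leopoldt's conjecture in parametrised families: restriction to lines in generic directions
-/

set_option autoImplicit false

namespace Pool.Agent.W5h21.LP

open Polynomial

section

variable {R E : Type} [CommRing R] [CommRing E] {s : ℕ}

/-- the restriction of a polynomial to the line `b + x v` -/
noncomputable def lin (φ : R →+* E) (b v : Fin s → E) : MvPolynomial (Fin s) R →+* E[X] :=
  MvPolynomial.eval₂Hom (C.comp φ) (fun i => C (b i) + C (v i) * X)

theorem lin_eval (φ : R →+* E) (b v : Fin s → E) (x : E) :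
    (evalRingHom x).comp (lin φ b v) = MvPolynomial.eval₂Hom φ (fun i => b i + v i * x) := by
  apply MvPolynomial.ringHom_ext
  · intro a
    simp [lin]
  · intro i
    simp [lin]

theorem coeff_prod (S : Finset (Fin s)) (q : Fin s → E[X]) (n : Fin s → ℕ)
    (h : ∀ i, (q i).natDegree ≤ n i) :
    (∏ i ∈ S, q i).natDegree ≤ ∑ i ∈ S, n i ∧
      (∏ i ∈ S, q i).coeff (∑ i ∈ S, n i) = ∏ i ∈ S, (q i).coeff (n i) := by
  classical
  induction S using Finset.induction_on with
  | empty => simp
  | insert i S hi ih =>
    rw [Finset.prod_insert hi, Finset.prod_insert hi, Finset.sum_insert hi]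
    exact ⟨natDegree_mul_le.trans (add_le_add (h i) ih.1),
      by rw [coeff_mul_add_eq_of_natDegree_le (h i) ih.1, ih.2]⟩

theorem lin_monomial (φ : R →+* E) (b v : Fin s → E) (m : Fin s →₀ ℕ) (a : R) :
    (lin φ b v (MvPolynomial.monomial m a)).natDegree ≤ m.degree ∧
      (lin φ b v (MvPolynomial.monomial m a)).coeff m.degree =
        MvPolynomial.eval₂Hom φ v (MvPolynomial.monomial m a) := by
  have h1 : lin φ b v (MvPolynomial.monomial m a) =
      C (φ a) * ∏ i, (C (b i) + C (v i) * X) ^ m i := by
    rw [lin, MvPolynomial.coe_eval₂Hom, MvPolynomial.eval₂_monomial, Finsupp.prod_pow]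
    rfl
  have h2 : MvPolynomial.eval₂Hom φ v (MvPolynomial.monomial m a) = φ a * ∏ i, v i ^ m i := by
    rw [MvPolynomial.coe_eval₂Hom, MvPolynomial.eval₂_monomial, Finsupp.prod_pow]
  have hd : ∀ i, (C (b i) + C (v i) * X : E[X]).natDegree ≤ 1 := by
    intro i
    rw [add_comm]
    exact natDegree_linear_le
  have hc : ∀ i, (C (b i) + C (v i) * X : E[X]).coeff 1 = v i := by
    intro i
    simp
  have h3 := coeff_prod Finset.univ (fun i => (C (b i) + C (v i) * X : E[X]) ^ m i) (fun i => m i)
    (fun i => by
      refine natDegree_pow_le.trans ?_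
      exact (Nat.mul_le_mul_left _ (hd i)).trans (by omega))
  have h4 : m.degree = ∑ i, m i := Finsupp.degree_eq_sum m
  rw [h1, h2, h4]
  refine ⟨(natDegree_C_mul_le _ _).trans h3.1, ?_⟩
  rw [coeff_C_mul, h3.2]
  congr 1
  refine Finset.prod_congr rfl fun i _ => ?_
  have h5 := coeff_pow_of_natDegree_le (p := (C (b i) + C (v i) * X : E[X])) (n := 1) (m := m i)
    (hd i)
  rw [mul_one, hc] at h5
  exact h5

theorem lin_coeff (φ : R →+* E) (b v : Fin s → E) (h : MvPolynomial (Fin s) R) :
    (lin φ b v h).natDegree ≤ h.totalDegree ∧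
      (lin φ b v h).coeff h.totalDegree =
        MvPolynomial.eval₂Hom φ v (MvPolynomial.homogeneousComponent h.totalDegree h) := by
  classical
  have hsum := MvPolynomial.support_sum_monomial_coeff h
  have hle : ∀ m ∈ h.support, m.degree ≤ h.totalDegree := fun m hm =>
    MvPolynomial.le_totalDegree hm
  constructor
  · conv_lhs => rw [← hsum, map_sum]
    refine natDegree_sum_le_of_forall_le _ _ fun m hm => ?_
    exact (lin_monomial φ b v m _).1.trans (hle m hm)
  · have h1 : (lin φ b v h).coeff h.totalDegree = ∑ m ∈ h.support,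
        (lin φ b v (MvPolynomial.monomial m (h.coeff m))).coeff h.totalDegree := by
      conv_lhs => rw [← hsum, map_sum, finsetSum_coeff]
      rw [hsum]
    rw [h1, MvPolynomial.homogeneousComponent_apply, map_sum, Finset.sum_filter]
    refine Finset.sum_congr rfl fun m hm => ?_
    split_ifs with hmd
    · rw [← hmd]
      exact (lin_monomial φ b v m _).2
    · apply coeff_eq_zero_of_natDegree_lt
      exact (lin_monomial φ b v m _).1.trans_lt (lt_of_le_of_ne (hle m hm) hmd)

/-- `v` is not a zero of any nonzero polynomial over the base ring -/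
def Gen (φ : R →+* E) (v : Fin s → E) : Prop :=
  ∀ q : MvPolynomial (Fin s) R, q ≠ 0 → MvPolynomial.eval₂Hom φ v q ≠ 0

theorem top_ne_zero (h : MvPolynomial (Fin s) R) (h0 : h ≠ 0) :
    MvPolynomial.homogeneousComponent h.totalDegree h ≠ 0 := by
  classical
  have hne : h.support.Nonempty := by
    rwa [Finset.nonempty_iff_ne_empty, Ne, MvPolynomial.support_eq_empty]
  obtain ⟨m, hm, hmd⟩ := Finset.exists_mem_eq_sup h.support hne (fun m => m.sum fun _ e => e)
  intro h1
  have h2 := congrArg (MvPolynomial.coeff m) h1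
  rw [MvPolynomial.coeff_homogeneousComponent, MvPolynomial.coeff_zero, if_pos] at h2
  · exact (MvPolynomial.mem_support_iff.1 hm) h2
  · exact hmd.symm

theorem lin_ne_zero (φ : R →+* E) (b v : Fin s → E) (hv : Gen φ v) (h : MvPolynomial (Fin s) R)
    (h0 : h ≠ 0) : lin φ b v h ≠ 0 := by
  intro h1
  have h2 := (lin_coeff φ b v h).2
  rw [h1, coeff_zero] at h2
  exact hv _ (top_ne_zero h h0) h2.symm

theorem lin_const (φ : R →+* E) (b v : Fin s → E) (hv : Gen φ v) (h : MvPolynomial (Fin s) R)
    (h1 : lin φ b v h = C ((lin φ b v h).coeff 0)) : ∃ c : R, MvPolynomial.C c = h := by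
  by_cases h0 : h = 0
  · exact ⟨0, by rw [h0, map_zero]⟩
  have h2 := (lin_coeff φ b v h).2
  have h3 := hv _ (top_ne_zero h h0)
  rw [← h2] at h3
  have h4 : h.totalDegree = 0 := by
    by_contra h5
    rw [h1, coeff_C, if_neg h5] at h3
    exact h3 rfl
  exact ⟨_, (MvPolynomial.totalDegree_eq_zero_iff_eq_C.1 h4).symm⟩

end

/-- Generic points with coordinates in an uncountable set exist. -/
theorem exists_gen {R E : Type} [CommRing R] [Countable R] [Field E] (φ : R →+* E)
    (hφ : Function.Injective φ) (Y : Set E) (hY : ¬ Y.Countable) (s : ℕ) :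
    ∃ v : Fin s → E, (∀ i, v i ∈ Y) ∧ Gen φ v := by
  induction s with
  | zero =>
    refine ⟨Fin.elim0, fun i => i.elim0, fun q hq h => hq ?_⟩
    obtain ⟨c, rfl⟩ : ∃ c : R, MvPolynomial.C c = q :=
      ⟨_, (MvPolynomial.eq_C_of_isEmpty q).symm⟩
    rw [MvPolynomial.coe_eval₂Hom, MvPolynomial.eval₂_C] at h
    rw [hφ (h.trans (map_zero φ).symm), map_zero]
  | succ s ih =>
    obtain ⟨v, hvY, hv⟩ := ih
    have hcount1 : Countable (MvPolynomial (Fin s) R) := by
      rw [← Cardinal.mk_le_aleph0_iff]
      refine MvPolynomial.cardinalMk_le_max.trans ?_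
      simp
    have hcount : Countable (MvPolynomial (Fin s) R)[X] := by
      rw [← Cardinal.mk_le_aleph0_iff]
      refine Polynomial.cardinalMk_le_max.trans ?_
      simp
    let A : Set E := ⋃ q : (MvPolynomial (Fin s) R)[X],
      {x | x ∈ (q.map (MvPolynomial.eval₂Hom φ v)).roots}
    have hA : A.Countable := by
      apply Set.countable_iUnion
      intro q
      apply Set.Finite.countable
      exact Multiset.finite_toSet _
    obtain ⟨y, hyY, hyA⟩ : ∃ y ∈ Y, y ∉ A := by
      by_contra hcon
      push Not at hcon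
      exact hY (hA.mono hcon)
    refine ⟨Fin.cons y v, ?_, ?_⟩
    · intro i
      refine Fin.cases ?_ (fun j => ?_) i
      · simpa using hyY
      · simpa using hvY j
    · intro q hq h
      apply hyA
      have hcomp : MvPolynomial.eval₂Hom φ (Fin.cons y v : Fin (s + 1) → E) =
          (evalRingHom y).comp ((mapRingHom (MvPolynomial.eval₂Hom φ v)).comp
            (MvPolynomial.finSuccEquiv R s : MvPolynomial (Fin (s + 1)) R →+* _)) := by
        rw [MvPolynomial.finSuccEquiv_eq]
        apply MvPolynomial.ringHom_ext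
        · intro a
          simp
        · intro i
          refine Fin.cases ?_ (fun j => ?_) i
          · simp
          · simp
      have h1 : (MvPolynomial.finSuccEquiv R s q) ≠ 0 := by
        intro h2
        exact hq ((MvPolynomial.finSuccEquiv R s).injective (h2.trans (map_zero _).symm))
      have hinj : Function.Injective (MvPolynomial.eval₂Hom φ v) := by
        rw [injective_iff_map_eq_zero]
        intro a ha
        by_contra hne
        exact hv a hne ha
      refine Set.mem_iUnion.2 ⟨MvPolynomial.finSuccEquiv R s q, ?_⟩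
      rw [Set.mem_setOf_eq, mem_roots]
      · rw [hcomp] at h
        exact h
      · intro h2
        exact h1 (Polynomial.map_injective _ hinj (h2.trans (Polynomial.map_zero _).symm))

end Pool.Agent.W5h21.LP
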