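import Pool.Agent.W5h21.LP.GlobM
import Pool.Agent.W254.LF.Rank
import Pool.Agent.W254.LF.Irr
import Pool.Agent.W239.LF.Lau

/-!
# Leopoldt's conjecture in families with several parameters: the family of all products
-/

set_option autoImplicit false

namespace Pool.Agent.W5h21.LP

open Polynomial NumberField Filter Topology Pool.Agent.W289.SL Pool.Agent.W254.LF IntermediateField

/-- the family `∏ (X - t_i) - 1` -/
noncomputable def uf (R : Type) [CommRing R] (m : ℕ) : (MvPolynomial (Fin (m + 1)) R)[X] :=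
  fam (fun i : Fin m => (MvPolynomial.X i.succ : MvPolynomial (Fin (m + 1)) R)) (MvPolynomial.X 0)

section

variable {C L : Type} [Field C] [Field L] [Algebra C L]

/-- the logarithmic derivative as a homomorphism -/
noncomputable def dlogH (D : Derivation C L L) : Lˣ →* Multiplicative L where
  toFun x := Multiplicative.ofAdd (D x / x)
  map_one' := by simp
  map_mul' x y := by
    rw [← ofAdd_add]
    congr 1
    rw [Units.val_mul, Derivation.leibniz, smul_eq_mul, smul_eq_mul]
    field_simp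
    ring

theorem const_of_integral [IsAlgClosed C] (x : L) (hx : IsIntegral C x) :
    ∃ c : C, algebraMap C L c = x := by
  have h1 := IsAlgClosed.degree_eq_one_of_irreducible C (minpoly.irreducible hx)
  exact minpoly.mem_range_of_degree_eq_one C x h1

end

/-- The units `θ - t_i` of the family are independent modulo constants, and the family is
separable. -/
theorem uf_props {R C : Type} [CommRing R] [Nontrivial R] [Field C] [CharZero C] [IsAlgClosed C]
    (φ : R →+* C) (m : ℕ) :
    (∃ (a b : (MvPolynomial (Fin (m + 1)) R)[X]) (D : MvPolynomial (Fin (m + 1)) R), D ≠ 0 ∧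
      a * uf R m + b * derivative (uf R m) = Polynomial.C D) ∧
    ∀ u : Fin m → (AdjoinRoot (uf R m))ˣ,
      (∀ i, (u i : AdjoinRoot (uf R m)) = AdjoinRoot.mk (uf R m)
        (X - Polynomial.C (MvPolynomial.X i.succ))) →
      ∀ c : Fin m → ℤ,
        IsIntegral R ((∏ i, u i ^ c i : (AdjoinRoot (uf R m))ˣ) : AdjoinRoot (uf R m)) →
        c = 0 := by
  classical
  obtain ⟨L, _, _, DL, tL, rs, x, hDt, hres, hxinj, hxeq, hxres⟩ :=
    Pool.Agent.W239.LF.t_LAU C m (fun i => ((i : ℕ) : C))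
      (fun i j h => Fin.ext (by
        have h' : ((i : ℕ) : C) = ((j : ℕ) : C) := h
        exact_mod_cast h'))
  let ρ : MvPolynomial (Fin (m + 1)) R →+* L :=
    MvPolynomial.eval₂Hom ((algebraMap C L).comp φ)
      (Fin.cons tL (fun i : Fin m => algebraMap C L ((i : ℕ) : C)) : Fin (m + 1) → L)
  have hρ0 : ρ (MvPolynomial.X 0) = tL := by simp [ρ]
  have hρs : ∀ i : Fin m, ρ (MvPolynomial.X i.succ) = algebraMap C L ((i : ℕ) : C) := by
    intro i
    simp [ρ]
  have hmap : (uf R m).map ρ = fam (fun i : Fin m => algebraMap C L ((i : ℕ) : C)) tL := by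
    rw [uf, fam_map, hρ0]
    simp only [hρs]
  have hmon : (uf R m).Monic := (fam_monic _ _).1
  have hroot : ∀ j, eval₂ ρ (x j) (uf R m) = 0 := by
    intro j
    rw [← eval_map, hmap, fam_eval, hxeq, sub_self]
  constructor
  · apply sep_gen ρ _ hmon
    rw [hmap]
    have hdvd : (∏ j, (X - Polynomial.C (x j))) ∣
        fam (fun i : Fin m => algebraMap C L ((i : ℕ) : C)) tL := by
      apply Finset.prod_dvd_of_coprime
      · intro i _ j _ hij
        exact isCoprime_X_sub_C_of_isUnit_sub (sub_ne_zero.2 (hxinj.ne hij)).isUnit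
      · intro j _
        rw [dvd_iff_isRoot, IsRoot.def, fam_eval, hxeq, sub_self]
    have heq := Polynomial.eq_of_monic_of_dvd_of_natDegree_le
      (monic_prod_of_monic _ _ fun j _ => monic_X_sub_C (x j)) (fam_monic
        (fun i : Fin m => algebraMap C L ((i : ℕ) : C)) tL).1 hdvd (by
          rw [(fam_monic (fun i : Fin m => algebraMap C L ((i : ℕ) : C)) tL).2,
            natDegree_prod_of_monic _ _ fun j _ => monic_X_sub_C (x j)]
          simp)
    rw [heq, separable_prod_X_sub_C_iff]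
    exact hxinj
  · intro u hu c hc
    funext l
    let j := l.castSucc
    let Φ : AdjoinRoot (uf R m) →+* L := AdjoinRoot.lift ρ (x j) (hroot j)
    have hΦu : ∀ i, Φ (u i) = x j - algebraMap C L ((i : ℕ) : C) := by
      intro i
      rw [hu i]
      change AdjoinRoot.lift ρ (x j) (hroot j) (AdjoinRoot.mk (uf R m)
        (X - Polynomial.C (MvPolynomial.X i.succ))) = _
      rw [AdjoinRoot.lift_mk, eval₂_sub, eval₂_X, eval₂_C, hρs]
    set w : (AdjoinRoot (uf R m))ˣ := ∏ i, u i ^ c i with hw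
    have hint : IsIntegral C (Φ (w : AdjoinRoot (uf R m))) := by
      obtain ⟨q, hq, hq0⟩ := hc
      refine ⟨q.map φ, hq.map _, ?_⟩
      have h1 := congrArg Φ hq0
      rw [map_zero, hom_eval₂] at h1
      rw [eval₂_map]
      have h2 : Φ.comp (algebraMap R (AdjoinRoot (uf R m))) = (algebraMap C L).comp φ := by
        ext a
        rw [RingHom.comp_apply]
        have h3 : algebraMap R (AdjoinRoot (uf R m)) a =
            AdjoinRoot.of (uf R m) (MvPolynomial.C a) := rfl
        rw [h3]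
        change AdjoinRoot.lift ρ (x j) (hroot j) (AdjoinRoot.of (uf R m) (MvPolynomial.C a)) = _
        rw [AdjoinRoot.lift_of]
        simp [ρ]
      rw [← h2]
      exact h1
    obtain ⟨z, hz⟩ := const_of_integral _ hint
    let Ψ : (AdjoinRoot (uf R m))ˣ →* Lˣ := Units.map (Φ : AdjoinRoot (uf R m) →* L)
    have hΨ : ∀ y, ((Ψ y : Lˣ) : L) = Φ y := fun y => rfl
    have h1 : dlogH DL (Ψ w) = 1 := by
      change Multiplicative.ofAdd (DL ((Ψ w : Lˣ) : L) / ((Ψ w : Lˣ) : L)) = 1
      rw [hΨ, ← hz, Derivation.map_algebraMap, zero_div]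
      rfl
    rw [hw, map_prod, map_prod] at h1
    simp only [map_zpow] at h1
    have h2 := congrArg Multiplicative.toAdd h1
    rw [toAdd_prod, toAdd_one] at h2
    have h3 : ∀ i, Multiplicative.toAdd (dlogH DL (Ψ (u i)) ^ c i) =
        (c i : C) • (DL (x j) / (x j - algebraMap C L ((i : ℕ) : C))) := by
      intro i
      rw [toAdd_zpow]
      have h4 : Multiplicative.toAdd (dlogH DL (Ψ (u i))) =
          DL (x j) / (x j - algebraMap C L ((i : ℕ) : C)) := by
        change DL ((Ψ (u i) : Lˣ) : L) / ((Ψ (u i) : Lˣ) : L) = _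
        rw [hΨ, hΦu, map_sub, Derivation.map_algebraMap, sub_zero]
      rw [h4, zsmul_eq_mul, Algebra.smul_def, map_intCast]
    simp only [h3] at h2
    have h5 := congrArg rs h2
    rw [map_sum, map_zero] at h5
    simp only [map_smul, j, hxres, smul_eq_mul, mul_ite, mul_neg, mul_one, mul_zero] at h5
    rw [Finset.sum_ite_eq' Finset.univ l] at h5
    simp only [Finset.mem_univ, if_true] at h5
    have h6 : (c l : C) = 0 := neg_eq_zero.1 h5
    exact_mod_cast h6

/-- the explicit theorem -/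
theorem mainE (p : ℕ) [Fact p.Prime] (m : ℕ) (ε : ℝ) (hε : 0 < ε) :
    ∃ B₀ : ℕ, ∀ B : ℕ, B₀ ≤ B → ∀ a : Fin (m + 1) → ℤ,
      (({b : Fin (m + 1) → ℤ | ∀ i, a i ≤ b i ∧ b i < a i + B} ∩
        {b : Fin (m + 1) → ℤ | ¬ (Irreducible (∏ i, (X - C ((b i : ℤ) : ℚ)) - 1 : ℚ[X]) ∧
          ∀ (K : Type) [Field K] [NumberField K] (θ : K), ∏ i, (θ - ((b i : ℤ) : K)) = 1 →
            ℚ⟮θ⟯ = ⊤ → Module.finrank ℚ K = m + 1 ∧ IsTotallyReal K ∧
              LeopoldtAt K p)}).ncard : ℝ) ≤
        ε * (B : ℝ) ^ (m + 1) := by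
  classical
  obtain ⟨L, hL⟩ := exists_iwasawaLog p
  set τ : ℚ →+* ℂ_[p] := algebraMap ℚ ℂ_[p] with hτ
  set φ : 𝓞 ℚ →+* ℂ_[p] := τ.comp (algebraMap (𝓞 ℚ) ℚ) with hφ
  have hφi : Function.Injective φ :=
    τ.injective.comp (FaithfulSMul.algebraMap_injective (𝓞 ℚ) ℚ)
  have hcount : Countable (𝓞 ℚ) :=
    (Module.Free.chooseBasis ℤ (𝓞 ℚ)).equivFun.toEquiv.countable_iff.2 inferInstance
  set f := uf (𝓞 ℚ) m with hf
  have hmon : f.Monic := (fam_monic _ _).1
  have hnd : f.natDegree = m + 1 := (fam_monic _ _).2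
  let U : Fin m → (MvPolynomial (Fin (m + 1)) (𝓞 ℚ))[X] := fun i =>
    X - C (MvPolynomial.X i.succ)
  have hunit : ∀ i, IsUnit (AdjoinRoot.mk f (U i)) := by
    intro i
    have h1 : AdjoinRoot.mk f (X - C (MvPolynomial.X 0)) *
        ∏ i : Fin m, AdjoinRoot.mk f (U i) = 1 := by
      have h2 : AdjoinRoot.mk f f = 0 := AdjoinRoot.mk_self
      have h3 : f = (X - C (MvPolynomial.X 0)) * ∏ i : Fin m, U i - 1 := rfl
      rw [h3, map_sub, map_mul, map_prod, map_one, sub_eq_zero] at h2
      rw [← h3] at h2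
      exact h2
    have h4 : IsUnit (AdjoinRoot.mk f (X - C (MvPolynomial.X 0)) *
        ∏ i : Fin m, AdjoinRoot.mk f (U i)) := by
      rw [h1]
      exact isUnit_one
    have h5 := isUnit_of_mul_isUnit_right h4
    exact isUnit_of_dvd_unit (Finset.dvd_prod_of_mem (fun i => AdjoinRoot.mk f (U i))
      (Finset.mem_univ i)) h5
  choose u hu using hunit
  obtain ⟨hsep, hind⟩ := uf_props φ m
  obtain ⟨hcl, v, hv⟩ := dens p L hL φ hφi f hmon hsep u
    (hind u fun i => hu i) U (fun i => (hu i).symm)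
  apply box_few p (m + 1) _ hcl v hv _ _ ε hε
  intro b hb hgood
  apply hb
  have hk : Units.rank ℚ = 0 := by
    rw [Units.rank]
    have h1 : Fintype.card (InfinitePlace ℚ) = 1 := by
      rw [Fintype.card_eq_one_iff_nonempty_unique]
      exact ⟨inferInstance⟩
    rw [h1]
  set bO : Fin (m + 1) → 𝓞 ℚ := fun i => ((b i : ℤ) : 𝓞 ℚ) with hbO
  -- the polynomial
  have hsp : ∀ χ : MvPolynomial (Fin (m + 1)) (𝓞 ℚ) →+* ℂ_[p],
      χ = (MvPolynomial.eval₂Hom φ (fun i => emb p ((b i : ℤ) : ℤ_[p]))) → ∀ y,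
      eval₂ χ y f = (y - ((b 0 : ℤ) : ℂ_[p])) * ∏ i : Fin m, (y - ((b i.succ : ℤ) : ℂ_[p])) - 1 := by
    intro χ hχ y
    rw [← eval_map, hf, uf, fam_map, fam_eval, hχ]
    simp
  have hspU : ∀ i y, eval₂ (MvPolynomial.eval₂Hom φ (fun i => emb p ((b i : ℤ) : ℤ_[p]))) y (U i) =
      y - ((b i.succ : ℤ) : ℂ_[p]) := by
    intro i y
    rw [eval₂_sub, eval₂_X, eval₂_C]
    simp
  have hfamQ : (fam (fun i : Fin m => bO i.succ) (bO 0)).map (algebraMap (𝓞 ℚ) ℚ) =
      ∏ i, (X - C ((b i : ℤ) : ℚ)) - 1 := by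
    rw [fam_map, Fin.prod_univ_succ, fam]
    simp [hbO]
  -- irreducibility
  have hirr : Irreducible (∏ i, (X - C ((b i : ℤ) : ℚ)) - 1 : ℚ[X]) := by
    rw [← hfamQ]
    set S₀ := (f.map (MvPolynomial.eval₂Hom φ (fun i => emb p ((b i : ℤ) : ℤ_[p])))).roots.toFinset
      with hS₀
    have hmem : ∀ y, y ∈ S₀ ↔
        eval₂ (MvPolynomial.eval₂Hom φ (fun i => emb p ((b i : ℤ) : ℤ_[p]))) y f = 0 := by
      intro y
      rw [hS₀, Multiset.mem_toFinset, mem_roots (hmon.map _).ne_zero, IsRoot.def, eval_map]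
    have hli : LinearIndependent ℂ_[p] (fun (i : Fin m) (y : S₀) =>
        L ((y : ℂ_[p]) - ((b i.succ : ℤ) : ℂ_[p]))) := by
      rw [Fintype.linearIndependent_iff]
      intro c hc i
      have h1 : c = 0 := by
        apply hgood
        intro y hy
        have h2 := congrFun hc ⟨y, (hmem y).2 hy⟩
        rw [Finset.sum_apply] at h2
        simp only [hspU]
        exact h2
      rw [h1]
      rfl
    obtain ⟨g, hg⟩ := exists_minor _ hli
    have hginj : Function.Injective fun j => ((g j : ℂ_[p])) := by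
      intro j j' hjj
      by_contra hne
      apply hg
      apply Matrix.det_zero_of_column_eq hne
      intro i
      have h1 : (g j : ℂ_[p]) = (g j' : ℂ_[p]) := hjj
      simp only [Matrix.of_apply, h1]
    apply t_IRR p ℚ hk τ L hL m (fun i => bO i.succ) (bO 0) (fun j => (g j : ℂ_[p])) hginj
    · intro j
      have h1 := (hmem _).1 (g j).2
      rw [hsp _ rfl, sub_eq_zero] at h1
      rw [← h1]
      simp [hbO]
    · have h2 : (Matrix.of fun i j : Fin m => L ((g j : ℂ_[p]) - τ ((bO i.succ : 𝓞 ℚ) : ℚ))) =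
          (Matrix.of fun i j : Fin m => L ((g j : ℂ_[p]) - ((b i.succ : ℤ) : ℂ_[p]))) := by
        ext i j
        simp [hbO]
      rw [h2]
      exact hg
  refine ⟨hirr, ?_⟩
  intro K _ _ θ hθ hadj
  have hfm : f.map (MvPolynomial.eval bO) = fam (fun i : Fin m => bO i.succ) (bO 0) := by
    rw [hf, uf, fam_map]
    simp
  have hθ0 : aeval θ ((f.map (MvPolynomial.eval bO)).map (algebraMap (𝓞 ℚ) ℚ)) = 0 := by
    rw [hfm, hfamQ, map_sub, map_prod, map_one, sub_eq_zero]
    simpa using hθ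
  have hint : IsIntegral ℚ θ := Algebra.IsIntegral.isIntegral θ
  have hdeg : Module.finrank ℚ K = m + 1 := by
    have h1 : minpoly ℚ θ = ∏ i, (X - C ((b i : ℤ) : ℚ)) - 1 := by
      symm
      apply minpoly.eq_of_irreducible_of_monic hirr
      · rw [← hfamQ, ← hfm]
        exact hθ0
      · rw [← hfamQ]
        exact (fam_monic _ _).1.map _
    have h2 : (minpoly ℚ θ).natDegree = m + 1 := by
      rw [h1, ← hfamQ, (fam_monic _ _).1.natDegree_map, (fam_monic _ _).2]
    rw [← h2, ← IntermediateField.adjoin.finrank hint, hadj, IntermediateField.finrank_top']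
  have h3 := pt p L hL τ f hmon u U (fun i => (hu i).symm) (MvPolynomial.eval bO)
    (MvPolynomial.eval₂Hom φ (fun i => emb p ((b i : ℤ) : ℤ_[p]))) (by
      apply MvPolynomial.ringHom_ext
      · intro a
        simp [hφ]
      · intro i
        simp [hbO]) hgood K θ hθ0 hadj (by rw [hdeg, hnd])
  have hrk := t_RANK ℚ K hk
  rw [hdeg] at hrk
  refine ⟨hdeg, ?_, h3.2.1 (by omega)⟩
  have hlow := h3.2.2
  rw [← NumberField.nrComplexPlaces_eq_zero_iff]
  have h4 : Units.rank K + 1 = InfinitePlace.nrRealPlaces K + InfinitePlace.nrComplexPlaces K := by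
    rw [Units.rank, InfinitePlace.card_eq_nrRealPlaces_add_nrComplexPlaces]
    have h5 : 0 < Fintype.card (InfinitePlace K) := Fintype.card_pos
    rw [InfinitePlace.card_eq_nrRealPlaces_add_nrComplexPlaces] at h5
    omega
  have h5 := InfinitePlace.card_add_two_mul_card_eq_rank K
  rw [hdeg] at h5
  omega

end Pool.Agent.W5h21.LP
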