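import Pool.Agent.W5h21.LP.Pui

/-!
# Leopoldt's conjecture in parametrised families: units which are integral at infinity are constant
-/

set_option autoImplicit false

namespace Pool.Agent.W5h21.LP

open Polynomial Pool.Agent.W239.LF

attribute [-instance] HahnSeries.powerSeriesAlgebra

section

variable {R K : Type} [CommRing R] [IsDomain R] [Field K] (φ : R →+* K)

/-- the evaluation of polynomials at `z ^ (-M)` -/
noncomputable def iot (M : ℕ) : R[X] →+* LaurentSeries K :=
  eval₂RingHom ((algebraMap K (LaurentSeries K)).comp φ) (HahnSeries.single (-(M : ℤ)) (1 : K))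

omit [IsDomain R] in
theorem iot_coeff (M : ℕ) (hM : 0 < M) (q : R[X]) (d : ℕ) :
    (iot φ M q).coeff (-((M : ℤ) * d)) = φ (q.coeff d) := by
  induction q using Polynomial.induction_on' with
  | add p q hp hq => rw [map_add, HahnSeries.coeff_add, hp, hq, coeff_add, map_add]
  | monomial n a =>
    rw [iot, coe_eval₂RingHom, eval₂_monomial, HahnSeries.single_pow, one_pow, RingHom.comp_apply,
      algC, coeff_monomial]
    have h1 : (n • (-(M : ℤ))) = -((M : ℤ) * n) := by rw [nsmul_eq_mul]; ring
    rw [h1, HahnSeries.C_mul_eq_smul, HahnSeries.coeff_smul, HahnSeries.coeff_single, smul_eq_mul]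
    by_cases h : n = d
    · subst h
      rw [if_pos rfl, if_pos rfl, mul_one]
    · rw [if_neg h, if_neg, mul_zero, map_zero]
      intro h2
      have h3 : (M : ℤ) * d = (M : ℤ) * n := by omega
      have h4 : (M : ℤ) ≠ 0 := by exact_mod_cast hM.ne'
      have h5 := mul_left_cancel₀ h4 h3
      exact h (by exact_mod_cast h5.symm)

omit [IsDomain R] in
theorem const_of_int (hφ : Function.Injective φ) (M : ℕ) (hM : 0 < M) (q : R[X])
    (z : PowerSeries K) (h : iot φ M q = co K z) : q = C (q.coeff 0) := by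
  ext n
  rcases Nat.eq_zero_or_pos n with rfl | hn
  · rw [coeff_C_zero]
  · rw [coeff_C, if_neg hn.ne']
    apply hφ
    rw [map_zero, ← iot_coeff φ M hM q n, h, co_coeff_neg]
    have h1 : (0 : ℤ) < (M : ℤ) * n := by positivity
    omega

/-- An element of the ring of the family which is integral at all the points above infinity is
integral over the constants. -/
theorem int_of (hφ : Function.Injective φ) (f : R[X][X]) (hf : f.Monic) (M : ℕ) (hM : 0 < M)
    (X' : Fin f.natDegree → LaurentSeries K) (hX : Function.Injective X')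
    (hXe : ∀ j, eval₂ (iot φ M) (X' j) f = 0) (a : AdjoinRoot f)
    (ha : ∀ j, ∃ y : PowerSeries K, co K y = AdjoinRoot.lift (iot φ M) (X' j) (hXe j) a) :
    IsIntegral R a := by
  classical
  set pb := AdjoinRoot.powerBasis' hf with hpb
  have hdim : pb.dim = f.natDegree := rfl
  let b : Module.Basis (Fin f.natDegree) R[X] (AdjoinRoot f) := pb.basis
  have hb : ∀ k, b k = AdjoinRoot.root f ^ (k : ℕ) := fun k => pb.basis_eq_pow k
  let Φ : Fin f.natDegree → AdjoinRoot f →+* LaurentSeries K := fun j =>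
    AdjoinRoot.lift (iot φ M) (X' j) (hXe j)
  set A := Algebra.leftMulMatrix b a with hA
  let V : Matrix (Fin f.natDegree) (Fin f.natDegree) (LaurentSeries K) := Matrix.vandermonde X'
  have hVdet : V.det ≠ 0 := Matrix.det_vandermonde_ne_zero_iff.2 hX
  have hVb : ∀ j k, V j k = Φ j (b k) := by
    intro j k
    rw [hb, map_pow]
    change X' j ^ (k : ℕ) = (AdjoinRoot.lift (iot φ M) (X' j) (hXe j) (AdjoinRoot.root f)) ^ (k : ℕ)
    rw [AdjoinRoot.lift_root]
  have hmul : V * A.map (iot φ M) = Matrix.diagonal (fun j => Φ j a) * V := by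
    ext1 j k
    rw [Matrix.diagonal_mul, Matrix.mul_apply]
    have h1 : a * b k = ∑ l, A l k • b l := by
      rw [← b.sum_repr (a * b k)]
      refine Finset.sum_congr rfl fun l _ => ?_
      rw [hA, Algebra.leftMulMatrix_eq_repr_mul]
    have h2 := congrArg (Φ j) h1
    rw [map_mul, map_sum] at h2
    rw [hVb, h2]
    refine Finset.sum_congr rfl fun l _ => ?_
    rw [Matrix.map_apply, hVb, Algebra.smul_def, map_mul, mul_comm]
    congr 1
    change _ = AdjoinRoot.lift (iot φ M) (X' j) (hXe j) (AdjoinRoot.of f (A l k))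
    rw [AdjoinRoot.lift_of]
  have hchar : A.charpoly.map (iot φ M) = ∏ j, (X - C (Φ j a)) := by
    rw [← Matrix.charpoly_map, ← Matrix.charpoly_diagonal]
    obtain ⟨W, hW⟩ : ∃ W : (Matrix (Fin f.natDegree) (Fin f.natDegree) (LaurentSeries K))ˣ,
        (W : Matrix _ _ _) = V := (Matrix.isUnit_iff_isUnit_det V).2 (isUnit_iff_ne_zero.2 hVdet)
    have h1 : Matrix.diagonal (fun j => Φ j a) =
        W.val * A.map (iot φ M) * (W⁻¹).val := by
      rw [hW, hmul, ← hW, mul_assoc, Units.mul_inv, mul_one]
    rw [h1, Matrix.coe_units_inv, Matrix.charpoly_units_conj]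
  choose y hy using ha
  have hchar2 : A.charpoly.map (iot φ M) = (∏ j, (X - C (y j))).map (co K) := by
    rw [hchar, Polynomial.map_prod]
    refine Finset.prod_congr rfl fun j _ => ?_
    rw [Polynomial.map_sub, map_X, map_C, hy j]
  have hconst : ∀ i, A.charpoly.coeff i = C ((A.charpoly.coeff i).coeff 0) := by
    intro i
    apply const_of_int φ hφ M hM _ ((∏ j, (X - C (y j))).coeff i)
    have h1 := congrArg (fun q => q.coeff i) hchar2
    simp only [coeff_map] at h1
    exact h1
  set χ₀ : R[X] := A.charpoly.map (evalRingHom 0) with hχ₀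
  have hχ : A.charpoly = χ₀.map C := by
    ext1 i
    rw [hχ₀, Polynomial.map_map, coeff_map, hconst i]
    simp
  refine ⟨χ₀, A.charpoly_monic.map _, ?_⟩
  have h1 : aeval a A.charpoly = 0 := by
    apply Algebra.leftMulMatrix_injective b
    rw [map_zero, ← aeval_algHom_apply, ← hA, Matrix.aeval_self_charpoly]
  rw [hχ, aeval_def, eval₂_map] at h1
  exact h1

/-! ### the orders of the units at infinity -/

/-- the order as a homomorphism -/
noncomputable def ordH (K : Type) [Field K] : (LaurentSeries K)ˣ →* Multiplicative ℤ where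
  toFun x := Multiplicative.ofAdd (x : LaurentSeries K).order
  map_one' := by simp
  map_mul' x y := by
    rw [Units.val_mul, HahnSeries.order_mul x.ne_zero y.ne_zero]
    rfl

theorem ordH_apply (x : (LaurentSeries K)ˣ) :
    Multiplicative.toAdd (ordH K x) = (x : LaurentSeries K).order := rfl

theorem exists_co (x : LaurentSeries K) (h : 0 ≤ x.order) : ∃ y : PowerSeries K, co K y = x := by
  apply Pool.Agent.Helper165.P1.NP.mem_range_ofPowerSeries x
  intro i hi
  exact HahnSeries.coeff_eq_zero_of_lt_order (by omega)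

/-- Units which are independent modulo constants have independent orders at infinity. -/
theorem minor_inf (hφ : Function.Injective φ) (f : R[X][X]) (hf : f.Monic) (M : ℕ) (hM : 0 < M)
    (X' : Fin f.natDegree → LaurentSeries K) (hX : Function.Injective X')
    (hXe : ∀ j, eval₂ (iot φ M) (X' j) f = 0) {r : ℕ} (u : Fin r → (AdjoinRoot f)ˣ)
    (hu : ∀ c : Fin r → ℤ, IsIntegral R (((∏ i, u i ^ c i : (AdjoinRoot f)ˣ)) : AdjoinRoot f) →
      c = 0) :
    ∃ e : Fin r → Fin f.natDegree, (Matrix.of fun i j : Fin r =>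
      (AdjoinRoot.lift (iot φ M) (X' (e j)) (hXe (e j)) (u i : AdjoinRoot f)).order).det ≠ 0 := by
  apply int_minor (fun i j => (AdjoinRoot.lift (iot φ M) (X' j) (hXe j)
    (u i : AdjoinRoot f)).order)
  intro c hc
  apply hu
  apply int_of φ hφ f hf M hM X' hX hXe
  intro j
  apply exists_co
  have h1 : ((∏ i, u i ^ c i : (AdjoinRoot f)ˣ) : AdjoinRoot f) =
      ((∏ i, u i ^ c i : (AdjoinRoot f)ˣ) : AdjoinRoot f) := rfl
  let Φ : (AdjoinRoot f)ˣ →* (LaurentSeries K)ˣ :=
    Units.map (AdjoinRoot.lift (iot φ M) (X' j) (hXe j) : AdjoinRoot f →* LaurentSeries K)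
  have h2 : AdjoinRoot.lift (iot φ M) (X' j) (hXe j)
      ((∏ i, u i ^ c i : (AdjoinRoot f)ˣ) : AdjoinRoot f) =
      ((Φ (∏ i, u i ^ c i) : (LaurentSeries K)ˣ) : LaurentSeries K) := rfl
  rw [h2, ← ordH_apply, map_prod, map_prod]
  simp only [map_zpow]
  rw [toAdd_prod]
  have h3 : ∑ i, Multiplicative.toAdd (ordH K (Φ (u i)) ^ c i) = 0 := by
    rw [← hc j]
    refine Finset.sum_congr rfl fun i _ => ?_
    rw [toAdd_zpow, smul_eq_mul]
    rfl
  rw [h3]

end

end Pool.Agent.W5h21.LP
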