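import Pool.Agent.W253.LF.Crit
import Pool.Agent.W5h21.LP.Def

/-!
# Leopoldt's conjecture in parametrised families: lower bounds for the `p`-adic rank of the units
-/

set_option autoImplicit false

namespace Pool.Agent.W5h21.LP

open NumberField Filter Topology Pool.Agent.W289.SL

theorem exists_pow_one {K : Type} [Field K] [NumberField K] (p : ℕ) [hp : Fact p.Prime] :
    ∃ N : ℕ, 0 < N ∧ ∀ u : (𝓞 K)ˣ,
      (((u ^ N : (𝓞 K)ˣ) : 𝓞 K) - 1) ∈ (Ideal.span {((p : ℕ) : 𝓞 K)}).radical := by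
  set I : Ideal (𝓞 K) := (Ideal.span {((p : ℕ) : 𝓞 K)}).radical with hI
  have hI0 : I ≠ ⊥ := by
    intro h
    have h1 : ((p : ℕ) : 𝓞 K) ∈ I := Ideal.le_radical (Ideal.mem_span_singleton_self _)
    rw [h, Ideal.mem_bot] at h1
    have h2 : (p : ℕ) ≠ 0 := hp.out.ne_zero
    exact h2 (by exact_mod_cast h1)
  have hfin : Finite (𝓞 K ⧸ I) := Ideal.finiteQuotientOfFreeOfNeBot I hI0
  refine ⟨Nat.card (𝓞 K ⧸ I)ˣ, Nat.card_pos, fun u => ?_⟩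
  have h1 : (Units.map (Ideal.Quotient.mk I : 𝓞 K →* 𝓞 K ⧸ I) u) ^ Nat.card (𝓞 K ⧸ I)ˣ = 1 :=
    pow_card_eq_one'
  rw [← map_pow] at h1
  have h2 := congrArg (fun x : (𝓞 K ⧸ I)ˣ => (x : 𝓞 K ⧸ I)) h1
  rw [← Ideal.Quotient.eq_zero_iff_mem, map_sub, map_one, sub_eq_zero]
  exact h2

theorem padicRankGE_of (K : Type) [Field K] [NumberField K] (p : ℕ) [Fact p.Prime]
    (L : ℂ_[p] → ℂ_[p]) (hL : IsIwasawaLog p L) (r : ℕ) (u : Fin r → (𝓞 K)ˣ)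
    (hu : ∀ c : Fin r → ℂ_[p],
      (∀ σ : K →+* ℂ_[p], ∑ i, c i * L (σ ((u i : 𝓞 K) : K)) = 0) → c = 0) :
    PadicRankGE K p r := by
  obtain ⟨N, hN, hN1⟩ := exists_pow_one (K := K) p
  refine ⟨fun i => u i ^ N, fun i => hN1 (u i), ?_⟩
  intro a m hma hdiv
  have hj : Continuous (fun x : PadicInt p => algebraMap ℚ_[p] ℂ_[p] (x : ℚ_[p])) :=
    (continuous_algebraMap ℚ_[p] ℂ_[p]).comp continuous_subtype_val
  have hpow : ∀ i (σ : K →+* ℂ_[p]), L (σ (((u i ^ N : (𝓞 K)ˣ) : 𝓞 K) : K)) =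
      (N : ℂ_[p]) * L (σ ((u i : 𝓞 K) : K)) := by
    intro i σ
    have h1 := congrFun (map_nsmul (Pool.Agent.W253.LF.Lam (K := K) hL) N (Additive.ofMul (u i))) σ
    rw [← ofMul_pow, Pool.Agent.W253.LF.Lam_apply, Pi.smul_apply, nsmul_eq_mul,
      Pool.Agent.W253.LF.Lam_apply] at h1
    exact h1
  have hrel : ∀ σ : K →+* ℂ_[p],
      ∑ i, (algebraMap ℚ_[p] ℂ_[p] (a i : ℚ_[p]) * (N : ℂ_[p])) * L (σ ((u i : 𝓞 K) : K)) = 0 := by
    intro σ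
    have h1 := Pool.Agent.W253.LF.tendsto_zero hL σ (fun k => ∏ i, (u i ^ N) ^ m k i) hdiv
    have h2 : ∀ k, L (σ (((∏ i, (u i ^ N) ^ m k i : (𝓞 K)ˣ) : 𝓞 K) : K)) =
        ∑ i, algebraMap ℚ_[p] ℂ_[p] (((m k i : ℤ) : PadicInt p) : ℚ_[p]) *
          L (σ (((u i ^ N : (𝓞 K)ˣ) : 𝓞 K) : K)) := by
      intro k
      have h3 := congrFun (Pool.Agent.W253.LF.Lam_prod hL (fun i => u i ^ N) (m k)) σ
      rw [Pool.Agent.W253.LF.Lam_apply] at h3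
      rw [h3, Finset.sum_apply]
      refine Finset.sum_congr rfl fun i _ => ?_
      rw [Pi.smul_apply, smul_eq_mul, Pool.Agent.W253.LF.Lam_apply]
      congr 1
      simp
    simp only [h2] at h1
    have h4 : Tendsto (fun k => ∑ i, algebraMap ℚ_[p] ℂ_[p] (((m k i : ℤ) : PadicInt p) : ℚ_[p]) *
          L (σ (((u i ^ N : (𝓞 K)ˣ) : 𝓞 K) : K))) atTop
        (𝓝 (∑ i, algebraMap ℚ_[p] ℂ_[p] (a i : ℚ_[p]) *
          L (σ (((u i ^ N : (𝓞 K)ˣ) : 𝓞 K) : K)))) := by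
      refine tendsto_finsetSum _ fun i _ => ?_
      exact ((hj.tendsto (a i)).comp (hma i)).mul_const _
    have h5 := tendsto_nhds_unique h4 h1
    rw [← h5]
    refine Finset.sum_congr rfl fun i _ => ?_
    rw [hpow, mul_assoc]
  have h6 := hu _ hrel
  funext i
  have h7 := congrFun h6 i
  simp only [Pi.zero_apply] at h7
  rcases mul_eq_zero.1 h7 with h8 | h8
  · have h9 : (a i : ℚ_[p]) = 0 := by
      apply (algebraMap ℚ_[p] ℂ_[p]).injective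
      rw [h8, map_zero]
    exact PadicInt.coe_eq_zero.1 h9
  · exfalso
    have h9 : N ≠ 0 := hN.ne'
    exact h9 (by exact_mod_cast h8)

end Pool.Agent.W5h21.LP
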