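import Pool.Agent.W5h21.LP.Pui

/-!
# Leopoldt's conjecture in parametrised families: separability
-/

set_option autoImplicit false

namespace Pool.Agent.W5h21.LP

open Polynomial

/-- A monic polynomial with a separable specialisation is separable. -/
theorem sep_gen {S L : Type} [CommRing S] [Field L] (ι : S →+* L) (f : S[X])
    (hf : f.Monic) (h : (f.map ι).Separable) :
    ∃ (a b : S[X]) (D : S), D ≠ 0 ∧ a * f + b * derivative f = C D := by
  have hS : Nontrivial S := by
    rcases subsingleton_or_nontrivial S with h1 | h1
    · exfalso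
      have h2 : (1 : S) = 0 := Subsingleton.elim _ _
      have h3 := congrArg ι h2
      rw [map_one, map_zero] at h3
      exact one_ne_zero h3
    · exact h1
  by_cases hm : f.natDegree = 0
  · refine ⟨1, 0, 1, one_ne_zero, ?_⟩
    rw [hf.natDegree_eq_zero.1 hm, one_mul, zero_mul, add_zero, C_1]
  obtain ⟨p, q, -, -, hpq⟩ := exists_mul_add_mul_eq_C_resultant f (derivative f)
    (m := f.natDegree) (n := (derivative f).natDegree) le_rfl le_rfl (Or.inl hm)
  refine ⟨p, q, _, ?_, by rw [mul_comm p, mul_comm q]; exact hpq⟩
  intro h0
  have h1 := congrArg ι h0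
  rw [map_zero, ← resultant_map_map] at h1
  have hd : (f.map ι).natDegree = f.natDegree := hf.natDegree_map ι
  have hg : ((derivative f).map ι).natDegree ≤ (derivative f).natDegree := natDegree_map_le
  obtain ⟨k, hk⟩ := Nat.exists_eq_add_of_le hg
  have h2 := resultant_add_right_deg (f.map ι) ((derivative f).map ι) f.natDegree
    ((derivative f).map ι).natDegree k le_rfl
  rw [← hk, h1] at h2
  have h3 : (f.map ι).coeff f.natDegree = 1 := by
    rw [← hd]
    exact (hf.map ι).coeff_natDegree
  rw [h3, one_pow, one_mul] at h2
  have h4 : IsCoprime (f.map ι) ((derivative f).map ι) := by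
    rw [← derivative_map]
    exact h
  have h5 := resultant_ne_zero (f.map ι) ((derivative f).map ι) h4
  rw [hd] at h5
  exact h5 h2.symm

/-- A monic polynomial with a separable specialisation is separable. -/
theorem sep_of_map {S L : Type} [CommRing S] [Field L] (ι : S[X] →+* L) (f : S[X][X])
    (hf : f.Monic) (h : (f.map ι).Separable) : Sep f :=
  sep_gen ι f hf h

end Pool.Agent.W5h21.LP
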