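import Pool.Agent.W5h21.LP.Loc
import Pool.Agent.W5h21.LP.Int
import Pool.Agent.W5h21.LP.SepM
import Pool.Agent.W5h21.LP.Rk
import Pool.Agent.W254.LF.Glob
import Pool.Agent.W540.LF.Cpt
import Pool.Agent.W289.SL.LogEx

/-!
# Leopoldt's conjecture in parametrised families: the global theorem
-/

set_option autoImplicit false

namespace Pool.Agent.W5h21.LP

open Polynomial NumberField Filter Topology Pool.Agent.W289.SL Pool.Agent.W254.LF IntermediateField

attribute [-instance] HahnSeries.powerSeriesAlgebra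

/-- `K = k(θ)` is obtained from the family at the parameter `t` -/
theorem sep_of_gen {k K : Type} [Field k] [NumberField k] [Field K] [NumberField K] [Algebra k K]
    (f : (𝓞 k)[X][X]) (hf : f.Monic) (t : 𝓞 k) (θ : K)
    (hθ : aeval θ ((f.map (evalRingHom t)).map (algebraMap (𝓞 k) k)) = 0) (hadj : k⟮θ⟯ = ⊤)
    (hdeg : Module.finrank k K = f.natDegree) : Sep f := by
  have hint : IsIntegral k θ := by
    have : FiniteDimensional k K := Module.Finite.of_restrictScalars_finite ℚ k K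
    exact Algebra.IsIntegral.isIntegral θ
  have hmon : ((f.map (evalRingHom t)).map (algebraMap (𝓞 k) k)).Monic := (hf.map _).map _
  have hnd : ((f.map (evalRingHom t)).map (algebraMap (𝓞 k) k)).natDegree = f.natDegree := by
    rw [(hf.map _).natDegree_map, hf.natDegree_map]
  have h1 : minpoly k θ ∣ (f.map (evalRingHom t)).map (algebraMap (𝓞 k) k) := minpoly.dvd k θ hθ
  have h2 : (minpoly k θ).natDegree = f.natDegree := by
    rw [← IntermediateField.adjoin.finrank hint, hadj, IntermediateField.finrank_top', hdeg]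
  have h3 := Polynomial.eq_of_monic_of_dvd_of_natDegree_le (minpoly.monic hint) hmon h1
    (by rw [hnd, h2])
  have h4 : (minpoly k θ).Separable := (minpoly.irreducible hint).separable
  apply sep_of_map ((algebraMap (𝓞 k) k).comp (evalRingHom t)) f hf
  rw [← Polynomial.map_map, h3]
  exact h4

/-- the main theorem at a single good value of the parameter -/
theorem main (p : ℕ) [Fact p.Prime] (k : Type) [Field k] [NumberField k] (r : ℕ)
    (f : (𝓞 k)[X][X]) (hf : f.Monic) (u : Fin r → (AdjoinRoot f)ˣ)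
    (hu : ∀ c : Fin r → ℤ,
      IsIntegral (𝓞 k) ((∏ i, u i ^ c i : (AdjoinRoot f)ˣ) : AdjoinRoot f) → c = 0) :
    {t : 𝓞 k | ¬ ∀ (K : Type) [Field K] [NumberField K] [Algebra k K] (θ : K),
      aeval θ ((f.map (evalRingHom t)).map (algebraMap (𝓞 k) k)) = 0 → k⟮θ⟯ = ⊤ →
      Module.finrank k K = f.natDegree →
      PadicRankGE K p r ∧ (Units.rank K ≤ r → LeopoldtAt K p)}.Finite := by
  classical
  obtain ⟨L, hL⟩ := exists_iwasawaLog p
  by_cases hs : Sep f
  swap
  · convert Set.finite_empty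
    rw [Set.eq_empty_iff_forall_notMem]
    intro t ht
    apply ht
    intro K _ _ _ θ hθ hadj hdeg
    exact absurd (sep_of_gen f hf t θ hθ hadj hdeg) hs
  obtain ⟨τ⟩ : Nonempty (k →+* ℂ_[p]) :=
    ⟨((IsAlgClosed.lift : k →ₐ[ℚ] ℂ_[p]) : k →+* ℂ_[p])⟩
  set φ : 𝓞 k →+* ℂ_[p] := τ.comp (algebraMap (𝓞 k) k) with hφ
  have hφi : Function.Injective φ :=
    τ.injective.comp (FaithfulSMul.algebraMap_injective (𝓞 k) k)
  by_contra hinf
  obtain ⟨t₀, ht₀⟩ := Pool.Agent.W540.LF.t_CPT p k τ _ hinf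
  -- the family over `ℂ_p`
  set g : ℂ_[p][X][X] := f.map (mapRingHom φ) with hg
  have hgm : g.Monic := hf.map _
  have hgd : g.natDegree = f.natDegree := hf.natDegree_map _
  have hgs : Sep g := by
    obtain ⟨a, b, D, hD, hab⟩ := hs
    refine ⟨a.map (mapRingHom φ), b.map (mapRingHom φ), D.map φ, ?_, ?_⟩
    · intro h
      exact hD (Polynomial.map_injective φ hφi (by rw [h, Polynomial.map_zero]))
    · have h1 := congrArg (Polynomial.map (mapRingHom φ)) hab
      rw [Polynomial.map_add, Polynomial.map_mul, Polynomial.map_mul, map_C,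
        ← Polynomial.derivative_map] at h1
      exact h1
  have hrep : ∀ w : AdjoinRoot f, ∃ W, AdjoinRoot.mk f W = w := fun w =>
    AdjoinRoot.mk_surjective w
  choose U hU using fun i => hrep (u i : AdjoinRoot f)
  choose V hV using fun i => hrep ((u i)⁻¹ : (AdjoinRoot f)ˣ)
  have hUV : ∀ i, g ∣ (U i).map (mapRingHom φ) * (V i).map (mapRingHom φ) - 1 := by
    intro i
    have h1 : f ∣ U i * V i - 1 := by
      rw [← AdjoinRoot.mk_eq_zero, map_sub, map_mul, hU, hV, map_one, Units.mul_inv, sub_self]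
    have h2 := Polynomial.map_dvd (mapRingHom φ) h1
    rwa [Polynomial.map_sub, Polynomial.map_mul, Polynomial.map_one] at h2
  -- the place at infinity
  obtain ⟨M', hM', X', hX, hXe⟩ := exists_inf g hgm hgs
  let X'' : Fin f.natDegree → LaurentSeries ℂ_[p] := fun j => X' (finCongr hgd.symm j)
  have hX'' : Function.Injective X'' := hX.comp (finCongr hgd.symm).injective
  have hXe'' : ∀ j, eval₂ (iot φ M') (X'' j) f = 0 := by
    intro j
    have h1 : bev (algebraMap ℂ_[p] (LaurentSeries ℂ_[p]))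
        (HahnSeries.single (-(M' : ℤ)) (1 : ℂ_[p])) (X'' j) (f.map (mapRingHom φ)) = 0 :=
      hXe (finCongr hgd.symm j)
    rw [bev_map] at h1
    exact h1
  obtain ⟨e, he⟩ := minor_inf φ hφi f hf M' hM' X'' hX'' hXe'' u hu
  have hdet : (Matrix.of fun i j : Fin r => (bev (algebraMap ℂ_[p] (LaurentSeries ℂ_[p]))
      (HahnSeries.single (-(M' : ℤ)) (1 : ℂ_[p])) (X' (finCongr hgd.symm (e j)))
      ((U i).map (mapRingHom φ))).order).det ≠ 0 := by
    have h1 : (Matrix.of fun i j : Fin r => (bev (algebraMap ℂ_[p] (LaurentSeries ℂ_[p]))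
        (HahnSeries.single (-(M' : ℤ)) (1 : ℂ_[p])) (X' (finCongr hgd.symm (e j)))
        ((U i).map (mapRingHom φ))).order) = Matrix.of fun i j : Fin r =>
      (AdjoinRoot.lift (iot φ M') (X'' (e j)) (hXe'' (e j)) (u i : AdjoinRoot f)).order := by
      ext i j
      rw [Matrix.of_apply, Matrix.of_apply, ← hU i, AdjoinRoot.lift_mk, bev_map]
      rfl
    rw [h1]
    exact he
  -- the local theorem
  obtain ⟨t', ⟨t, htbad, rfl⟩, hgood⟩ :=
    (ht₀.and_eventually (loc p L hL g hgm hgs r (fun i => (U i).map (mapRingHom φ))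
      (fun i => (V i).map (mapRingHom φ)) hUV M' hM' X' hX hXe (fun j => finCongr hgd.symm (e j))
      hdet t₀)).exists
  have hgood' : ∀ c : Fin r → ℂ_[p], (∀ x, bev (RingHom.id ℂ_[p]) (φ t) x g = 0 →
      ∑ i, c i * L (bev (RingHom.id ℂ_[p]) (φ t) x ((U i).map (mapRingHom φ))) = 0) → c = 0 :=
    hgood
  clear hgood
  apply htbad
  intro K _ _ _ θ hθ hadj hdeg
  have hmon : ((f.map (evalRingHom t)).map (algebraMap (𝓞 k) k)).Monic := (hf.map _).map _
  have hnd : ((f.map (evalRingHom t)).map (algebraMap (𝓞 k) k)).natDegree = f.natDegree := by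
    rw [(hf.map _).natDegree_map, hf.natDegree_map]
  -- the root of the family in the ring of integers
  have hθint : IsIntegral ℤ θ := by
    have h1 : IsIntegral (𝓞 k) θ := by
      refine ⟨f.map (evalRingHom t), hf.map _, ?_⟩
      rw [aeval_def, eval₂_map] at hθ
      rw [IsScalarTower.algebraMap_eq (𝓞 k) k K]
      exact hθ
    exact isIntegral_trans θ h1
  set θ' : 𝓞 K := ⟨θ, hθint⟩ with hθ'
  set ψ : (𝓞 k)[X] →+* 𝓞 K := (algebraMap (𝓞 k) (𝓞 K)).comp (evalRingHom t) with hψ
  have hψ0 : eval₂ ψ θ' f = 0 := by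
    apply FaithfulSMul.algebraMap_injective (𝓞 K) K
    rw [map_zero, hom_eval₂]
    rw [aeval_def, eval₂_map, eval₂_map] at hθ
    exact hθ
  set Ψ : AdjoinRoot f →+* 𝓞 K := AdjoinRoot.lift ψ θ' hψ0 with hΨ
  set w : Fin r → (𝓞 K)ˣ := fun i => Units.map (Ψ : AdjoinRoot f →* 𝓞 K) (u i) with hw
  have hwval : ∀ i, ((w i : 𝓞 K)) = eval₂ ψ θ' (U i) := by
    intro i
    change Ψ (u i : AdjoinRoot f) = _
    rw [← hU i, hΨ, AdjoinRoot.lift_mk]
  have hind : ∀ c : Fin r → ℂ_[p],
      (∀ σ : K →+* ℂ_[p], ∑ i, c i * L (σ ((w i : 𝓞 K) : K)) = 0) → c = 0 := by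
    intro c hc
    apply hgood'
    intro x hx
    have hroot : (((f.map (evalRingHom t)).map (algebraMap (𝓞 k) k)).map τ).eval x = 0 := by
      have h1 : bev (RingHom.id ℂ_[p]) (φ t) x (f.map (mapRingHom φ)) = 0 := hx
      rw [bev_map, bev_apply] at h1
      rw [Polynomial.map_map, Polynomial.map_map]
      have h2 : (τ.comp (algebraMap (𝓞 k) k)).comp (evalRingHom t) =
          eval₂RingHom ((RingHom.id ℂ_[p]).comp φ) (φ t) := by
        apply Polynomial.ringHom_ext
        · intro a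
          simp [hφ]
        · simp [hφ]
      rw [h2]
      exact h1
    obtain ⟨σ, hσ1, hσ2⟩ := exists_emb τ θ _ hmon hθ hadj (by rw [hnd, hdeg]) x hroot
    rw [← hc σ]
    refine Finset.sum_congr rfl fun i _ => ?_
    congr 2
    rw [bev_map]
    have h1 : σ ((w i : 𝓞 K) : K) = (σ.comp (algebraMap (𝓞 K) K)) (eval₂ ψ θ' (U i)) := by
      rw [← hwval]
      rfl
    rw [h1, hom_eval₂]
    have h2 : (σ.comp (algebraMap (𝓞 K) K)) θ' = x := hσ2
    rw [h2, bev, coe_eval₂RingHom]
    congr 1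
    apply Polynomial.ringHom_ext
    · intro a
      rw [coe_eval₂RingHom, eval₂_C, RingHom.id_comp, hφ, RingHom.comp_apply]
      have h3 : σ ((algebraMap k K) ((algebraMap (𝓞 k) k) a)) = τ ((algebraMap (𝓞 k) k) a) :=
        congrArg (fun χ : k →+* ℂ_[p] => χ ((algebraMap (𝓞 k) k) a)) hσ1
      rw [← h3, hψ]
      simp only [RingHom.comp_apply, coe_evalRingHom, eval_C]
      rfl
    · rw [coe_eval₂RingHom, eval₂_X, hφ, RingHom.comp_apply]
      have h3 : σ ((algebraMap k K) ((algebraMap (𝓞 k) k) t)) = τ ((algebraMap (𝓞 k) k) t) :=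
        congrArg (fun χ : k →+* ℂ_[p] => χ ((algebraMap (𝓞 k) k) t)) hσ1
      rw [← h3, hψ]
      simp only [RingHom.comp_apply, coe_evalRingHom, eval_X]
      rfl
  exact ⟨padicRankGE_of K p L hL r w hind, fun hrank =>
    Pool.Agent.W253.LF.t_CRIT K p L hL r w hrank hind⟩

end Pool.Agent.W5h21.LP
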