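import Mathlib

/-!
# Leopoldt's conjecture in parametrised families: closed null sets of `p`-adic points
-/

set_option autoImplicit false

set_option linter.deprecated false

namespace Pool.Agent.W5h21.LP

open MeasureTheory Filter Topology Measure

section

variable (p : ℕ) [hp : Fact p.Prime]

theorem toZModPow_eq_iff (N : ℕ) (x y : ℤ_[p]) :
    PadicInt.toZModPow N x = PadicInt.toZModPow N y ↔ ‖x - y‖ ≤ (p : ℝ) ^ (-(N : ℤ)) := by
  rw [PadicInt.norm_le_pow_iff_mem_span_pow, ← PadicInt.ker_toZModPow, RingHom.mem_ker, map_sub,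
    sub_eq_zero]

/-- the residue class modulo `p ^ N` -/
noncomputable def res (s N : ℕ) : (Fin s → ℤ_[p]) →+ (Fin s → ZMod (p ^ N)) :=
  AddMonoidHom.pi fun i => (PadicInt.toZModPow N : ℤ_[p] →+* ZMod (p ^ N)).toAddMonoidHom.comp
    (Pi.evalAddMonoidHom (fun _ : Fin s => ℤ_[p]) i)

theorem res_apply (s N : ℕ) (b : Fin s → ℤ_[p]) (i : Fin s) :
    res p s N b i = PadicInt.toZModPow N (b i) := rfl

theorem res_surj (s N : ℕ) : Function.Surjective (res p s N) := by
  intro c
  have h : ∀ i, ∃ x : ℤ_[p], PadicInt.toZModPow N x = c i := fun i =>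
    ZMod.ringHom_surjective (PadicInt.toZModPow N) (c i)
  choose x hx using h
  exact ⟨x, funext hx⟩

theorem isOpen_fib (s N : ℕ) (c : Fin s → ZMod (p ^ N)) : IsOpen {b | res p s N b = c} := by
  rw [Metric.isOpen_iff]
  intro b hb
  refine ⟨(p : ℝ) ^ (-(N : ℤ)), zpow_pos (by exact_mod_cast hp.out.pos) _, ?_⟩
  intro b' hb'
  rw [Metric.mem_ball] at hb'
  rw [Set.mem_setOf_eq] at hb ⊢
  rw [← hb]
  funext i
  rw [res_apply, res_apply, toZModPow_eq_iff, ← dist_eq_norm]
  exact ((dist_le_pi_dist b' b i).trans hb'.le)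

instance : (𝓝[≠] (0 : ℤ_[p])).NeBot := by
  rw [mem_closure_iff_nhdsWithin_neBot.symm, Metric.mem_closure_iff]
  intro ε hε
  have hp1 : (1 : ℝ) < p := by exact_mod_cast hp.out.one_lt
  obtain ⟨n, hn⟩ := exists_pow_lt_of_lt_one hε (inv_lt_one_of_one_lt₀ hp1)
  refine ⟨(p : ℤ_[p]) ^ n, ?_, ?_⟩
  · intro h
    have h2 : (p : ℤ_[p]) ≠ 0 := by exact_mod_cast hp.out.ne_zero
    exact pow_ne_zero n h2 h
  · rw [dist_zero_left, PadicInt.norm_p_pow, zpow_neg, zpow_natCast, ← inv_pow]
    exact hn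

theorem not_countable_padicInt : ¬ (Set.univ : Set ℤ_[p]).Countable := by
  intro h
  let _ : MeasurableSpace ℤ_[p] := borel _
  have : BorelSpace ℤ_[p] := ⟨rfl⟩
  have h1 : (addHaar : Measure ℤ_[p]) Set.univ = 0 := h.measure_zero _
  exact (isOpen_univ.measure_pos (addHaar : Measure ℤ_[p]) Set.univ_nonempty).ne' h1

/-- A closed set with finite sections in some direction meets few residue classes. -/
theorem exists_few (s : ℕ) (Z : Set (Fin s → ℤ_[p])) (hZ : IsClosed Z) (v : Fin s → ℤ_[p])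
    (hfin : ∀ b, {x : ℤ_[p] | b + x • v ∈ Z}.Finite) (ε : ℝ) (hε : 0 < ε) :
    ∃ N : ℕ, (((res p s N) '' Z).ncard : ℝ) ≤ ε * ((p ^ N : ℕ) : ℝ) ^ s := by
  classical
  let _ : MeasurableSpace ℤ_[p] := borel _
  have : BorelSpace ℤ_[p] := ⟨rfl⟩
  have : SecondCountableTopology ℤ_[p] := inferInstance
  have : BorelSpace (Fin s → ℤ_[p]) := inferInstance
  set ν : Measure ℤ_[p] := addHaar with hν
  set μ : Measure (Fin s → ℤ_[p]) := addHaar with hμ
  have hμf : IsFiniteMeasure μ := inferInstance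
  have hνf : IsFiniteMeasure ν := inferInstance
  have hM0 : μ Set.univ ≠ 0 := (isOpen_univ.measure_pos μ Set.univ_nonempty).ne'
  have hMt : μ Set.univ ≠ ⊤ := measure_ne_top μ _
  -- the set is null
  have hnull : μ Z = 0 := by
    have hcl : IsClosed {q : ℤ_[p] × (Fin s → ℤ_[p]) | q.2 + q.1 • v ∈ Z} :=
      hZ.preimage (by fun_prop)
    have hm : MeasurableSet {q : ℤ_[p] × (Fin s → ℤ_[p]) | q.2 + q.1 • v ∈ Z} := hcl.measurableSet
    have h1 : (ν.prod μ) {q : ℤ_[p] × (Fin s → ℤ_[p]) | q.2 + q.1 • v ∈ Z} = μ Z * ν Set.univ := by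
      rw [prod_apply hm, ← lintegral_const]
      apply lintegral_congr
      intro x
      exact measure_preimage_add_right μ (x • v) Z
    have h2 : (ν.prod μ) {q : ℤ_[p] × (Fin s → ℤ_[p]) | q.2 + q.1 • v ∈ Z} = 0 := by
      rw [prod_apply_symm hm, lintegral_eq_zero_iff' ]
      · apply Eventually.of_forall
        intro b
        exact (hfin b).measure_zero ν
      · exact (measurable_measure_prodMk_right hm).aemeasurable
    rw [h1] at h2
    rcases mul_eq_zero.1 h2 with h | h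
    · exact h
    · exact absurd h (isOpen_univ.measure_pos ν Set.univ_nonempty).ne'
  -- fibres
  have hfm : ∀ N c, MeasurableSet {b | res p s N b = c} := fun N c =>
    (isOpen_fib p s N c).measurableSet
  have hfc : ∀ N c, μ {b | res p s N b = c} = μ {b | res p s N b = 0} := by
    intro N c
    obtain ⟨b₀, hb₀⟩ := res_surj p s N c
    rw [← measure_preimage_add_right μ b₀ {b | res p s N b = c}]
    congr 1
    ext b
    simp only [Set.mem_preimage, Set.mem_setOf_eq, map_add, hb₀]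
    constructor
    · intro h
      exact add_eq_right.1 h
    · intro h
      rw [h, zero_add]
  have hne : ∀ N, NeZero (p ^ N) := fun N => ⟨pow_ne_zero N hp.out.ne_zero⟩
  have hcov : ∀ N (C : Finset (Fin s → ZMod (p ^ N))),
      μ {b | res p s N b ∈ C} = C.card * μ {b | res p s N b = 0} := by
    intro N C
    have h1 : {b | res p s N b ∈ C} = ⋃ c ∈ C, {b | res p s N b = c} := by
      ext b
      simp
    rw [h1, measure_biUnion_finset]
    · rw [Finset.sum_congr rfl fun c _ => hfc N c, Finset.sum_const, nsmul_eq_mul]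
    · intro c _ c' _ hcc
      rw [Function.onFun, Set.disjoint_left]
      intro b hb hb'
      exact hcc (hb.symm.trans hb')
    · exact fun c _ => hfm N c
  -- the neighbourhoods
  let U : ℕ → Set (Fin s → ℤ_[p]) := fun N => {b | res p s N b ∈ (res p s N) '' Z}
  have hUm : ∀ N, MeasurableSet (U N) := by
    intro N
    have := hne N
    have : U N = {b | res p s N b ∈ ((res p s N) '' Z).toFinset} := by
      ext b
      simp [U]
    rw [this]
    have h1 : {b | res p s N b ∈ ((res p s N) '' Z).toFinset} =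
        ⋃ c ∈ ((res p s N) '' Z).toFinset, {b | res p s N b = c} := by
      ext b
      rw [Set.mem_iUnion₂]
      exact ⟨fun h => ⟨_, h, rfl⟩, fun ⟨c, hc, hbc⟩ => by
        have h5 : res p s N b = c := hbc
        rw [Set.mem_setOf_eq, h5]
        exact hc⟩
    rw [h1]
    exact Finset.measurableSet_biUnion _ fun c _ => hfm N c
  have hanti : Antitone U := by
    intro M N hMN b hb
    obtain ⟨z, hz, hzb⟩ := hb
    refine ⟨z, hz, ?_⟩
    funext i
    have h1 := congrFun hzb i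
    rw [res_apply, res_apply] at h1 ⊢
    rw [toZModPow_eq_iff] at h1 ⊢
    refine h1.trans ?_
    apply zpow_le_zpow_right₀ (by exact_mod_cast hp.out.one_le)
    omega
  have hint : ⋂ N, U N = Z := by
    ext b
    constructor
    · intro hb
      rw [← hZ.closure_eq, Metric.mem_closure_iff]
      intro δ hδ
      have hp1 : (1 : ℝ) < p := by exact_mod_cast hp.out.one_lt
      obtain ⟨n, hn⟩ := exists_pow_lt_of_lt_one hδ (inv_lt_one_of_one_lt₀ hp1)
      obtain ⟨z, hz, hzb⟩ := Set.mem_iInter.1 hb n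
      refine ⟨z, hz, ?_⟩
      rw [dist_pi_lt_iff hδ]
      intro i
      have h1 := congrFun hzb.symm i
      rw [res_apply, res_apply, toZModPow_eq_iff, zpow_neg, zpow_natCast, ← inv_pow] at h1
      rw [dist_eq_norm]
      exact h1.trans_lt hn
    · intro hb
      exact Set.mem_iInter.2 fun N => ⟨b, hb, rfl⟩
  have hlim : Tendsto (fun N => μ (U N)) atTop (𝓝 0) := by
    have h1 := tendsto_measure_iInter_atTop (μ := μ) (s := U)
      (fun N => (hUm N).nullMeasurableSet) hanti ⟨0, measure_ne_top μ _⟩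
    rwa [hint, hnull] at h1
  have hpos : (0 : ENNReal) < ENNReal.ofReal ε * μ Set.univ :=
    ENNReal.mul_pos (by simpa using hε) hM0
  obtain ⟨N, hN⟩ := (hlim.eventually (gt_mem_nhds hpos)).exists
  refine ⟨N, ?_⟩
  have := hne N
  have h1 : μ (U N) = (((res p s N) '' Z).ncard : ENNReal) * μ {b | res p s N b = 0} := by
    have h2 := hcov N (((res p s N) '' Z).toFinset)
    have h3 : {b | res p s N b ∈ ((res p s N) '' Z).toFinset} = U N := by
      ext b
      simp [U]
    rw [h3] at h2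
    rw [h2, Set.ncard_eq_toFinset_card']
  have h2 : μ Set.univ = (((p ^ N : ℕ) : ENNReal)) ^ s * μ {b | res p s N b = 0} := by
    have h3 := hcov N Finset.univ
    simp only [Finset.mem_univ, Set.setOf_true, Finset.card_univ, Fintype.card_pi, ZMod.card,
      Finset.prod_const, Fintype.card_fin] at h3
    rw [h3]
    push_cast
    rfl
  set m := μ {b | res p s N b = 0} with hm
  have hm0 : m ≠ 0 := by
    intro h
    rw [h, mul_zero] at h2
    exact hM0 h2
  have hmt : m ≠ ⊤ := measure_ne_top μ _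
  rw [h1, h2, ← mul_assoc] at hN
  have h4 : (((res p s N) '' Z).ncard : ENNReal) < ENNReal.ofReal ε * (((p ^ N : ℕ) : ENNReal)) ^ s :=
    lt_of_mul_lt_mul_right' hN
  have h5 := ENNReal.toReal_mono (by
    apply ENNReal.mul_ne_top ENNReal.ofReal_ne_top
    exact ENNReal.pow_ne_top (ENNReal.natCast_ne_top _)) h4.le
  rw [ENNReal.toReal_natCast, ENNReal.toReal_mul, ENNReal.toReal_ofReal hε.le, ENNReal.toReal_pow,
    ENNReal.toReal_natCast] at h5
  exact h5

/-- The integral points of a closed set with finite sections in some direction have Banach density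
zero. -/
theorem box_few (s : ℕ) (Z : Set (Fin s → ℤ_[p])) (hZ : IsClosed Z) (v : Fin s → ℤ_[p])
    (hfin : ∀ b, {x : ℤ_[p] | b + x • v ∈ Z}.Finite) (T : Set (Fin s → ℤ))
    (hT : ∀ t ∈ T, (fun i => ((t i : ℤ) : ℤ_[p])) ∈ Z) (ε : ℝ) (hε : 0 < ε) :
    ∃ B₀ : ℕ, ∀ B : ℕ, B₀ ≤ B → ∀ a : Fin s → ℤ,
      (({t : Fin s → ℤ | ∀ i, a i ≤ t i ∧ t i < a i + B} ∩ T).ncard : ℝ) ≤ ε * (B : ℝ) ^ s := by
  classical
  obtain ⟨N, hN⟩ := exists_few p s Z hZ v hfin (ε / 2 ^ s) (by positivity)
  set P : ℕ := p ^ N with hP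
  have hP0 : 0 < P := pow_pos hp.out.pos N
  have hne : NeZero (p ^ N) := ⟨hP0.ne'⟩
  refine ⟨P, fun B hB a => ?_⟩
  let F : (Fin s → ℤ) → (Fin s → ZMod (p ^ N)) × (Fin s → ℕ) := fun t =>
    (res p s N (fun i => ((t i : ℤ) : ℤ_[p])), fun i => (t i - a i).toNat / P)
  let C : Set (Fin s → ZMod (p ^ N)) := (res p s N) '' Z
  let Q : Set (Fin s → ℕ) := (Fintype.piFinset fun _ : Fin s => Finset.range (B / P + 1) : Finset _)
  have hCf : C.Finite := Set.toFinite C
  have hQf : Q.Finite := Finset.finite_toSet _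
  have hmaps : ∀ t ∈ ({t : Fin s → ℤ | ∀ i, a i ≤ t i ∧ t i < a i + B} ∩ T), F t ∈ C ×ˢ Q := by
    rintro t ⟨ht1, ht2⟩
    refine ⟨⟨_, hT t ht2, rfl⟩, ?_⟩
    change (F t).2 ∈ Q
    rw [Finset.mem_coe, Fintype.mem_piFinset]
    intro i
    rw [Finset.mem_range, Nat.lt_succ_iff]
    apply Nat.div_le_div_right
    have := ht1 i
    omega
  have hinj : Set.InjOn F ({t : Fin s → ℤ | ∀ i, a i ≤ t i ∧ t i < a i + B} ∩ T) := by
    rintro t ⟨ht1, -⟩ t' ⟨ht1', -⟩ h
    funext i
    have h1 := congrFun (congrArg Prod.fst h) i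
    have h2 := congrFun (congrArg Prod.snd h) i
    simp only [F, res_apply, map_intCast] at h1 h2
    obtain ⟨y, hy⟩ : ∃ y : ℕ, t i = a i + y := ⟨(t i - a i).toNat, by have := ht1 i; omega⟩
    obtain ⟨y', hy'⟩ : ∃ y' : ℕ, t' i = a i + y' := ⟨(t' i - a i).toNat, by have := ht1' i; omega⟩
    have h3 : (t i - a i).toNat = y := by omega
    have h4 : (t' i - a i).toNat = y' := by omega
    rw [h3, h4] at h2
    rw [hy, hy'] at h1
    push_cast at h1
    have h5 : ((y : ℕ) : ZMod (p ^ N)) = ((y' : ℕ) : ZMod (p ^ N)) := add_left_cancel h1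
    rw [ZMod.natCast_eq_natCast_iff] at h5
    have h6 : y % P = y' % P := h5
    have h7 : y = y' := by
      rw [← Nat.div_add_mod y P, ← Nat.div_add_mod y' P, h2, h6]
    rw [hy, hy', h7]
  have hcard := Set.ncard_le_ncard_of_injOn F hmaps hinj (hCf.prod hQf)
  rw [Set.ncard_prod] at hcard
  have hQc : Q.ncard = (B / P + 1) ^ s := by
    rw [Set.ncard_coe_finset, Fintype.card_piFinset]
    simp
  rw [hQc] at hcard
  have hB' : (1 : ℝ) ≤ (B : ℝ) / P := by
    rw [le_div_iff₀ (by exact_mod_cast hP0), one_mul]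
    exact_mod_cast hB
  have h8 : ((B / P + 1 : ℕ) : ℝ) ≤ 2 * ((B : ℝ) / P) := by
    push_cast
    have : ((B / P : ℕ) : ℝ) ≤ (B : ℝ) / P := Nat.cast_div_le
    linarith
  have hP0' : (0 : ℝ) < P := by exact_mod_cast hP0
  calc (({t : Fin s → ℤ | ∀ i, a i ≤ t i ∧ t i < a i + B} ∩ T).ncard : ℝ)
      ≤ ((C.ncard * (B / P + 1) ^ s : ℕ) : ℝ) := by exact_mod_cast hcard
    _ = (C.ncard : ℝ) * ((B / P + 1 : ℕ) : ℝ) ^ s := by push_cast; ring
    _ ≤ (ε / 2 ^ s * (P : ℝ) ^ s) * (2 * ((B : ℝ) / P)) ^ s := by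
        gcongr
    _ = ε * (B : ℝ) ^ s := by
        rw [mul_pow, div_pow]
        field_simp

end

end Pool.Agent.W5h21.LP
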