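import Pool.Agent.W5h21.LP.SepM
import Pool.Agent.W5h21.LP.Rk
import Pool.Agent.W254.LF.Glob
import Pool.Agent.W460.LF.Low

/-!
# Leopoldt's conjecture in parametrised families: from the logarithms to the number fields
-/

set_option autoImplicit false

namespace Pool.Agent.W5h21.LP

open Polynomial NumberField Filter Topology Pool.Agent.W289.SL Pool.Agent.W254.LF IntermediateField

theorem sep_pt {S k K : Type} [CommRing S] [Field k] [NumberField k] [Field K] [NumberField K]
    [Algebra k K] (f : S[X]) (hf : f.Monic) (e : S →+* 𝓞 k) (θ : K)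
    (hθ : aeval θ ((f.map e).map (algebraMap (𝓞 k) k)) = 0) (hadj : k⟮θ⟯ = ⊤)
    (hdeg : Module.finrank k K = f.natDegree) :
    ∃ (a b : S[X]) (D : S), D ≠ 0 ∧ a * f + b * derivative f = C D := by
  have hint : IsIntegral k θ := by
    have : FiniteDimensional k K := Module.Finite.of_restrictScalars_finite ℚ k K
    exact Algebra.IsIntegral.isIntegral θ
  have hmon : ((f.map e).map (algebraMap (𝓞 k) k)).Monic := (hf.map _).map _
  have hnd : ((f.map e).map (algebraMap (𝓞 k) k)).natDegree = f.natDegree := by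
    rw [(hf.map _).natDegree_map, hf.natDegree_map]
  have h1 : minpoly k θ ∣ (f.map e).map (algebraMap (𝓞 k) k) := minpoly.dvd k θ hθ
  have h2 : (minpoly k θ).natDegree = f.natDegree := by
    rw [← IntermediateField.adjoin.finrank hint, hadj, IntermediateField.finrank_top', hdeg]
  have h3 := Polynomial.eq_of_monic_of_dvd_of_natDegree_le (minpoly.monic hint) hmon h1
    (by rw [hnd, h2])
  have h4 : (minpoly k θ).Separable := (minpoly.irreducible hint).separable
  apply sep_gen ((algebraMap (𝓞 k) k).comp e) f hf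
  rw [← Polynomial.map_map, h3]
  exact h4

/-- From independent logarithms at the roots to the number field. -/
theorem pt (p : ℕ) [Fact p.Prime] (L : ℂ_[p] → ℂ_[p]) (hL : IsIwasawaLog p L)
    {S k : Type} [CommRing S] [Field k] [NumberField k] (τ : k →+* ℂ_[p]) (f : S[X])
    (hf : f.Monic) {r : ℕ} (u : Fin r → (AdjoinRoot f)ˣ) (U : Fin r → S[X])
    (hU : ∀ i, AdjoinRoot.mk f (U i) = (u i : AdjoinRoot f)) (e : S →+* 𝓞 k)
    (χ : S →+* ℂ_[p]) (hχ : χ = (τ.comp (algebraMap (𝓞 k) k)).comp e)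
    (hgood : ∀ c : Fin r → ℂ_[p], (∀ y, eval₂ χ y f = 0 →
      ∑ i, c i * L (eval₂ χ y (U i)) = 0) → c = 0)
    (K : Type) [Field K] [NumberField K] [Algebra k K] (θ : K)
    (hθ : aeval θ ((f.map e).map (algebraMap (𝓞 k) k)) = 0) (hadj : k⟮θ⟯ = ⊤)
    (hdeg : Module.finrank k K = f.natDegree) :
    PadicRankGE K p r ∧ (Units.rank K ≤ r → LeopoldtAt K p) ∧ r ≤ Units.rank K := by
  have hmon : ((f.map e).map (algebraMap (𝓞 k) k)).Monic := (hf.map _).map _
  have hnd : ((f.map e).map (algebraMap (𝓞 k) k)).natDegree = f.natDegree := by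
    rw [(hf.map _).natDegree_map, hf.natDegree_map]
  have hθint : IsIntegral ℤ θ := by
    have h1 : IsIntegral (𝓞 k) θ := by
      refine ⟨f.map e, hf.map _, ?_⟩
      rw [aeval_def, eval₂_map] at hθ
      rw [IsScalarTower.algebraMap_eq (𝓞 k) k K]
      exact hθ
    exact isIntegral_trans θ h1
  set θ' : 𝓞 K := ⟨θ, hθint⟩ with hθ'
  set ψ : S →+* 𝓞 K := (algebraMap (𝓞 k) (𝓞 K)).comp e with hψ
  have hψ0 : eval₂ ψ θ' f = 0 := by
    apply FaithfulSMul.algebraMap_injective (𝓞 K) K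
    rw [map_zero, hom_eval₂]
    rw [aeval_def, eval₂_map, eval₂_map] at hθ
    exact hθ
  set Ψ : AdjoinRoot f →+* 𝓞 K := AdjoinRoot.lift ψ θ' hψ0 with hΨ
  set w : Fin r → (𝓞 K)ˣ := fun i => Units.map (Ψ : AdjoinRoot f →* 𝓞 K) (u i) with hw
  have hwval : ∀ i, ((w i : 𝓞 K)) = eval₂ ψ θ' (U i) := by
    intro i
    change Ψ (u i : AdjoinRoot f) = _
    rw [← hU i, hΨ, AdjoinRoot.lift_mk]
  have hind : ∀ c : Fin r → ℂ_[p],
      (∀ σ : K →+* ℂ_[p], ∑ i, c i * L (σ ((w i : 𝓞 K) : K)) = 0) → c = 0 := by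
    intro c hc
    apply hgood
    intro x hx
    have hroot : (((f.map e).map (algebraMap (𝓞 k) k)).map τ).eval x = 0 := by
      rw [Polynomial.map_map, Polynomial.map_map, ← hχ, eval_map]
      exact hx
    obtain ⟨σ, hσ1, hσ2⟩ := exists_emb τ θ _ hmon hθ hadj (by rw [hnd, hdeg]) x hroot
    rw [← hc σ]
    refine Finset.sum_congr rfl fun i _ => ?_
    congr 2
    have h1 : σ ((w i : 𝓞 K) : K) = (σ.comp (algebraMap (𝓞 K) K)) (eval₂ ψ θ' (U i)) := by
      rw [← hwval]
      rfl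
    rw [h1, hom_eval₂]
    have h2 : (σ.comp (algebraMap (𝓞 K) K)) θ' = x := hσ2
    rw [h2]
    congr 1
    rw [hχ, ← hσ1]
    rfl
  exact ⟨padicRankGE_of K p L hL r w hind, fun hrank =>
    Pool.Agent.W253.LF.t_CRIT K p L hL r w hrank hind,
    Pool.Agent.W460.LF.t_LOW K p L hL r w hind⟩

end Pool.Agent.W5h21.LP
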