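import Pool.Agent.W5h21.LP.Clo
import Pool.Agent.W5h21.LP.Mea
import Pool.Agent.W5h21.LP.Pt
import Pool.Agent.W289.SL.LogEx

/-!
# Leopoldt's conjecture in families with several parameters: the global theorem
-/

set_option autoImplicit false

namespace Pool.Agent.W5h21.LP

open Polynomial NumberField Filter Topology Pool.Agent.W289.SL Pool.Agent.W254.LF IntermediateField

section

variable (p : ℕ) [hp : Fact p.Prime]

/-- `p`-adic integers as elements of `ℂ_p` -/
noncomputable def emb : ℤ_[p] →+* ℂ_[p] :=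
  (algebraMap ℚ_[p] ℂ_[p]).comp (PadicInt.subring p).subtype

theorem emb_inj : Function.Injective (emb p) :=
  (algebraMap ℚ_[p] ℂ_[p]).injective.comp Subtype.val_injective

theorem emb_cont : Continuous (emb p) :=
  (continuous_algebraMap ℚ_[p] ℂ_[p]).comp continuous_subtype_val

/-- The good points of a family form an open set of `p`-adic points, and there is a direction such
that every line in this direction contains only finitely many bad points. -/
theorem dens (L : ℂ_[p] → ℂ_[p]) (hL : IsIwasawaLog p L) {R : Type} [CommRing R] [IsDomain R]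
    [Countable R] {s : ℕ} (φ : R →+* ℂ_[p]) (hφ : Function.Injective φ)
    (f : (MvPolynomial (Fin s) R)[X]) (hf : f.Monic)
    (hs : ∃ (a b : (MvPolynomial (Fin s) R)[X]) (D : MvPolynomial (Fin s) R), D ≠ 0 ∧
      a * f + b * derivative f = C D)
    {r : ℕ} (u : Fin r → (AdjoinRoot f)ˣ)
    (hu : ∀ c : Fin r → ℤ, IsIntegral R ((∏ i, u i ^ c i : (AdjoinRoot f)ˣ) : AdjoinRoot f) →
      c = 0)
    (U : Fin r → (MvPolynomial (Fin s) R)[X])
    (hU : ∀ i, AdjoinRoot.mk f (U i) = (u i : AdjoinRoot f)) :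
    IsClosed {b : Fin s → ℤ_[p] | ¬ Good L φ f U (fun i => emb p (b i))} ∧
    ∃ v : Fin s → ℤ_[p], ∀ b : Fin s → ℤ_[p],
      {x : ℤ_[p] | b + x • v ∈
        {b : Fin s → ℤ_[p] | ¬ Good L φ f U (fun i => emb p (b i))}}.Finite := by
  have hrep : ∀ w : AdjoinRoot f, ∃ W, AdjoinRoot.mk f W = w := fun w =>
    AdjoinRoot.mk_surjective w
  choose V hV using fun i => hrep ((u i)⁻¹ : (AdjoinRoot f)ˣ)
  have hUV : ∀ i, f ∣ U i * V i - 1 := by
    intro i
    rw [← AdjoinRoot.mk_eq_zero, map_sub, map_mul, hU, hV, map_one, Units.mul_inv, sub_self]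
  constructor
  · have h1 := isOpen_good φ L hL f hf U V hUV
    have h2 : Continuous fun b : Fin s → ℤ_[p] => fun i => emb p (b i) :=
      continuous_pi fun i => (emb_cont p).comp (continuous_apply i)
    have h3 := (h1.preimage h2).isClosed_compl
    exact h3
  · have hY : ¬ (Set.range (emb p)).Countable := by
      intro h
      apply not_countable_padicInt p
      have h1 : ((emb p) ⁻¹' (Set.range (emb p))).Countable := h.preimage (emb_inj p)
      refine h1.mono fun x _ => ?_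
      rw [Set.mem_preimage]
      exact Set.mem_range_self x
    obtain ⟨v, hvY, hv⟩ := exists_gen φ hφ (Set.range (emb p)) hY s
    choose v' hv' using hvY
    refine ⟨v', fun b => ?_⟩
    by_contra hinf
    obtain ⟨x₀, hx₀⟩ := Set.Infinite.exists_accPt_principal hinf
    rw [accPt_iff_frequently_nhdsNE] at hx₀
    have h1 := line p L hL φ f hf hs u hu U V hU hUV v hv (fun i => emb p (b i)) (emb p x₀)
    have h2 : Tendsto (emb p) (𝓝[≠] x₀) (𝓝[≠] (emb p x₀)) := by
      apply tendsto_nhdsWithin_of_tendsto_nhds_of_eventually_within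
      · exact ((emb_cont p).tendsto x₀).mono_left nhdsWithin_le_nhds
      · filter_upwards [self_mem_nhdsWithin] with x hx h
        exact hx (emb_inj p h)
    obtain ⟨x, hx1, hx2⟩ := (hx₀.and_eventually (h2.eventually h1)).exists
    apply hx1
    convert hx2 using 2
    rename_i i
    rw [← hv' i, ← map_mul, ← map_add]
    congr 1
    simp [mul_comm]

end

/-- the main theorem -/
theorem mainM (p : ℕ) [Fact p.Prime] (k : Type) [Field k] [NumberField k] (s r : ℕ)
    (f : (MvPolynomial (Fin s) (𝓞 k))[X]) (hf : f.Monic) (u : Fin r → (AdjoinRoot f)ˣ)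
    (hu : ∀ c : Fin r → ℤ,
      IsIntegral (𝓞 k) ((∏ i, u i ^ c i : (AdjoinRoot f)ˣ) : AdjoinRoot f) → c = 0)
    (ε : ℝ) (hε : 0 < ε) :
    ∃ B₀ : ℕ, ∀ B : ℕ, B₀ ≤ B → ∀ a : Fin s → ℤ,
      (({t : Fin s → ℤ | ∀ i, a i ≤ t i ∧ t i < a i + B} ∩
        {t : Fin s → ℤ | ¬ ∀ (K : Type) [Field K] [NumberField K] [Algebra k K] (θ : K),
          aeval θ ((f.map (MvPolynomial.eval fun i => ((t i : ℤ) : 𝓞 k))).map
            (algebraMap (𝓞 k) k)) = 0 → k⟮θ⟯ = ⊤ → Module.finrank k K = f.natDegree →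
          PadicRankGE K p r ∧ (Units.rank K ≤ r → LeopoldtAt K p)}).ncard : ℝ) ≤
        ε * (B : ℝ) ^ s := by
  classical
  by_cases hs : ∃ (a b : (MvPolynomial (Fin s) (𝓞 k))[X]) (D : MvPolynomial (Fin s) (𝓞 k)),
      D ≠ 0 ∧ a * f + b * derivative f = C D
  swap
  · refine ⟨0, fun B _ a => ?_⟩
    have h1 : {t : Fin s → ℤ | ¬ ∀ (K : Type) [Field K] [NumberField K] [Algebra k K] (θ : K),
          aeval θ ((f.map (MvPolynomial.eval fun i => ((t i : ℤ) : 𝓞 k))).map
            (algebraMap (𝓞 k) k)) = 0 → k⟮θ⟯ = ⊤ → Module.finrank k K = f.natDegree →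
          PadicRankGE K p r ∧ (Units.rank K ≤ r → LeopoldtAt K p)} = ∅ := by
      rw [Set.eq_empty_iff_forall_notMem]
      intro t ht
      apply ht
      intro K _ _ _ θ hθ hadj hdeg
      exact absurd (sep_pt f hf (MvPolynomial.eval fun i => ((t i : ℤ) : 𝓞 k)) θ hθ hadj hdeg) hs
    rw [h1, Set.inter_empty, Set.ncard_empty, Nat.cast_zero]
    positivity
  obtain ⟨L, hL⟩ := exists_iwasawaLog p
  obtain ⟨τ⟩ : Nonempty (k →+* ℂ_[p]) :=
    ⟨((IsAlgClosed.lift : k →ₐ[ℚ] ℂ_[p]) : k →+* ℂ_[p])⟩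
  set φ : 𝓞 k →+* ℂ_[p] := τ.comp (algebraMap (𝓞 k) k) with hφ
  have hφi : Function.Injective φ :=
    τ.injective.comp (FaithfulSMul.algebraMap_injective (𝓞 k) k)
  have hcount : Countable (𝓞 k) :=
    (Module.Free.chooseBasis ℤ (𝓞 k)).equivFun.toEquiv.countable_iff.2 inferInstance
  choose U hU using fun i => AdjoinRoot.mk_surjective (u i : AdjoinRoot f)
  obtain ⟨hcl, v, hv⟩ := dens p L hL φ hφi f hf hs u hu U hU
  apply box_few p s _ hcl v hv _ _ ε hε
  intro t ht hgood
  apply ht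
  intro K _ _ _ θ hθ hadj hdeg
  have h1 := pt p L hL τ f hf u U hU (MvPolynomial.eval fun i => ((t i : ℤ) : 𝓞 k))
    (MvPolynomial.eval₂Hom φ (fun i => emb p ((t i : ℤ) : ℤ_[p]))) (by
      apply MvPolynomial.ringHom_ext
      · intro a
        simp [hφ]
      · intro i
        simp) hgood K θ hθ hadj hdeg
  exact ⟨h1.1, h1.2.1⟩

end Pool.Agent.W5h21.LP
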