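import Pool.Agent.W5h21.LP.Int

/-!
# Leopoldt's conjecture in parametrised families: orders at infinity, several parameters
-/

set_option autoImplicit false

namespace Pool.Agent.W5h21.LP

open Polynomial Pool.Agent.W239.LF

attribute [-instance] HahnSeries.powerSeriesAlgebra

section

variable {R S K : Type} [CommRing R] [CommRing S] [IsDomain S] [Algebra R S] [Field K]
  (χ : S →+* LaurentSeries K)

/-- An element of the ring of the family which is integral at all the points above infinity is
integral over the constants. -/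
theorem int_of2 (hχ : ∀ (h : S) (z : PowerSeries K), χ h = co K z → ∃ c : R, algebraMap R S c = h)
    (f : S[X]) (hf : f.Monic) (X' : Fin f.natDegree → LaurentSeries K)
    (hX : Function.Injective X') (hXe : ∀ j, eval₂ χ (X' j) f = 0) (a : AdjoinRoot f)
    (ha : ∀ j, ∃ y : PowerSeries K, co K y = AdjoinRoot.lift χ (X' j) (hXe j) a) :
    IsIntegral R a := by
  classical
  set pb := AdjoinRoot.powerBasis' hf with hpb
  let b : Module.Basis (Fin f.natDegree) S (AdjoinRoot f) := pb.basis
  have hb : ∀ k, b k = AdjoinRoot.root f ^ (k : ℕ) := fun k => pb.basis_eq_pow k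
  let Φ : Fin f.natDegree → AdjoinRoot f →+* LaurentSeries K := fun j =>
    AdjoinRoot.lift χ (X' j) (hXe j)
  set A := Algebra.leftMulMatrix b a with hA
  let V : Matrix (Fin f.natDegree) (Fin f.natDegree) (LaurentSeries K) := Matrix.vandermonde X'
  have hVdet : V.det ≠ 0 := Matrix.det_vandermonde_ne_zero_iff.2 hX
  have hVb : ∀ j k, V j k = Φ j (b k) := by
    intro j k
    rw [hb, map_pow]
    change X' j ^ (k : ℕ) = (AdjoinRoot.lift χ (X' j) (hXe j) (AdjoinRoot.root f)) ^ (k : ℕ)
    rw [AdjoinRoot.lift_root]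
  have hmul : V * A.map χ = Matrix.diagonal (fun j => Φ j a) * V := by
    ext1 j k
    rw [Matrix.diagonal_mul, Matrix.mul_apply]
    have h1 : a * b k = ∑ l, A l k • b l := by
      rw [← b.sum_repr (a * b k)]
      refine Finset.sum_congr rfl fun l _ => ?_
      rw [hA, Algebra.leftMulMatrix_eq_repr_mul]
    have h2 := congrArg (Φ j) h1
    rw [map_mul, map_sum] at h2
    rw [hVb, h2]
    refine Finset.sum_congr rfl fun l _ => ?_
    rw [Matrix.map_apply, hVb, Algebra.smul_def, map_mul, mul_comm]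
    congr 1
    change _ = AdjoinRoot.lift χ (X' j) (hXe j) (AdjoinRoot.of f (A l k))
    rw [AdjoinRoot.lift_of]
  have hchar : A.charpoly.map χ = ∏ j, (X - C (Φ j a)) := by
    rw [← Matrix.charpoly_map, ← Matrix.charpoly_diagonal]
    obtain ⟨W, hW⟩ : ∃ W : (Matrix (Fin f.natDegree) (Fin f.natDegree) (LaurentSeries K))ˣ,
        (W : Matrix _ _ _) = V := (Matrix.isUnit_iff_isUnit_det V).2 (isUnit_iff_ne_zero.2 hVdet)
    have h1 : Matrix.diagonal (fun j => Φ j a) =
        W.val * A.map χ * (W⁻¹).val := by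
      rw [hW, hmul, ← hW, mul_assoc, Units.mul_inv, mul_one]
    rw [h1, Matrix.coe_units_inv, Matrix.charpoly_units_conj]
  choose y hy using ha
  have hchar2 : A.charpoly.map χ = (∏ j, (X - C (y j))).map (co K) := by
    rw [hchar, Polynomial.map_prod]
    refine Finset.prod_congr rfl fun j _ => ?_
    rw [Polynomial.map_sub, map_X, map_C, hy j]
  have hconst : ∀ i, ∃ c : R, algebraMap R S c = A.charpoly.coeff i := by
    intro i
    apply hχ _ ((∏ j, (X - C (y j))).coeff i)
    have h1 := congrArg (fun q => q.coeff i) hchar2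
    simp only [coeff_map] at h1
    exact h1
  have hlift : A.charpoly ∈ Polynomial.lifts (algebraMap R S) := by
    rw [Polynomial.lifts_iff_coeff_lifts]
    exact hconst
  obtain ⟨χ₀, hχ₀, -, hmon⟩ := Polynomial.lifts_and_degree_eq_and_monic hlift A.charpoly_monic
  refine ⟨χ₀, hmon, ?_⟩
  have h1 : aeval a A.charpoly = 0 := by
    apply Algebra.leftMulMatrix_injective b
    rw [map_zero, ← aeval_algHom_apply, ← hA, Matrix.aeval_self_charpoly]
  rw [← hχ₀, aeval_def, eval₂_map] at h1
  have h2 : algebraMap R (AdjoinRoot f) = (algebraMap S (AdjoinRoot f)).comp (algebraMap R S) :=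
    IsScalarTower.algebraMap_eq R S (AdjoinRoot f)
  rw [h2]
  exact h1

/-- Units which are independent modulo constants have independent orders at infinity. -/
theorem minor_inf2
    (hχ : ∀ (h : S) (z : PowerSeries K), χ h = co K z → ∃ c : R, algebraMap R S c = h)
    (f : S[X]) (hf : f.Monic) (X' : Fin f.natDegree → LaurentSeries K)
    (hX : Function.Injective X') (hXe : ∀ j, eval₂ χ (X' j) f = 0) {r : ℕ}
    (u : Fin r → (AdjoinRoot f)ˣ)
    (hu : ∀ c : Fin r → ℤ, IsIntegral R (((∏ i, u i ^ c i : (AdjoinRoot f)ˣ)) : AdjoinRoot f) →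
      c = 0) :
    ∃ e : Fin r → Fin f.natDegree, (Matrix.of fun i j : Fin r =>
      (AdjoinRoot.lift χ (X' (e j)) (hXe (e j)) (u i : AdjoinRoot f)).order).det ≠ 0 := by
  apply int_minor (fun i j => (AdjoinRoot.lift χ (X' j) (hXe j) (u i : AdjoinRoot f)).order)
  intro c hc
  apply hu
  apply int_of2 χ hχ f hf X' hX hXe
  intro j
  apply exists_co
  let Φ : (AdjoinRoot f)ˣ →* (LaurentSeries K)ˣ :=
    Units.map (AdjoinRoot.lift χ (X' j) (hXe j) : AdjoinRoot f →* LaurentSeries K)
  have h2 : AdjoinRoot.lift χ (X' j) (hXe j)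
      ((∏ i, u i ^ c i : (AdjoinRoot f)ˣ) : AdjoinRoot f) =
      ((Φ (∏ i, u i ^ c i) : (LaurentSeries K)ˣ) : LaurentSeries K) := rfl
  rw [h2, ← ordH_apply, map_prod, map_prod]
  simp only [map_zpow]
  rw [toAdd_prod]
  have h3 : ∑ i, Multiplicative.toAdd (ordH K (Φ (u i)) ^ c i) = 0 := by
    rw [← hc j]
    refine Finset.sum_congr rfl fun i _ => ?_
    rw [toAdd_zpow, smul_eq_mul]
    rfl
  rw [h3]

end

end Pool.Agent.W5h21.LP
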