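import Pool.Agent.W5h21.LP.Loc
import Pool.Agent.W5h21.LP.Int2
import Pool.Agent.W5h21.LP.SepM
import Pool.Agent.W5h21.LP.Dir

/-!
# Leopoldt's conjecture in parametrised families: the exceptional points on a generic line
-/

set_option autoImplicit false

namespace Pool.Agent.W5h21.LP

open Polynomial Filter Topology Pool.Agent.W289.SL Pool.Agent.W254.LF Pool.Agent.W239.LF

attribute [-instance] HahnSeries.powerSeriesAlgebra

/-- the logarithms of the units `U_i` at the roots of the member `t` of the family `f` are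
independent -/
def Good {p : ℕ} [Fact p.Prime] (Lg : ℂ_[p] → ℂ_[p]) {R : Type} [CommRing R] {s : ℕ}
    (φ : R →+* ℂ_[p]) (f : (MvPolynomial (Fin s) R)[X]) {r : ℕ}
    (U : Fin r → (MvPolynomial (Fin s) R)[X]) (t : Fin s → ℂ_[p]) : Prop :=
  ∀ c : Fin r → ℂ_[p], (∀ y, eval₂ (MvPolynomial.eval₂Hom φ t) y f = 0 →
    ∑ i, c i * Lg (eval₂ (MvPolynomial.eval₂Hom φ t) y (U i)) = 0) → c = 0

theorem line (p : ℕ) [Fact p.Prime] (Lg : ℂ_[p] → ℂ_[p]) (hLg : IsIwasawaLog p Lg)
    {R : Type} [CommRing R] [IsDomain R] {s : ℕ} (φ : R →+* ℂ_[p])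
    (f : (MvPolynomial (Fin s) R)[X]) (hf : f.Monic)
    (hs : ∃ (a b : (MvPolynomial (Fin s) R)[X]) (D : MvPolynomial (Fin s) R), D ≠ 0 ∧
      a * f + b * derivative f = C D)
    {r : ℕ} (u : Fin r → (AdjoinRoot f)ˣ)
    (hu : ∀ c : Fin r → ℤ, IsIntegral R ((∏ i, u i ^ c i : (AdjoinRoot f)ˣ) : AdjoinRoot f) →
      c = 0)
    (U V : Fin r → (MvPolynomial (Fin s) R)[X])
    (hU : ∀ i, AdjoinRoot.mk f (U i) = (u i : AdjoinRoot f))
    (hUV : ∀ i, f ∣ U i * V i - 1) (v : Fin s → ℂ_[p]) (hv : Gen φ v) (b : Fin s → ℂ_[p])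
    (t₀ : ℂ_[p]) :
    ∀ᶠ x in 𝓝[≠] t₀, Good Lg φ f U (fun i => b i + v i * x) := by
  set g : ℂ_[p][X][X] := f.map (lin φ b v) with hg
  have hgm : g.Monic := hf.map _
  have hgd : g.natDegree = f.natDegree := hf.natDegree_map _
  have hgs : Sep g := by
    obtain ⟨a, c, D, hD, hab⟩ := hs
    refine ⟨a.map (lin φ b v), c.map (lin φ b v), lin φ b v D, lin_ne_zero φ b v hv D hD, ?_⟩
    have h1 := congrArg (Polynomial.map (lin φ b v)) hab
    rw [Polynomial.map_add, Polynomial.map_mul, Polynomial.map_mul, map_C,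
      ← Polynomial.derivative_map] at h1
    exact h1
  obtain ⟨M', hM', X', hX, hXe⟩ := exists_inf g hgm hgs
  set χ : MvPolynomial (Fin s) R →+* LaurentSeries ℂ_[p] :=
    (iot (RingHom.id ℂ_[p]) M').comp (lin φ b v) with hχ
  have hiot : iot (RingHom.id ℂ_[p]) M' = eval₂RingHom (algebraMap ℂ_[p] (LaurentSeries ℂ_[p]))
      (HahnSeries.single (-(M' : ℤ)) (1 : ℂ_[p])) := by
    rw [iot, RingHom.comp_id]
  have hbevL : ∀ (x : LaurentSeries ℂ_[p]) (q : (MvPolynomial (Fin s) R)[X]),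
      bev (algebraMap ℂ_[p] (LaurentSeries ℂ_[p])) (HahnSeries.single (-(M' : ℤ)) (1 : ℂ_[p])) x
        (q.map (lin φ b v)) = eval₂ χ x q := by
    intro x q
    rw [bev_apply, Polynomial.map_map, eval_map, ← hiot]
  have hbev : ∀ (x y : ℂ_[p]) (q : (MvPolynomial (Fin s) R)[X]),
      bev (RingHom.id ℂ_[p]) x y (q.map (lin φ b v)) =
        eval₂ (MvPolynomial.eval₂Hom φ (fun i => b i + v i * x)) y q := by
    intro x y q
    rw [bev_apply, Polynomial.map_map, eval_map, ← lin_eval]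
    rfl
  have hχc : ∀ (h : MvPolynomial (Fin s) R) (z : PowerSeries ℂ_[p]), χ h = co ℂ_[p] z →
      ∃ c : R, algebraMap R (MvPolynomial (Fin s) R) c = h := by
    intro h z hz
    have h1 := const_of_int (RingHom.id ℂ_[p]) Function.injective_id M' hM' (lin φ b v h) z hz
    exact lin_const φ b v hv h h1
  let X'' : Fin f.natDegree → LaurentSeries ℂ_[p] := fun j => X' (finCongr hgd.symm j)
  have hX'' : Function.Injective X'' := hX.comp (finCongr hgd.symm).injective
  have hXe'' : ∀ j, eval₂ χ (X'' j) f = 0 := by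
    intro j
    rw [← hbevL]
    exact hXe (finCongr hgd.symm j)
  obtain ⟨e, he⟩ := minor_inf2 χ hχc f hf X'' hX'' hXe'' u hu
  have hdet : (Matrix.of fun i j : Fin r => (bev (algebraMap ℂ_[p] (LaurentSeries ℂ_[p]))
      (HahnSeries.single (-(M' : ℤ)) (1 : ℂ_[p])) (X' (finCongr hgd.symm (e j)))
      ((U i).map (lin φ b v))).order).det ≠ 0 := by
    have h1 : (Matrix.of fun i j : Fin r => (bev (algebraMap ℂ_[p] (LaurentSeries ℂ_[p]))
        (HahnSeries.single (-(M' : ℤ)) (1 : ℂ_[p])) (X' (finCongr hgd.symm (e j)))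
        ((U i).map (lin φ b v))).order) = Matrix.of fun i j : Fin r =>
      (AdjoinRoot.lift χ (X'' (e j)) (hXe'' (e j)) (u i : AdjoinRoot f)).order := by
      ext i j
      rw [Matrix.of_apply, Matrix.of_apply, ← hU i, AdjoinRoot.lift_mk, hbevL]
    rw [h1]
    exact he
  have hUV' : ∀ i, g ∣ (U i).map (lin φ b v) * (V i).map (lin φ b v) - 1 := by
    intro i
    have h2 := Polynomial.map_dvd (lin φ b v) (hUV i)
    rwa [Polynomial.map_sub, Polynomial.map_mul, Polynomial.map_one] at h2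
  have hloc := loc p Lg hLg g hgm hgs r (fun i => (U i).map (lin φ b v))
    (fun i => (V i).map (lin φ b v)) hUV' M' hM' X' hX hXe (fun j => finCongr hgd.symm (e j))
    hdet t₀
  filter_upwards [hloc] with x hx c hc
  apply hx
  intro y hy
  rw [hg, hbev] at hy
  have h1 := hc y hy
  rw [← h1]
  refine Finset.sum_congr rfl fun i _ => ?_
  rw [hbev]

end Pool.Agent.W5h21.LP
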