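import Pool.Agent.W5h21.LP.Pui

/-!
# Leopoldt's conjecture in parametrised families: the embedding of the splitting field in a place
-/

set_option autoImplicit false

namespace Pool.Agent.W5h21.LP

open Polynomial Pool.Agent.W605.LF

/-- the derivative of the value of a polynomial in two variables -/
theorem exists_dt {S : Type} [Field S] (g : S[X][X]) : ∃ h : S[X][X], ∀ (E : Type) [Field E]
    [Algebra S E] (D : Derivation S E E) (t x : E), D t = 1 →
    D (bev (algebraMap S E) t x g) =
      bev (algebraMap S E) t x h + bev (algebraMap S E) t x (derivative g) * D x := by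
  induction g using Polynomial.induction_on' with
  | add p q hp hq =>
    obtain ⟨h1, h1'⟩ := hp
    obtain ⟨h2, h2'⟩ := hq
    refine ⟨h1 + h2, fun E _ _ D t x ht => ?_⟩
    rw [map_add, map_add, h1' E D t x ht, h2' E D t x ht, map_add, map_add, map_add]
    ring
  | monomial n a =>
    refine ⟨monomial n (derivative a), fun E _ _ D t x ht => ?_⟩
    have key : ∀ (m : ℕ) (b : S[X]), bev (algebraMap S E) t x (monomial m b) = aeval t b * x ^ m := by
      intro m b
      rw [← C_mul_X_pow_eq_monomial, map_mul, map_pow, bev_C, bev_X]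
      rfl
    rw [key, key, derivative_monomial, key, Derivation.leibniz, Derivation.leibniz_pow,
      D.map_aeval, ht, smul_eq_mul, smul_eq_mul, smul_eq_mul, smul_eq_mul, mul_one, map_mul,
      map_natCast, nsmul_eq_mul]
    ring

theorem plc (S E L : Type) [Field S] [CharZero S] [Field E] [Algebra S E] [Field L] [Algebra S L]
    (DE : Derivation S E E) (DL : Derivation S L L) (tE : E) (tL : L) (hE : DE tE = 1)
    (hL : DL tL = 1) (g : S[X][X]) (hg : g.Monic) (hs : Sep g) (x : Fin g.natDegree → E)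
    (X' : Fin g.natDegree → L) (hx : Function.Injective x) (hX : Function.Injective X')
    (hxe : ∀ j, bev (algebraMap S E) tE (x j) g = 0)
    (hXe : ∀ j, bev (algebraMap S L) tL (X' j) g = 0) :
    ∃ (F : IntermediateField S E) (DF : Derivation S F F) (ψ : F →ₐ[S] L) (tF : F)
      (xF : Fin g.natDegree → F) (σ : Equiv.Perm (Fin g.natDegree)),
      (∀ f : F, DE (f : E) = ((DF f : F) : E)) ∧ (tF : E) = tE ∧ (∀ j, (xF j : E) = x j) ∧
      (∀ f : F, ψ (DF f) = DL (ψ f)) ∧ ψ tF = tL ∧ (∀ j, ψ (xF j) = X' (σ j)) := by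
  obtain ⟨h, hh⟩ := exists_dt g
  let K := FractionRing S[X]
  let iE : K →ₐ[S] E := IsFractionRing.liftAlgHom (g := aeval tE) (aeval_inj DE tE hE)
  let iL : K →ₐ[S] L := IsFractionRing.liftAlgHom (g := aeval tL) (aeval_inj DL tL hL)
  have hiE : ∀ f : S[X], iE (algebraMap S[X] K f) = aeval tE f := fun f =>
    IsFractionRing.lift_algebraMap (aeval_inj DE tE hE) f
  have hiL : ∀ f : S[X], iL (algebraMap S[X] K f) = aeval tL f := fun f =>
    IsFractionRing.lift_algebraMap (aeval_inj DL tL hL) f
  let _ : Algebra K E := iE.toRingHom.toAlgebra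
  let _ : Algebra K L := iL.toRingHom.toAlgebra
  have aE : ∀ z : K, algebraMap K E z = iE z := fun _ => rfl
  have aL : ∀ z : K, algebraMap K L z = iL z := fun _ => rfl
  have : IsScalarTower S K E := IsScalarTower.of_algebraMap_eq fun c => (iE.commutes c).symm
  have : IsScalarTower S K L := IsScalarTower.of_algebraMap_eq fun c => (iL.commutes c).symm
  -- the constants
  have base : ∀ z : K, ∃ z' : K, DE (algebraMap K E z) = algebraMap K E z' ∧
      DL (algebraMap K L z) = algebraMap K L z' := by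
    intro z
    obtain ⟨a, b, hb, rfl⟩ := IsFractionRing.div_surjective S[X] z
    have dE : ∀ f : S[X], DE (aeval tE f) = aeval tE (derivative f) := by
      intro f; rw [DE.map_aeval, hE, smul_eq_mul, mul_one]
    have dL : ∀ f : S[X], DL (aeval tL f) = aeval tL (derivative f) := by
      intro f; rw [DL.map_aeval, hL, smul_eq_mul, mul_one]
    refine ⟨(algebraMap S[X] K b)⁻¹ ^ 2 * (algebraMap S[X] K b * algebraMap S[X] K (derivative a) -
      algebraMap S[X] K a * algebraMap S[X] K (derivative b)), ?_, ?_⟩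
    · simp only [aE, map_div₀, hiE, Derivation.leibniz_div, dE, smul_eq_mul, map_mul, map_sub,
        map_pow, map_inv₀]
    · simp only [aL, map_div₀, hiL, Derivation.leibniz_div, dL, smul_eq_mul, map_mul, map_sub,
        map_pow, map_inv₀]
  -- the polynomial
  let T : K := algebraMap S[X] K X
  have hTE : algebraMap K E T = tE := by rw [aE, hiE, aeval_X]
  have hTL : algebraMap K L T = tL := by rw [aL, hiL, aeval_X]
  let Q : K[X] := g.map (algebraMap S[X] K)
  have hQm : Q.Monic := hg.map _
  have hQd : Q.natDegree = g.natDegree := hg.natDegree_map _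
  have evE : ∀ y : E, aeval y Q = bev (algebraMap S E) tE y g := by
    intro y
    rw [bev_apply, eval_map, aeval_def, eval₂_map]
    have h1 : (algebraMap K E).comp (algebraMap S[X] K) = eval₂RingHom (algebraMap S E) tE :=
      RingHom.ext hiE
    rw [h1]
  have evL : ∀ y : L, aeval y Q = bev (algebraMap S L) tL y g := by
    intro y
    rw [bev_apply, eval_map, aeval_def, eval₂_map]
    have h1 : (algebraMap K L).comp (algebraMap S[X] K) = eval₂RingHom (algebraMap S L) tL :=
      RingHom.ext hiL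
    rw [h1]
  have hQL : Q.map (algebraMap K L) = ∏ j, (X - Polynomial.C (X' j)) := by
    apply eq_prod_of_roots _ (hQm.map _) (by rw [hQm.natDegree_map, hQd]) X' hX
    intro j
    rw [eval_map_algebraMap, evL, hXe]
  have hQLs : (Q.map (algebraMap K L)).Splits := by
    rw [hQL]
    exact Splits.prod fun j _ => Splits.X_sub_C _
  have hint : ∀ s ∈ Set.range x, IsIntegral K s ∧ ((minpoly K s).map (algebraMap K L)).Splits := by
    rintro _ ⟨j, rfl⟩
    have h0 : aeval (x j) Q = 0 := by rw [evE, hxe]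
    refine ⟨⟨Q, hQm, by rwa [← aeval_def]⟩, ?_⟩
    exact hQLs.of_dvd (hQm.map _).ne_zero (Polynomial.map_dvd _ (minpoly.dvd K _ h0))
  obtain ⟨ψ⟩ := IntermediateField.nonempty_algHom_adjoin_of_splits hint
  set F0 := IntermediateField.adjoin K (Set.range x) with hF0
  have hxm : ∀ j, x j ∈ F0 := fun j => IntermediateField.subset_adjoin K _ ⟨j, rfl⟩
  -- images of the roots
  have hroot : ∀ j, ∃ k, ψ ⟨x j, hxm j⟩ = X' k := by
    intro j
    have h0 : aeval (ψ ⟨x j, hxm j⟩) Q = 0 := by
      rw [aeval_algHom_apply]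
      have h1 : aeval (⟨x j, hxm j⟩ : F0) Q = 0 := by
        apply (algebraMap F0 E).injective
        rw [map_zero, ← aeval_algebraMap_apply]
        change aeval (x j) Q = 0
        rw [evE, hxe]
      rw [h1, map_zero]
    rw [← eval_map_algebraMap, hQL, eval_prod, Finset.prod_eq_zero_iff] at h0
    obtain ⟨k, _, hk⟩ := h0
    exact ⟨k, by simpa [sub_eq_zero] using hk⟩
  choose σ hσ using hroot
  have hσi : Function.Injective σ := by
    intro i j hij
    have h1 : ψ ⟨x i, hxm i⟩ = ψ ⟨x j, hxm j⟩ := by rw [hσ, hσ, hij]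
    have h2 := ψ.toRingHom.injective h1
    exact hx (congrArg Subtype.val h2)
  -- values of polynomials in two variables
  have hSF : ∀ c : S, algebraMap S F0 c = algebraMap K F0 (algebraMap S K c) := fun c =>
    IsScalarTower.algebraMap_apply S K F0 c
  have hvE : ∀ (y : F0) (q : S[X][X]),
      F0.val (bev (algebraMap S F0) (algebraMap K F0 T) y q) = bev (algebraMap S E) tE (y : E) q := by
    intro y q
    have h1 := bev_hom (algebraMap S F0) (F0.val : F0 →+* E) (algebraMap K F0 T) y q
    have h2 : ((F0.val : F0 →+* E).comp (algebraMap S F0)) = algebraMap S E := by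
      ext1 c
      rw [RingHom.comp_apply, hSF]
      exact (IsScalarTower.algebraMap_apply S K E c).symm
    have h3 : (F0.val : F0 →+* E) (algebraMap K F0 T) = tE := hTE
    rw [h2, h3] at h1
    exact h1
  have hvL : ∀ (y : F0) (q : S[X][X]),
      ψ (bev (algebraMap S F0) (algebraMap K F0 T) y q) = bev (algebraMap S L) tL (ψ y) q := by
    intro y q
    have h1 := bev_hom (algebraMap S F0) (ψ : F0 →+* L) (algebraMap K F0 T) y q
    have h2 : ((ψ : F0 →+* L).comp (algebraMap S F0)) = algebraMap S L := by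
      ext1 c
      have e1 := ψ.commutes (algebraMap S K c)
      have e2 : algebraMap K L (algebraMap S K c) = algebraMap S L c :=
        (IsScalarTower.algebraMap_apply S K L c).symm
      rw [e2] at e1
      rw [RingHom.comp_apply, hSF]
      exact e1
    have h3 : (ψ : F0 →+* L) (algebraMap K F0 T) = tL := by
      have e1 := ψ.commutes T
      exact e1.trans hTL
    rw [h2, h3] at h1
    exact h1
  -- the roots are simple
  have hsE : ∀ j, bev (algebraMap S E) tE (x j) (derivative g) ≠ 0 := by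
    obtain ⟨a, b, D, hD, hab⟩ := hs
    intro j h0
    have h1 := congrArg (bev (algebraMap S E) tE (x j)) hab
    rw [map_add, map_mul, map_mul, hxe, h0, mul_zero, mul_zero, add_zero, bev_C] at h1
    exact hD (aeval_inj DE tE hE (by rw [map_zero]; exact h1.symm))
  have hsL : ∀ j, bev (algebraMap S L) tL (X' j) (derivative g) ≠ 0 := by
    obtain ⟨a, b, D, hD, hab⟩ := hs
    intro j h0
    have h1 := congrArg (bev (algebraMap S L) tL (X' j)) hab
    rw [map_add, map_mul, map_mul, hXe, h0, mul_zero, mul_zero, add_zero, bev_C] at h1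
    exact hD (aeval_inj DL tL hL (by rw [map_zero]; exact h1.symm))
  -- closure
  have key : ∀ y (hy : y ∈ F0), ∃ h : DE y ∈ F0, ψ ⟨DE y, h⟩ = DL (ψ ⟨y, hy⟩) := by
    intro y hy
    induction hy using IntermediateField.adjoin_induction with
    | mem y hy =>
      obtain ⟨j, rfl⟩ := hy
      let xj : F0 := ⟨x j, hxm j⟩
      let q : F0 := -(bev (algebraMap S F0) (algebraMap K F0 T) xj h) /
        bev (algebraMap S F0) (algebraMap K F0 T) xj (derivative g)
      have e3 := hh E DE tE (x j) hE
      rw [hxe, map_zero] at e3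
      have e4 := hh L DL tL (X' (σ j)) hL
      rw [hXe, map_zero] at e4
      have hq : F0.val q = DE (x j) := by
        rw [map_div₀, map_neg, hvE, hvE, div_eq_iff (hsE j)]
        linear_combination e3
      have hmem : DE (x j) ∈ F0 := hq ▸ q.2
      refine ⟨hmem, ?_⟩
      have e1 : (⟨DE (x j), hmem⟩ : F0) = q := Subtype.ext hq.symm
      have e5 : (⟨x j, hxm j⟩ : F0) = xj := rfl
      have e6 : ψ xj = X' (σ j) := hσ j
      have e7 : ψ q = DL (X' (σ j)) := by
        rw [map_div₀, map_neg, hvL, hvL, e6, div_eq_iff (hsL _)]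
        linear_combination e4
      rw [e1, e7, e5, e6]
    | algebraMap z =>
      obtain ⟨z', h1, h2⟩ := base z
      have hmem : DE (algebraMap K E z) ∈ F0 := by
        rw [h1]; exact F0.algebraMap_mem z'
      refine ⟨hmem, ?_⟩
      have e1 : (⟨DE (algebraMap K E z), hmem⟩ : F0) = algebraMap K F0 z' := Subtype.ext h1
      have e2 : (⟨algebraMap K E z, F0.algebraMap_mem z⟩ : F0) = algebraMap K F0 z := rfl
      rw [e1, e2, AlgHom.commutes, AlgHom.commutes, h2]
    | add y z hy hz ihy ihz =>
      obtain ⟨h1, h2⟩ := ihy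
      obtain ⟨h3, h4⟩ := ihz
      have hmem : DE (y + z) ∈ F0 := by rw [map_add]; exact add_mem h1 h3
      refine ⟨hmem, ?_⟩
      have e1 : (⟨DE (y + z), hmem⟩ : F0) = ⟨DE y, h1⟩ + ⟨DE z, h3⟩ :=
        Subtype.ext (map_add DE y z)
      have e2 : (⟨y + z, add_mem hy hz⟩ : F0) = ⟨y, hy⟩ + ⟨z, hz⟩ := rfl
      rw [e1, e2, map_add, map_add, map_add, h2, h4]
    | inv y hy ihy =>
      obtain ⟨h1, h2⟩ := ihy
      have e0 : DE y⁻¹ = -y⁻¹ ^ 2 * DE y := by rw [Derivation.leibniz_inv, smul_eq_mul]
      have hmem : DE y⁻¹ ∈ F0 := by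
        rw [e0]
        exact mul_mem (neg_mem (pow_mem (inv_mem hy) 2)) h1
      refine ⟨hmem, ?_⟩
      have e1 : (⟨DE y⁻¹, hmem⟩ : F0) = -(⟨y, hy⟩ : F0)⁻¹ ^ 2 * ⟨DE y, h1⟩ := Subtype.ext e0
      have e2 : (⟨y⁻¹, inv_mem hy⟩ : F0) = (⟨y, hy⟩ : F0)⁻¹ := rfl
      rw [e1, e2, map_inv₀, Derivation.leibniz_inv, map_mul, map_neg, map_pow, map_inv₀, h2,
        smul_eq_mul]
    | mul y z hy hz ihy ihz =>
      obtain ⟨h1, h2⟩ := ihy
      obtain ⟨h3, h4⟩ := ihz
      have e0 : DE (y * z) = y * DE z + z * DE y := by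
        rw [Derivation.leibniz, smul_eq_mul, smul_eq_mul]
      have hmem : DE (y * z) ∈ F0 := by
        rw [e0]; exact add_mem (mul_mem hy h3) (mul_mem hz h1)
      refine ⟨hmem, ?_⟩
      have e1 : (⟨DE (y * z), hmem⟩ : F0) = ⟨y, hy⟩ * ⟨DE z, h3⟩ + ⟨z, hz⟩ * ⟨DE y, h1⟩ :=
        Subtype.ext e0
      have e2 : (⟨y * z, mul_mem hy hz⟩ : F0) = ⟨y, hy⟩ * ⟨z, hz⟩ := rfl
      rw [e1, e2, map_add, map_mul, map_mul, map_mul, Derivation.leibniz, h2, h4, smul_eq_mul,
        smul_eq_mul]
  -- the results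
  let F : IntermediateField S E := F0.restrictScalars S
  have hFm : ∀ y : E, y ∈ F → y ∈ F0 := fun y hy => hy
  have hFm' : ∀ y : E, y ∈ F0 → y ∈ F := fun y hy => hy
  let DF : Derivation S F F := Derivation.mk'
    { toFun := fun f => ⟨DE (f : E), hFm' _ (key f.1 (hFm _ f.2)).1⟩
      map_add' := fun f g => Subtype.ext (map_add DE (f : E) (g : E))
      map_smul' := fun c f => Subtype.ext (DE.map_smul c (f : E)) }
    (fun f g => Subtype.ext (by
      change DE ((f : E) * (g : E)) = (f : E) * DE (g : E) + (g : E) * DE (f : E)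
      rw [Derivation.leibniz, smul_eq_mul, smul_eq_mul]))
  let ψF : F →ₐ[S] L :=
    { toFun := fun f => ψ ⟨f.1, hFm _ f.2⟩
      map_one' := map_one ψ
      map_mul' := fun f g => map_mul ψ ⟨f.1, hFm _ f.2⟩ ⟨g.1, hFm _ g.2⟩
      map_zero' := map_zero ψ
      map_add' := fun f g => map_add ψ ⟨f.1, hFm _ f.2⟩ ⟨g.1, hFm _ g.2⟩
      commutes' := fun c => by
        have e1 := ψ.commutes (algebraMap S K c)
        have e2 : algebraMap K L (algebraMap S K c) = algebraMap S L c :=
          (IsScalarTower.algebraMap_apply S K L c).symm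
        rw [e2] at e1
        rw [← e1]
        congr 1
        apply Subtype.ext
        exact IsScalarTower.algebraMap_apply S K E c }
  refine ⟨F, DF, ψF, ⟨tE, hFm' _ (hTE ▸ F0.algebraMap_mem T)⟩,
    fun j => ⟨x j, hFm' _ (hxm j)⟩,
    Equiv.ofBijective σ (Finite.injective_iff_bijective.1 hσi), fun f => rfl, rfl, fun j => rfl,
    ?_, ?_, ?_⟩
  · intro f
    exact (key f.1 (hFm _ f.2)).2
  · have e1 := ψ.commutes T
    rw [hTL] at e1
    rw [← e1]
    change ψ _ = ψ _
    congr 1
    apply Subtype.ext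
    exact hTE.symm
  · intro j
    exact hσ j

end Pool.Agent.W5h21.LP
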