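import Pool.Agent.W5h21.LP.Ana
import Pool.Agent.W5h21.LP.Plc
import Pool.Agent.W254.LF.Loc
import Pool.Agent.W254.LF.Det
import Pool.Agent.W253.LF.Ost
import Pool.Agent.W924.LF.Germ
import Pool.Agent.W398.LF.Log

/-!
# Leopoldt's conjecture in parametrised families: the local theorem
-/

set_option autoImplicit false

namespace Pool.Agent.W5h21.LP

open Polynomial Filter Topology Pool.Agent.W289.SL Pool.Agent.W254.LF

attribute [-instance] HahnSeries.powerSeriesAlgebra

/-- constants as analytic functions -/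
def kap (K : Type) [NontriviallyNormedField K] : K →+* anal K where
  toFun c := ⟨fun _ => c, analyticAt_const⟩
  map_one' := rfl
  map_mul' _ _ := rfl
  map_zero' := rfl
  map_add' _ _ := rfl

/-- values of analytic functions -/
def evA (K : Type) [NontriviallyNormedField K] (s : K) : anal K →+* K :=
  (Pi.evalRingHom (fun _ : K => K) s).comp (anal K).subtype

theorem evA_apply (K : Type) [NontriviallyNormedField K] (s : K) (f : anal K) :
    evA K s f = f.1 s := rfl

/-- The local theorem: near every value `t₀` of the parameter the logarithms of the units at the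
roots have rank `r`, if the orders at some place above infinity have. -/
theorem loc (p : ℕ) [Fact p.Prime] (Lg : ℂ_[p] → ℂ_[p]) (hLg : IsIwasawaLog p Lg)
    (g : ℂ_[p][X][X]) (hg : g.Monic) (hs : Sep g) (r : ℕ) (U V : Fin r → ℂ_[p][X][X])
    (hUV : ∀ i, g ∣ U i * V i - 1) (M' : ℕ) (hM' : 0 < M')
    (X' : Fin g.natDegree → LaurentSeries ℂ_[p]) (hX : Function.Injective X')
    (hXe : ∀ j, bev (algebraMap ℂ_[p] (LaurentSeries ℂ_[p]))
      (HahnSeries.single (-(M' : ℤ)) (1 : ℂ_[p])) (X' j) g = 0)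
    (e' : Fin r → Fin g.natDegree)
    (hdet : (Matrix.of fun i j : Fin r => (bev (algebraMap ℂ_[p] (LaurentSeries ℂ_[p]))
      (HahnSeries.single (-(M' : ℤ)) (1 : ℂ_[p])) (X' (e' j)) (U i)).order).det ≠ 0)
    (t₀ : ℂ_[p]) :
    ∀ᶠ t in 𝓝[≠] t₀, ∀ c : Fin r → ℂ_[p],
      (∀ x, bev (RingHom.id ℂ_[p]) t x g = 0 →
        ∑ i, c i * Lg (bev (RingHom.id ℂ_[p]) t x (U i)) = 0) → c = 0 := by
  obtain ⟨M, x, hM, hxan, hxeq, hxne⟩ := ana g hg hs t₀
  obtain ⟨E, _, _, D0, T, hconst, hTc, hTadd, hTmul, hTderiv, hTzero, hTcongr⟩ :=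
    Pool.Agent.W924.LF.t_GERM ℂ_[p]
  set Th := Thom T hTc hTadd hTmul with hTh
  have hcz : CharZero E := charZero_of_injective_algebraMap (algebraMap ℂ_[p] E).injective
  -- basic elements
  let sA : anal ℂ_[p] := ⟨fun s => s, analyticAt_id⟩
  let cA : ℂ_[p] → anal ℂ_[p] := fun c => kap ℂ_[p] c
  let xA : Fin g.natDegree → anal ℂ_[p] := fun j => ⟨x j, hxan j⟩
  let tA : anal ℂ_[p] := cA t₀ + sA ^ M
  have hTcA : ∀ c, Th (cA c) = algebraMap ℂ_[p] E c := fun c => hTc c
  have hTkap : Th.comp (kap ℂ_[p]) = algebraMap ℂ_[p] E := RingHom.ext hTcA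
  have hTinj : ∀ f g : anal ℂ_[p], Th f = Th g → ∀ᶠ s in 𝓝 (0 : ℂ_[p]), f.1 s = g.1 s := by
    intro f g h
    have h1 : Th (f - g) = 0 := by rw [map_sub, h, sub_self]
    have h2 := hTzero (f - g).1 (f - g).2 h1
    filter_upwards [h2] with s hs
    have : (f - g).1 s = f.1 s - g.1 s := rfl
    rw [this] at hs
    exact sub_eq_zero.1 hs
  have hTcon : ∀ f g : anal ℂ_[p], (∀ᶠ s in 𝓝 (0 : ℂ_[p]), f.1 s = g.1 s) → Th f = Th g :=
    fun f g h => hTcongr f.1 g.1 h
  have hD0s : D0 (Th sA) = 1 := by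
    have h1 : D0 (T (fun s => s)) = T (deriv fun s => s) := (hTderiv _ analyticAt_id).symm
    have h2 : (deriv fun s : ℂ_[p] => s) = fun _ => 1 := by
      funext s
      exact deriv_id s
    change D0 (T fun s => s) = 1
    rw [h1, h2, hTc, map_one]
  have hs0 : Th sA ≠ 0 := by
    intro h
    rw [h, map_zero] at hD0s
    exact zero_ne_one hD0s
  set c : E := ((M : E) * (Th sA) ^ (M - 1))⁻¹ with hc
  have hc0 : (M : E) * (Th sA) ^ (M - 1) ≠ 0 :=
    mul_ne_zero (by exact_mod_cast hM.ne') (pow_ne_zero _ hs0)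
  set DE : Derivation ℂ_[p] E E := c • D0 with hDE
  have hDEapp : ∀ z, DE z = c * D0 z := fun z => rfl
  set tE : E := Th tA with htE
  have hDEt : DE tE = 1 := by
    have h1 : tE = algebraMap ℂ_[p] E t₀ + (Th sA) ^ M := by
      rw [htE, map_add, map_pow, hTcA]
    rw [hDEapp, h1, map_add, Derivation.map_algebraMap, zero_add, Derivation.leibniz_pow, hD0s,
      smul_eq_mul, mul_one, nsmul_eq_mul, hc, inv_mul_cancel₀ hc0]
  have hDEconst : ∀ z : E, DE z = 0 → ∃ c : ℂ_[p], algebraMap ℂ_[p] E c = z := by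
    intro z hz
    apply hconst
    rw [hDEapp] at hz
    rcases mul_eq_zero.1 hz with h | h
    · exact absurd h (inv_ne_zero hc0)
    · exact h
  set xE : Fin g.natDegree → E := fun j => Th (xA j) with hxE
  have hxEinj : Function.Injective xE := by
    intro i j hij
    by_contra hne
    exact hxne i j hne (hTinj _ _ hij)
  -- values of polynomials
  have hbval : ∀ (q : ℂ_[p][X][X]) (j : Fin g.natDegree) (s : ℂ_[p]),
      (bev (kap ℂ_[p]) tA (xA j) q).1 s = bev (RingHom.id ℂ_[p]) (t₀ + s ^ M) (x j s) q := by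
    intro q j s
    rw [← evA_apply, bev_hom]
    rfl
  have hbTh : ∀ (q : ℂ_[p][X][X]) (j : Fin g.natDegree),
      Th (bev (kap ℂ_[p]) tA (xA j) q) = bev (algebraMap ℂ_[p] E) tE (xE j) q := by
    intro q j
    rw [bev_hom, hTkap]
  have hxEeq : ∀ j, bev (algebraMap ℂ_[p] E) tE (xE j) g = 0 := by
    intro j
    rw [← hbTh, ← map_zero Th]
    apply hTcon
    filter_upwards [hxeq j] with s hs
    rw [hbval, hs]
    rfl
  -- the units
  have hunit : ∀ i j s, bev (RingHom.id ℂ_[p]) (t₀ + s ^ M) (x j s) g = 0 →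
      bev (RingHom.id ℂ_[p]) (t₀ + s ^ M) (x j s) (U i) ≠ 0 := by
    intro i j s h0 h1
    obtain ⟨w, hw⟩ := hUV i
    have h2 := congrArg (bev (RingHom.id ℂ_[p]) (t₀ + s ^ M) (x j s)) hw
    rw [map_sub, map_mul, map_mul, map_one, h0, h1, zero_mul, zero_mul, zero_sub] at h2
    exact one_ne_zero (neg_eq_zero.1 h2)
  let qA : Fin r → Fin g.natDegree → anal ℂ_[p] := fun i j => bev (kap ℂ_[p]) tA (xA j) (U i)
  have hqval : ∀ i j s, (qA i j).1 s = bev (RingHom.id ℂ_[p]) (t₀ + s ^ M) (x j s) (U i) :=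
    fun i j s => hbval (U i) j s
  have hq0 : ∀ i j, (qA i j).1 0 ≠ 0 := by
    intro i j
    rw [hqval]
    exact hunit i j 0 (hxeq j).self_of_nhds
  -- the logarithms
  have hyan : ∀ i j, AnalyticAt ℂ_[p] (fun s => Lg ((qA i j).1 s)) 0 := by
    intro i j
    exact AnalyticAt.fun_comp (f := (qA i j).1) (g := Lg)
      ((Pool.Agent.W398.LF.t_LOG p Lg hLg _ (hq0 i j)).1) (qA i j).2
  let yA : Fin r → Fin g.natDegree → anal ℂ_[p] := fun i j => ⟨fun s => Lg ((qA i j).1 s), hyan i j⟩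
  have hne1 : ∀ i j, ∀ᶠ s in 𝓝 (0 : ℂ_[p]), (qA i j).1 s ≠ 0 := by
    intro i j
    have h1 : ContinuousAt (qA i j).1 0 := AnalyticAt.continuousAt (f := (qA i j).1) (qA i j).2
    exact h1.eventually_ne (hq0 i j)
  have hqE : ∀ i j, Th (qA i j) = bev (algebraMap ℂ_[p] E) tE (xE j) (U i) :=
    fun i j => hbTh (U i) j
  have hqE0 : ∀ i j, Th (qA i j) ≠ 0 := by
    intro i j h0
    rw [← map_zero Th] at h0
    have h1 := (hTinj _ _ h0).self_of_nhds
    exact hq0 i j h1
  have hDy : ∀ i j, DE (Th (yA i j)) = DE (Th (qA i j)) / Th (qA i j) := by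
    intro i j
    have han : ∀ᶠ s in 𝓝 (0 : ℂ_[p]), AnalyticAt ℂ_[p] (qA i j).1 s :=
      AnalyticAt.eventually_analyticAt (f := (qA i j).1) (qA i j).2
    have h1 : ∀ᶠ s in 𝓝 (0 : ℂ_[p]),
        deriv (fun s => Lg ((qA i j).1 s)) s * (qA i j).1 s = deriv (qA i j).1 s := by
      filter_upwards [hne1 i j, han] with s hs1 hs2
      have h2 : HasDerivAt (qA i j).1 (deriv (qA i j).1 s) s := hs2.differentiableAt.hasDerivAt
      have h3 : HasDerivAt (fun s => Lg ((qA i j).1 s))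
          (((qA i j).1 s)⁻¹ * deriv (qA i j).1 s) s :=
        HasDerivAt.comp s (h₂ := Lg) ((Pool.Agent.W398.LF.t_LOG p Lg hLg _ hs1).2) h2
      rw [h3.deriv]
      field_simp
    have han1 : AnalyticAt ℂ_[p] (deriv (fun s => Lg ((qA i j).1 s))) 0 := (hyan i j).deriv
    have han2 : AnalyticAt ℂ_[p] (deriv (qA i j).1) 0 :=
      AnalyticAt.deriv (f := (qA i j).1) (qA i j).2
    let dyA : anal ℂ_[p] := ⟨_, han1⟩
    let dxA : anal ℂ_[p] := ⟨_, han2⟩
    have h4 : Th (dyA * qA i j) = Th dxA := hTcon _ _ h1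
    rw [map_mul] at h4
    have h5 : Th dyA = D0 (Th (yA i j)) := hTderiv _ (hyan i j)
    have h6 : Th dxA = D0 (Th (qA i j)) := hTderiv _ (qA i j).2
    rw [h5, h6] at h4
    rw [hDEapp, hDEapp, eq_div_iff (hqE0 i j), mul_assoc]
    rw [← h4]
  -- the place at infinity
  obtain ⟨F, DF, ψ, tF, xF, σ, hDF, htF, hxF, hψD, hψt, hψx⟩ := plc ℂ_[p] E (LaurentSeries ℂ_[p])
    DE (DM ℂ_[p] M') tE (HahnSeries.single (-(M' : ℤ)) (1 : ℂ_[p])) hDEt (DM_t M' hM') g hg hs xE X'
    hxEinj hX hxEeq hXe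
  let e : Fin r → Fin g.natDegree := fun j => σ.symm (e' j)
  let qF : Fin r → Fin r → F := fun i j => bev (algebraMap ℂ_[p] F) tF (xF (e j)) (U i)
  have hqFE : ∀ i j, ((qF i j : F) : E) = Th (qA i (e j)) := by
    intro i j
    rw [hqE]
    have h1 := bev_hom (algebraMap ℂ_[p] F) (algebraMap F E) tF (xF (e j)) (U i)
    have h2 : (algebraMap F E).comp (algebraMap ℂ_[p] F) = algebraMap ℂ_[p] E := rfl
    have h3 : algebraMap F E tF = tE := htF
    have h4 : algebraMap F E (xF (e j)) = xE (e j) := hxF (e j)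
    rw [h2, h3, h4] at h1
    exact h1
  have hqFL : ∀ i j, ψ (qF i j) = bev (algebraMap ℂ_[p] (LaurentSeries ℂ_[p]))
      (HahnSeries.single (-(M' : ℤ)) (1 : ℂ_[p])) (X' (e' j)) (U i) := by
    intro i j
    have h1 := bev_hom (algebraMap ℂ_[p] F) (ψ : F →+* LaurentSeries ℂ_[p]) tF (xF (e j)) (U i)
    have h2 : (ψ : F →+* LaurentSeries ℂ_[p]).comp (algebraMap ℂ_[p] F) =
        algebraMap ℂ_[p] (LaurentSeries ℂ_[p]) := RingHom.ext fun c => ψ.commutes c
    have h3 : (ψ : F →+* LaurentSeries ℂ_[p]) tF = HahnSeries.single (-(M' : ℤ)) (1 : ℂ_[p]) := hψt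
    have h4 : (ψ : F →+* LaurentSeries ℂ_[p]) (xF (e j)) = X' (e' j) := by
      have h5 := hψx (e j)
      simp only [e, Equiv.apply_symm_apply] at h5
      exact h5
    rw [h2, h3, h4] at h1
    exact h1
  have hqF0 : ∀ i j, qF i j ≠ 0 := by
    intro i j h0
    have h1 := hqFE i j
    rw [h0] at h1
    exact hqE0 i (e j) h1.symm
  let rr : F →ₗ[ℂ_[p]] ℂ_[p] := rsM ℂ_[p] M' ∘ₗ ψ.toLinearMap
  have hr : ∀ f, rr (DF f) = 0 := by
    intro f
    change rsM ℂ_[p] M' (ψ (DF f)) = 0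
    rw [hψD, rsM_DM]
  let W : Matrix (Fin r) (Fin r) F := Matrix.of fun i j => DF (qF i j) / qF i j
  let Y : Matrix (Fin r) (Fin r) E := Matrix.of fun i j => Th (yA i (e j))
  have hYW : ∀ i j, DE (Y i j) = algebraMap F E (W i j) := by
    intro i j
    change DE (Th (yA i (e j))) = ((DF (qF i j) / qF i j : F) : E)
    rw [hDy, ← hqFE, hDF]
    push_cast
    rfl
  have hYdet : Y.det ≠ 0 := by
    intro h0
    have h1 := det_of Pool.Agent.W253.LF.t_OST ℂ_[p] F E DF DE (fun f => hDF f) hDEconst rr hr r Y W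
      hYW h0
    have h2 : W.map rr = (-(M' : ℂ_[p])⁻¹) • (Matrix.of fun i j : Fin r =>
        (bev (algebraMap ℂ_[p] (LaurentSeries ℂ_[p]))
          (HahnSeries.single (-(M' : ℤ)) (1 : ℂ_[p])) (X' (e' j)) (U i)).order).map
            (Int.castRingHom ℂ_[p]) := by
      ext i j
      rw [Matrix.map_apply, Matrix.smul_apply, Matrix.map_apply]
      change rsM ℂ_[p] M' (ψ (DF (qF i j) / qF i j)) = _
      rw [map_div₀, hψD, rsM_div, hqFL]
      · rfl
      · intro h
        exact hqF0 i j (ψ.toRingHom.injective (h.trans (map_zero ψ).symm))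
    rw [h2, Matrix.det_smul, ← RingHom.mapMatrix_apply, ← RingHom.map_det] at h1
    rcases mul_eq_zero.1 h1 with h3 | h3
    · have h5 : (-(M' : ℂ_[p])⁻¹) ≠ 0 := by
        rw [neg_ne_zero]
        exact inv_ne_zero (by exact_mod_cast hM'.ne')
      exact pow_ne_zero _ h5 h3
    · have h4 : ((Matrix.of fun i j : Fin r => (bev (algebraMap ℂ_[p] (LaurentSeries ℂ_[p]))
          (HahnSeries.single (-(M' : ℤ)) (1 : ℂ_[p])) (X' (e' j)) (U i)).order).det : ℂ_[p]) = 0 :=
        h3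
      exact hdet (by exact_mod_cast h4)
  -- the determinant as a function
  let YA : Matrix (Fin r) (Fin r) (anal ℂ_[p]) := Matrix.of fun i j => yA i (e j)
  have hYA : Th YA.det = Y.det := by
    rw [RingHom.map_det]
    rfl
  have hdval : ∀ s, (YA.det).1 s = (Matrix.of fun i j : Fin r => Lg ((qA i (e j)).1 s)).det := by
    intro s
    have h3 := RingHom.map_det (evA ℂ_[p] s) YA
    exact h3
  have hdne : ∀ᶠ s in 𝓝[≠] (0 : ℂ_[p]), (YA.det).1 s ≠ 0 := by
    rcases AnalyticAt.eventually_eq_zero_or_eventually_ne_zero (f := (YA.det).1) (YA.det).2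
      with h | h
    · exfalso
      apply hYdet
      rw [← hYA]
      have : Th YA.det = Th 0 := hTcon _ _ h
      rw [this, map_zero]
    · exact h
  have hgood : ∀ᶠ s in 𝓝[≠] (0 : ℂ_[p]), ∀ c : Fin r → ℂ_[p],
      (∀ x, bev (RingHom.id ℂ_[p]) (t₀ + s ^ M) x g = 0 →
        ∑ i, c i * Lg (bev (RingHom.id ℂ_[p]) (t₀ + s ^ M) x (U i)) = 0) → c = 0 := by
    have h2 : ∀ᶠ s in 𝓝[≠] (0 : ℂ_[p]), ∀ j : Fin g.natDegree,
        bev (RingHom.id ℂ_[p]) (t₀ + s ^ M) (x j s) g = 0 := by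
      rw [eventually_all]
      intro j
      exact (hxeq j).filter_mono nhdsWithin_le_nhds
    filter_upwards [h2, hdne] with s hs2 hs3 c hcs
    rw [hdval] at hs3
    apply Matrix.eq_zero_of_vecMul_eq_zero hs3
    funext j
    rw [Matrix.vecMul, dotProduct]
    simp only [Matrix.of_apply, Pi.zero_apply, hqval]
    exact hcs (x (e j) s) (hs2 (e j))
  -- back to the parameter t
  rw [eventually_nhdsWithin_iff, Metric.eventually_nhds_iff] at hgood ⊢
  obtain ⟨ε, hε, hgd⟩ := hgood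
  refine ⟨ε ^ M, pow_pos hε M, ?_⟩
  intro t ht htne
  obtain ⟨s, hs⟩ := IsAlgClosed.exists_pow_nat_eq (t - t₀) hM
  have hts : t₀ + s ^ M = t := by rw [hs]; ring
  have hsne : s ≠ 0 := by
    rintro rfl
    apply htne
    rw [zero_pow hM.ne'] at hs
    exact (sub_eq_zero.1 hs.symm)
  have hsd : dist s 0 < ε := by
    rw [dist_zero_right]
    by_contra hcon
    push Not at hcon
    rw [dist_eq_norm, ← hs, norm_pow] at ht
    exact absurd ht (not_lt.2 (pow_le_pow_left₀ hε.le hcon M))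
  have h1 := hgd hsd hsne
  rw [hts] at h1
  exact h1

end Pool.Agent.W5h21.LP
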