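import Pool.Agent.W5h21.LP.Bas
import Pool.Agent.Helper165.P1.NP
import Pool.Agent.W239.LF.Lau
import Pool.Agent.W605.LF.PLC

/-!
# Leopoldt's conjecture in parametrised families: formal Puiseux expansions
-/

set_option autoImplicit false

namespace Pool.Agent.W5h21.LP

open Polynomial Pool.Agent.Helper165.P1 Pool.Agent.W239.LF

attribute [-instance] HahnSeries.powerSeriesAlgebra

/-- `g` is a separable polynomial in the outer variable -/
def Sep {S : Type} [CommRing S] (g : S[X][X]) : Prop :=
  ∃ (a b : S[X][X]) (D : S[X]), D ≠ 0 ∧ a * g + b * derivative g = C D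

variable {K : Type} [Field K]

theorem algC (c : K) : algebraMap K (LaurentSeries K) c = HahnSeries.C c := by
  rw [alg_eq, HahnSeries.ofPowerSeries_C]

theorem algC' : algebraMap K (LaurentSeries K) = (HahnSeries.C : K →+* HahnSeries ℤ K) := by
  ext1 c
  exact algC c

/-- roots over Puiseux series -/
theorem exists_roots [IsAlgClosed K] [CharZero K] (g : K[X][X]) (hg : g.Monic) (hs : Sep g)
    (T : LaurentSeries K)
    (hT : Function.Injective (eval₂RingHom (algebraMap K (LaurentSeries K)) T)) :
    ∃ (M : ℕ) (hM : 0 < M) (X' : Fin g.natDegree → LaurentSeries K), Function.Injective X' ∧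
      ∀ j, bev (algebraMap K (LaurentSeries K)) (NP.expandHom M hM T) (X' j) g = 0 := by
  classical
  set φ₀ : K[X] →+* LaurentSeries K := eval₂RingHom (algebraMap K (LaurentSeries K)) T with hφ₀
  obtain ⟨m, hm, hsp⟩ := NP.NP_splits (g.map φ₀)
  set φ : K[X] →+* LaurentSeries K :=
    eval₂RingHom (algebraMap K (LaurentSeries K)) (NP.expandHom m hm T) with hφ
  have hcomp : (NP.expandHom m hm).comp φ₀ = φ := by
    apply Polynomial.ringHom_ext
    · intro a
      rw [RingHom.comp_apply, hφ₀, hφ, coe_eval₂RingHom, coe_eval₂RingHom, eval₂_C, eval₂_C, algC,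
        NP.expandHom_C]
    · rw [RingHom.comp_apply, hφ₀, hφ, coe_eval₂RingHom, coe_eval₂RingHom, eval₂_X, eval₂_X]
  have hφi : Function.Injective φ := by
    rw [← hcomp, RingHom.coe_comp]
    exact (NP.expandHom m hm).injective.comp hT
  rw [Polynomial.map_map, hcomp] at hsp
  have hPm : (g.map φ).Monic := hg.map _
  have hPd : (g.map φ).natDegree = g.natDegree := hg.natDegree_map _
  have hsep : (g.map φ).Separable := by
    obtain ⟨a, b, D, hD, hab⟩ := hs
    have h1 := congrArg (Polynomial.map φ) hab
    rw [Polynomial.map_add, Polynomial.map_mul, Polynomial.map_mul, map_C,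
      ← Polynomial.derivative_map] at h1
    have h2 : φ D ≠ 0 := by
      intro h
      exact hD (hφi (by rw [h, map_zero]))
    refine ⟨C (φ D)⁻¹ * a.map φ, C (φ D)⁻¹ * b.map φ, ?_⟩
    rw [mul_assoc, mul_assoc, ← mul_add, h1, ← C_mul, inv_mul_cancel₀ h2, C_1]
  have hnd : (g.map φ).roots.Nodup := nodup_roots hsep
  have hcard : (g.map φ).roots.toFinset.card = g.natDegree := by
    rw [Multiset.toFinset_card_of_nodup hnd, ← hsp.natDegree_eq_card_roots, hPd]
  let e : Fin g.natDegree ≃ {x // x ∈ (g.map φ).roots.toFinset} :=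
    (Fintype.equivFinOfCardEq (by rw [Fintype.card_coe, hcard])).symm
  refine ⟨m, hm, fun j => (e j).1, fun i j h => e.injective (Subtype.ext h), fun j => ?_⟩
  have h1 := (e j).2
  rw [Multiset.mem_toFinset] at h1
  have h2 := (mem_roots'.1 h1).2
  rw [bev_apply]
  exact h2

/-- `t` is transcendental if some derivation has the value one on it -/
theorem inj_of_der [CharZero K] (T : LaurentSeries K)
    (D : Derivation K (LaurentSeries K) (LaurentSeries K)) (hD : D T = 1) :
    Function.Injective (eval₂RingHom (algebraMap K (LaurentSeries K)) T) := by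
  have h := Pool.Agent.W605.LF.aeval_inj (C := K) (E := LaurentSeries K) D T hD
  intro a b hab
  apply h
  rw [aeval_def, aeval_def]
  exact hab

/-! ### the place at infinity -/

/-- the derivation `d/dt` for `t = z ^ (-M)` -/
noncomputable def DM (K : Type) [Field K] (M : ℕ) :
    Derivation K (LaurentSeries K) (LaurentSeries K) :=
  (HahnSeries.single (M : ℤ) (-(M : K)⁻¹)) • th K

theorem DM_apply (M : ℕ) (f : LaurentSeries K) :
    DM K M f = HahnSeries.single (M : ℤ) (-(M : K)⁻¹) * th K f := by
  rw [DM, Derivation.smul_apply, smul_eq_mul]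

theorem DM_t [CharZero K] (M : ℕ) (hM : 0 < M) :
    DM K M (HahnSeries.single (-(M : ℤ)) (1 : K)) = 1 := by
  have hM' : (M : K) ≠ 0 := by exact_mod_cast hM.ne'
  rw [DM_apply]
  ext n
  rw [HahnSeries.coeff_single_mul, th_coeff, HahnSeries.coeff_single, HahnSeries.coeff_one]
  by_cases hn : n = 0
  · subst hn
    rw [if_pos (by ring), if_pos rfl]
    push_cast
    field_simp
    ring
  · rw [if_neg (by omega), if_neg hn]
    ring

/-- the coefficient functional -/
noncomputable def rsM (K : Type) [Field K] (M : ℕ) : LaurentSeries K →ₗ[K] K where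
  toFun f := f.coeff M
  map_add' f g := by simp
  map_smul' r f := by simp

theorem rsM_apply (M : ℕ) (f : LaurentSeries K) : rsM K M f = f.coeff M := rfl

theorem rsM_DM (M : ℕ) (f : LaurentSeries K) : rsM K M (DM K M f) = 0 := by
  rw [rsM_apply, DM_apply, HahnSeries.coeff_single_mul, th_coeff]
  simp

/-- the logarithmic derivative `z q' / q` has constant coefficient the order -/
theorem coeff_th_div (q : LaurentSeries K) (hq : q ≠ 0) :
    (th K q / q).coeff 0 = (q.order : K) := by
  have h1 := LaurentSeries.single_order_mul_powerSeriesPart q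
  set w : PowerSeries K := LaurentSeries.powerSeriesPart q with hw
  have hw1 : (HahnSeries.ofPowerSeries ℤ K w : LaurentSeries K) = co K w := rfl
  have hq' : q = HahnSeries.single q.order (1 : K) * co K w := h1.symm
  have hw0 : PowerSeries.constantCoeff w ≠ 0 := by
    rw [← PowerSeries.coeff_zero_eq_constantCoeff_apply, hw, LaurentSeries.powerSeriesPart_coeff]
    simpa using fun h => hq (HahnSeries.coeff_order_eq_zero.1 h)
  obtain ⟨w', hw'⟩ : ∃ w' : PowerSeries K, w * w' = 1 := ⟨w⁻¹, PowerSeries.mul_inv_cancel _ hw0⟩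
  have hcow : co K w * co K w' = 1 := by rw [← map_mul, hw', map_one]
  have hcow0 : co K w ≠ 0 := left_ne_zero_of_mul_eq_one hcow
  have hs0 : (HahnSeries.single q.order (1 : K) : LaurentSeries K) ≠ 0 :=
    HahnSeries.single_ne_zero one_ne_zero
  have hths : th K (HahnSeries.single q.order (1 : K)) =
      algebraMap K (LaurentSeries K) (q.order : K) * HahnSeries.single q.order (1 : K) := by
    rw [algC]
    ext n
    rw [th_coeff, HahnSeries.C_mul_eq_smul, HahnSeries.coeff_smul, smul_eq_mul,
      HahnSeries.coeff_single]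
    split_ifs with h
    · rw [h]
    · simp
  have h2 : th K q / q = algebraMap K (LaurentSeries K) (q.order : K) +
      co K (tp K w * w') := by
    have h3 : th K q = HahnSeries.single q.order (1 : K) * co K (tp K w) +
        co K w * (algebraMap K (LaurentSeries K) (q.order : K) *
          HahnSeries.single q.order (1 : K)) := by
      have h4 : th K q = th K (HahnSeries.single q.order (1 : K) * co K w) := by rw [← hq']
      rw [h4, Derivation.leibniz, th_co, hths, smul_eq_mul, smul_eq_mul]
    have h5 : th K q / q = th K q / (HahnSeries.single q.order (1 : K) * co K w) := by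
      rw [← hq']
    rw [h5, h3, div_eq_iff (mul_ne_zero hs0 hcow0), map_mul]
    linear_combination (-(HahnSeries.single q.order (1 : K) * co K (tp K w))) * hcow
  have h6 : (co K (tp K w * w')).coeff 0 = 0 := by
    have h7 := co_coeff K (tp K w * w') 0
    rw [Nat.cast_zero] at h7
    rw [h7, PowerSeries.coeff_zero_eq_constantCoeff_apply, map_mul, tp_const, zero_mul]
  rw [h2, HahnSeries.coeff_add, h6, add_zero, algC, HahnSeries.C_apply, HahnSeries.coeff_single,
    if_pos rfl]

theorem rsM_div (M : ℕ) (q : LaurentSeries K) (hq : q ≠ 0) :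
    rsM K M (DM K M q / q) = -(M : K)⁻¹ * (q.order : K) := by
  rw [rsM_apply, DM_apply, mul_div_assoc, HahnSeries.coeff_single_mul, sub_self, coeff_th_div q hq]

theorem exists_inf [IsAlgClosed K] [CharZero K] (g : K[X][X]) (hg : g.Monic) (hs : Sep g) :
    ∃ (M : ℕ) (_ : 0 < M) (X' : Fin g.natDegree → LaurentSeries K), Function.Injective X' ∧
      ∀ j, bev (algebraMap K (LaurentSeries K)) (HahnSeries.single (-(M : ℤ)) (1 : K)) (X' j) g
        = 0 := by
  have h1 : Function.Injective (eval₂RingHom (algebraMap K (LaurentSeries K))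
      (HahnSeries.single (-1 : ℤ) (1 : K))) := by
    apply inj_of_der _ (DM K 1)
    have h2 := DM_t (K := K) 1 one_pos
    exact_mod_cast h2
  obtain ⟨M, hM, X', hX, hroot⟩ := exists_roots g hg hs _ h1
  refine ⟨M, hM, X', hX, fun j => ?_⟩
  have h3 := hroot j
  rw [NP.expandHom_single] at h3
  rw [show -(M : ℤ) = (M : ℤ) * (-1) by ring]
  exact h3

/-! ### finite places -/

theorem exists_fin [IsAlgClosed K] [CharZero K] (g : K[X][X]) (hg : g.Monic) (hs : Sep g)
    (t₀ : K) :
    ∃ (M : ℕ) (_ : 0 < M) (x : Fin g.natDegree → PowerSeries K), Function.Injective x ∧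
      ∀ j, bev (PowerSeries.C (R := K)) (PowerSeries.C t₀ + PowerSeries.X ^ M) (x j) g = 0 := by
  have h1 : Function.Injective (eval₂RingHom (algebraMap K (LaurentSeries K))
      (algebraMap K (LaurentSeries K) t₀ + HahnSeries.single (1 : ℤ) (1 : K))) := by
    apply inj_of_der _ ((HahnSeries.single (-1 : ℤ) (1 : K)) • th K)
    rw [Derivation.smul_apply, map_add, Derivation.map_algebraMap, zero_add, smul_eq_mul]
    ext n
    rw [HahnSeries.coeff_single_mul, th_coeff, HahnSeries.coeff_single, HahnSeries.coeff_one]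
    by_cases hn : n = 0
    · subst hn
      simp
    · rw [if_neg (by omega), if_neg hn]
      simp
  obtain ⟨M, hM, X', hX, hroot⟩ := exists_roots g hg hs _ h1
  have hT : NP.expandHom M hM (algebraMap K (LaurentSeries K) t₀ +
      HahnSeries.single (1 : ℤ) (1 : K)) =
      HahnSeries.ofPowerSeries ℤ K (PowerSeries.C t₀ + PowerSeries.X ^ M) := by
    rw [map_add, algC, NP.expandHom_C, NP.expandHom_single, map_add, HahnSeries.ofPowerSeries_C,
      HahnSeries.ofPowerSeries_X_pow, mul_one]
  have hint : ∀ j, ∃ y : PowerSeries K, HahnSeries.ofPowerSeries ℤ K y = X' j := by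
    intro j
    set ψ : K[X] →+* PowerSeries K :=
      eval₂RingHom (PowerSeries.C (R := K)) (PowerSeries.C t₀ + PowerSeries.X ^ M) with hψ
    have h2 : (HahnSeries.ofPowerSeries ℤ K).comp ψ =
        eval₂RingHom (algebraMap K (LaurentSeries K)) (NP.expandHom M hM
          (algebraMap K (LaurentSeries K) t₀ + HahnSeries.single (1 : ℤ) (1 : K))) := by
      apply Polynomial.ringHom_ext
      · intro a
        rw [RingHom.comp_apply, hψ, coe_eval₂RingHom, coe_eval₂RingHom, eval₂_C, eval₂_C, algC,
          HahnSeries.ofPowerSeries_C]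
      · rw [RingHom.comp_apply, hψ, coe_eval₂RingHom, coe_eval₂RingHom, eval₂_X, eval₂_X, hT]
    have h3 : (g.map ψ).eval₂ (HahnSeries.ofPowerSeries ℤ K) (X' j) = 0 := by
      have h4 := hroot j
      rw [bev_apply, ← h2, ← Polynomial.map_map, eval_map] at h4
      exact h4
    have hint : IsIntegral (PowerSeries K) (X' j : LaurentSeries K) := ⟨g.map ψ, hg.map _, h3⟩
    obtain ⟨y, hy⟩ := IsIntegrallyClosed.isIntegral_iff.1 hint
    exact ⟨y, hy⟩
  choose x hx using hint
  refine ⟨M, hM, x, fun i j h => hX (by rw [← hx, ← hx, h]), fun j => ?_⟩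
  apply HahnSeries.ofPowerSeries_injective (Γ := ℤ) (R := K)
  rw [bev_hom, map_zero, hx, ← hT]
  have h5 : (HahnSeries.ofPowerSeries ℤ K).comp (PowerSeries.C (R := K)) =
      algebraMap K (LaurentSeries K) := by
    ext1 c
    rw [RingHom.comp_apply, HahnSeries.ofPowerSeries_C, algC]
  rw [h5]
  exact hroot j

end Pool.Agent.W5h21.LP
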